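import Pool.Agent.H63.WP.Sq

/-!
# Primes in all short intervals
-/

set_option autoImplicit false

namespace H63.WP

open Finset Filter

/-- The asymptotic formula for the number of primes in all short intervals. -/
def AllPrimes : Prop := ∀ ε δ : ℝ, 0 < ε → 0 < δ → ∀ᶠ n : ℕ in atTop, ∀ H : ℕ,
  (n : ℝ) ^ ε ≤ H → (H : ℝ) ≤ (n : ℝ) ^ (1 - ε) →
    |(((Ico (n - H) n).filter Nat.Prime).card : ℝ) * Real.log n - H| ≤ δ * H

theorem low_of_allPrimes (h : AllPrimes) : low N5dc7309f.f = 1 := by
  refine le_antisymm f_low_le_one ?_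
  have hmain : ∀ c' : ℝ, c' < 1 → ∀ᶠ n in atTop, c' ≤ N5dc7309f.f n := by
    intro c hc
    obtain ⟨C, hC, hblock⟩ := block_a
    set g : ℝ := (1 - c) / 4 with hg
    have hg0 : 0 < g := by
      rw [hg]
      linarith
    set ε : ℝ := min (g / 2) (1 / 4) with hε
    have hε0 : 0 < ε := lt_min (by linarith) (by norm_num)
    have hε1 : ε ≤ g / 2 := min_le_left _ _
    have hε2 : ε ≤ 1 / 4 := min_le_right _ _
    set δ : ℝ := min (g / 4) 1 with hδ
    have hδ0 : 0 < δ := lt_min (by linarith) one_pos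
    have hδ1 : δ ≤ g / 4 := min_le_left _ _
    have hδ2 : δ ≤ 1 := min_le_right _ _
    filter_upwards [h ε δ hε0 hδ0,
      ev_log 4 (min (g / 2) 1) (lt_min (by linarith) one_pos), ev_pow ε 2 hε0,
      eventually_ge_atTop 2, ev_pow (1 - 2 * ε) 4 (by linarith)] with x h1 h3 h4 h6 h7
    have hx2 : (2 : ℝ) ≤ x := by exact_mod_cast h6
    have hx : (0 : ℝ) < x := by linarith
    set l : ℝ := Real.log x with hl
    have hl0 : 0 < l := Real.log_pos (by linarith)
    have h3a : 4 / l ≤ g / 2 := h3.trans (min_le_left _ _)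
    have h3b : 4 / l ≤ 1 := h3.trans (min_le_right _ _)
    set V0 : ℕ := ⌈(x : ℝ) ^ ε⌉₊ with hV0
    set M : ℕ := ⌊(x : ℝ) ^ (1 - ε)⌋₊ with hM
    have hV0x : (x : ℝ) ^ ε ≤ V0 := Nat.le_ceil _
    have hV0lt : (V0 : ℝ) < (x : ℝ) ^ ε + 1 := Nat.ceil_lt_add_one (by positivity)
    have hMle : (M : ℝ) ≤ (x : ℝ) ^ (1 - ε) := Nat.floor_le (by positivity)
    have hMlt : (x : ℝ) ^ (1 - ε) < M + 1 := Nat.lt_floor_add_one _
    have hxε0 : (0 : ℝ) < (x : ℝ) ^ ε := by positivity
    have hsplit : (x : ℝ) ^ ε * (x : ℝ) ^ (1 - 2 * ε) = (x : ℝ) ^ (1 - ε) := by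
      rw [← Real.rpow_add hx]
      congr 1
      ring
    have hbig : 4 * (x : ℝ) ^ ε ≤ (x : ℝ) ^ (1 - ε) := by nlinarith
    have hV0M : V0 ≤ M := by
      have : (V0 : ℝ) ≤ M := by linarith
      exact_mod_cast this
    have hV02 : 2 ≤ V0 := by
      have : (2 : ℝ) ≤ V0 := by linarith
      exact_mod_cast this
    have hM0 : (0 : ℝ) < M := by
      have : 0 < M := by omega
      exact_mod_cast this
    have hV0R : (0 : ℝ) < V0 := by linarith
    have hMx : M ≤ x := by
      have h8 : (x : ℝ) ^ (1 - ε) ≤ (x : ℝ) ^ (1 : ℝ) :=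
        Real.rpow_le_rpow_of_exponent_le (by linarith) (by linarith)
      rw [Real.rpow_one] at h8
      exact_mod_cast hMle.trans h8
    -- the ideal value
    have hRs := Rs_log l hl0 M V0 (by omega) hV0M
    rw [abs_le] at hRs
    have hlogM : (1 - ε) * l - 1 ≤ Real.log M := by
      have h8 : (x : ℝ) ^ (1 - ε) ≤ 2 * M := by
        have : (1 : ℝ) ≤ M := by
          have : 1 ≤ M := by omega
          exact_mod_cast this
        linarith
      have h9 := Real.log_le_log (by positivity) h8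
      rw [Real.log_rpow hx, Real.log_mul (by norm_num) hM0.ne'] at h9
      have h10 : Real.log 2 ≤ 1 := by
        have := Real.log_le_sub_one_of_pos (show (0 : ℝ) < 2 by norm_num)
        linarith
      linarith
    have hlogV0 : Real.log V0 ≤ ε * l + 1 := by
      have h8 : (V0 : ℝ) ≤ 2 * (x : ℝ) ^ ε := by linarith
      have h9 := Real.log_le_log hV0R h8
      rw [Real.log_mul (by norm_num) hxε0.ne', Real.log_rpow hx] at h9
      have h10 : Real.log 2 ≤ 1 := by
        have := Real.log_le_sub_one_of_pos (show (0 : ℝ) < 2 by norm_num)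
        linarith
      linarith
    have hlogMx : Real.log M ≤ l := Real.log_le_log hM0 (by exact_mod_cast hMx)
    have hRs1 : 1 - 2 * ε - 4 / l ≤ Rs l M V0 := by
      have h8 : (1 - ε) - 1 / l ≤ Real.log M / l := by
        rw [le_div_iff₀ hl0]
        have : ((1 - ε) - 1 / l) * l = (1 - ε) * l - 1 := by
          field_simp
        linarith
      have h9 : Real.log V0 / l ≤ ε + 1 / l := by
        rw [div_le_iff₀ hl0]
        have : (ε + 1 / l) * l = ε * l + 1 := by
          field_simp
        linarith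
      have e : 4 / l = 2 / l + 1 / l + 1 / l := by ring
      linarith [hRs.1]
    have hRs2 : Rs l M V0 ≤ 2 := by
      have h8 : Real.log M / l ≤ 1 := by
        rw [div_le_one hl0]
        exact hlogMx
      have h9 : 0 ≤ Real.log V0 / l := div_nonneg (Real.log_natCast_nonneg V0) hl0.le
      have h10 : 2 / l ≤ 1 := by
        have : 2 / l ≤ 4 / l := div_le_div_of_nonneg_right (by norm_num) hl0.le
        linarith
      linarith [hRs.2]
    -- the sum over the scales
    have hP : ∀ U, V0 ≤ U → U ≤ M → (1 - δ) * (U / l) ≤ P x U ∧ P x U ≤ (1 + δ) * (U / l) := by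
      intro U hU1 hU2
      have h8 := h1 U (hV0x.trans (by exact_mod_cast hU1)) (le_trans (by exact_mod_cast hU2) hMle)
      rw [← P_eq, abs_le] at h8
      constructor
      · rw [mul_div_assoc', div_le_iff₀ hl0]
        linarith [h8.1]
      · rw [mul_div_assoc', le_div_iff₀ hl0]
        linarith [h8.2]
    have h8 := R_sum x M V0 hMx hV0M
    have h9 : 0 ≤ R x M :=
      add_nonneg (y_nonneg x M) (div_nonneg (P_nonneg x M) (by positivity))
    have h10 : (1 - δ) * Rs l M V0 ≤ ∑ U ∈ Ioc V0 M, P x U / ((U : ℝ) * ((U : ℝ) + 1)) := by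
      unfold Rs
      rw [sum_div, mul_sum]
      refine sum_le_sum fun U hU => ?_
      rw [mem_Ioc] at hU
      have hU0 : (0 : ℝ) < U := by
        have : 0 < U := by omega
        exact_mod_cast this
      rw [le_div_iff₀ (by positivity)]
      refine le_trans (le_of_eq ?_) (hP U hU.1.le hU.2).1
      field_simp
    have h11 : P x V0 / ((V0 : ℝ) + 1) ≤ 2 / l := by
      rw [div_le_iff₀ (by positivity)]
      refine (hP V0 le_rfl hV0M).2.trans ?_
      have h12 : (1 + δ) * ((V0 : ℝ) / l) ≤ 2 * ((V0 : ℝ) / l) :=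
        mul_le_mul_of_nonneg_right (by linarith) (by positivity)
      refine h12.trans ?_
      have h13 : 2 / l * ((V0 : ℝ) + 1) = 2 * ((V0 : ℝ) / l) + 2 / l := by ring
      have h14 : 0 ≤ 2 / l := by positivity
      linarith
    have h12 : y x V0 = R x V0 - P x V0 / ((V0 : ℝ) + 1) := by
      unfold R
      ring
    have h13 := y_le_f x V0
    have h14 : δ * Rs l M V0 ≤ δ * 2 := mul_le_mul_of_nonneg_left hRs2 hδ0.le
    have h15 : 2 / l ≤ 4 / l := div_le_div_of_nonneg_right (by norm_num) hl0.le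
    have hc' : c = 1 - 4 * g := by rw [hg]; ring
    rw [hc']
    nlinarith
  have h1 : ((1 : ℝ) : EReal) ≤ low N5dc7309f.f := real_le_low hmain
  exact_mod_cast h1

end H63.WP
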