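import Pool.Agent.H63.WP.Loc
import Pool.Agent.H5.PNT.PNT

/-!
# The average of the contribution of the distant primes is at most `1 - s`.
-/

set_option autoImplicit false

namespace H63.WP

open Finset Filter

theorem sum_inv_le (V x : ℕ) (hV : 1 ≤ V) (h : V ≤ x) :
    ∑ m ∈ Ioc V x, 1 / (m : ℝ) ≤ Real.log x - Real.log V := by
  induction x, h using Nat.le_induction with
  | base => simp
  | succ x hx ih =>
    rw [sum_Ioc_succ_top hx]
    have hx0 : (0 : ℝ) < x := by
      have : 0 < x := by omega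
      exact_mod_cast this
    have h1 : Real.log ((x : ℝ) / (x + 1)) ≤ (x : ℝ) / (x + 1) - 1 :=
      Real.log_le_sub_one_of_pos (by positivity)
    rw [Real.log_div hx0.ne' (by positivity)] at h1
    have h2 : (x : ℝ) / (x + 1) - 1 = -(1 / ((x : ℝ) + 1)) := by
      field_simp
      ring
    push_cast
    linarith

theorem sum_far_le (s : ℝ) (hs : 0 < s) (hs1 : s < 1) (x : ℕ) :
    ∑ n ∈ Ioc 0 x, far s n ≤
      ∑ p ∈ (Ioc 0 x).filter Nat.Prime, (Real.log x - s * Real.log p + 1) := by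
  have h1 : ∀ n ∈ Ioc 0 x, far s n = ∑ p ∈ (Ioc 0 x).filter Nat.Prime,
      if p < n ∧ (n : ℝ) ^ s < (n : ℝ) - p then 1 / ((n : ℝ) - p) else 0 := by
    intro n hn
    rw [mem_Ioc] at hn
    unfold far
    rw [← sum_filter]
    congr 1
    ext p
    simp only [mem_filter, mem_range, mem_Ioc]
    constructor
    · rintro ⟨h2, h3, h4⟩
      exact ⟨⟨⟨h3.pos, by omega⟩, h3⟩, h2, h4⟩
    · rintro ⟨⟨_, h3⟩, h2, h4⟩
      exact ⟨h2, h3, h4⟩
  rw [sum_congr rfl h1, sum_comm]
  refine sum_le_sum fun p hp => ?_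
  rw [mem_filter, mem_Ioc] at hp
  obtain ⟨⟨hp0, hpx⟩, hpp⟩ := hp
  have hpR : (1 : ℝ) ≤ p := by exact_mod_cast hp0
  set V : ℕ := ⌊(p : ℝ) ^ s⌋₊ with hV
  have hps : (1 : ℝ) ≤ (p : ℝ) ^ s := Real.one_le_rpow hpR hs.le
  have hV1 : 1 ≤ V := Nat.le_floor (by exact_mod_cast hps)
  have hVle : (V : ℝ) ≤ (p : ℝ) ^ s := Nat.floor_le (by linarith)
  have hVlt : (p : ℝ) ^ s < V + 1 := Nat.lt_floor_add_one _
  have hVR : (1 : ℝ) ≤ V := by exact_mod_cast hV1
  have hVx : V ≤ x := by
    have h2 : (V : ℝ) ≤ p := by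
      refine hVle.trans ?_
      calc (p : ℝ) ^ s ≤ (p : ℝ) ^ (1 : ℝ) := Real.rpow_le_rpow_of_exponent_le hpR hs1.le
        _ = p := Real.rpow_one _
    have h3 : V ≤ p := by exact_mod_cast h2
    omega
  have h4 : ∑ n ∈ Ioc 0 x, (if p < n ∧ (n : ℝ) ^ s < (n : ℝ) - p then 1 / ((n : ℝ) - p) else 0) ≤
      ∑ m ∈ Ioc V x, 1 / (m : ℝ) := by
    rw [← sum_filter]
    set S := (Ioc 0 x).filter (fun n : ℕ => p < n ∧ (n : ℝ) ^ s < (n : ℝ) - p) with hS
    have h5 : ∑ n ∈ S, 1 / ((n : ℝ) - p) = ∑ n ∈ S, 1 / (((n - p : ℕ)) : ℝ) := by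
      refine sum_congr rfl fun n hn => ?_
      rw [hS, mem_filter] at hn
      rw [Nat.cast_sub hn.2.1.le]
    have hinj : Set.InjOn (fun n : ℕ => n - p) S := by
      intro n hn n' hn' he
      simp only [hS, coe_filter, Set.mem_ofPred_eq] at hn hn'
      have := hn.2.1
      have := hn'.2.1
      simp only at he
      omega
    have h6 : ∑ n ∈ S, 1 / (((n - p : ℕ)) : ℝ) = ∑ m ∈ S.image (fun n : ℕ => n - p), 1 / (m : ℝ) :=
      (sum_image (f := fun m : ℕ => 1 / (m : ℝ)) hinj).symm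
    rw [h5, h6]
    refine sum_le_sum_of_subset_of_nonneg ?_ fun m _ _ => by positivity
    intro m hm
    rw [mem_image] at hm
    obtain ⟨n, hn, rfl⟩ := hm
    rw [hS, mem_filter, mem_Ioc] at hn
    rw [mem_Ioc]
    refine ⟨?_, by omega⟩
    have h7 : (p : ℝ) ^ s ≤ (n : ℝ) ^ s :=
      Real.rpow_le_rpow (by linarith) (by exact_mod_cast hn.2.1.le) hs.le
    have h8 : (V : ℝ) < ((n - p : ℕ) : ℝ) := by
      rw [Nat.cast_sub hn.2.1.le]
      linarith [hn.2.2]
    exact_mod_cast h8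
  have h9 := sum_inv_le V x hV1 hVx
  have h10 : s * Real.log p - 1 ≤ Real.log V := by
    have h11 : (p : ℝ) ^ s ≤ 2 * V := by linarith
    have h12 := Real.log_le_log (by linarith) h11
    rw [Real.log_rpow (by linarith), Real.log_mul (by norm_num) (by linarith)] at h12
    have h13 : Real.log 2 ≤ 1 := by
      have := Real.log_le_sub_one_of_pos (show (0 : ℝ) < 2 by norm_num)
      linarith
    linarith
  linarith

theorem pi_div_tendsto : Tendsto (fun x : ℕ => (Nat.primeCounting x : ℝ) / x) atTop (nhds 0) := by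
  have h1 : Tendsto (fun x : ℕ => (Nat.primeCounting x : ℝ) * Real.log x / x) atTop (nhds 1) := by
    have := Pool.Agent.H5.PNT.pi_tendsto.comp tendsto_natCast_atTop_atTop
    refine this.congr fun x => ?_
    simp
  have h2 : Tendsto (fun x : ℕ => 1 / Real.log x) atTop (nhds 0) :=
    (Real.tendsto_log_atTop.comp tendsto_natCast_atTop_atTop).const_div_atTop 1
  have h3 := h1.mul h2
  rw [mul_zero] at h3
  refine h3.congr' ?_
  filter_upwards [eventually_ge_atTop 2] with x hx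
  have : 0 < Real.log x := Real.log_pos (by exact_mod_cast hx)
  field_simp

theorem upper_tendsto (s : ℝ) : Tendsto (fun x : ℕ =>
    (∑ p ∈ (Ioc 0 x).filter Nat.Prime, (Real.log x - s * Real.log p + 1)) / x) atTop
      (nhds (1 - s)) := by
  have h1 : Tendsto (fun x : ℕ => (Nat.primeCounting x : ℝ) * Real.log x / x) atTop (nhds 1) := by
    have := Pool.Agent.H5.PNT.pi_tendsto.comp tendsto_natCast_atTop_atTop
    refine this.congr fun x => ?_
    simp
  have h2 : Tendsto (fun x : ℕ => Chebyshev.theta x / x) atTop (nhds 1) :=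
    Pool.Agent.H5.PNT.theta_tendsto.comp tendsto_natCast_atTop_atTop
  have h3 := (h1.add pi_div_tendsto).sub (h2.const_mul s)
  rw [add_zero, mul_one] at h3
  refine h3.congr fun x => ?_
  have h4 : ((Ioc 0 x).filter Nat.Prime).card = Nat.primeCounting x := by
    rw [Nat.primeCounting, Nat.primeCounting', Nat.count_eq_card_filter_range]
    congr 1
    ext p
    simp only [mem_filter, mem_Ioc, mem_range]
    constructor
    · rintro ⟨⟨_, h2⟩, h3⟩
      exact ⟨by omega, h3⟩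
    · rintro ⟨h1, h2⟩
      exact ⟨⟨h2.pos, by omega⟩, h2⟩
  have h5 : ∑ p ∈ (Ioc 0 x).filter Nat.Prime, (Real.log x - s * Real.log p + 1) =
      (Nat.primeCounting x : ℝ) * (Real.log x + 1) - s * Chebyshev.theta x := by
    have e : ∀ p ∈ (Ioc 0 x).filter Nat.Prime, Real.log x - s * Real.log p + 1 =
        (Real.log x + 1) - s * Real.log p := fun p _ => by ring
    rw [sum_congr rfl e, sum_sub_distrib, sum_const, h4, nsmul_eq_mul, ← mul_sum]
    unfold Chebyshev.theta
    rw [Nat.floor_natCast]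
  rw [h5]
  ring

/-- no `c > 1 - s` is an eventual lower bound of `far s`. -/
theorem far_low (s : ℝ) (hs : 0 < s) (hs1 : s < 1) (c : ℝ) (h : ∀ᶠ n : ℕ in atTop, c ≤ far s n) :
    c ≤ 1 - s := by
  obtain ⟨n0, hn0⟩ := eventually_atTop.1 h
  have h1 : Tendsto (fun x : ℕ => c * ((x : ℝ) - n0) / x) atTop (nhds c) := by
    have h2 : Tendsto (fun x : ℕ => c - c * n0 / (x : ℝ)) atTop (nhds (c - 0)) :=
      tendsto_const_nhds.sub (tendsto_natCast_atTop_atTop.const_div_atTop (c * (n0 : ℝ)))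
    rw [sub_zero] at h2
    refine h2.congr' ?_
    filter_upwards [eventually_ge_atTop 1] with x hx
    have : (0 : ℝ) < x := by exact_mod_cast hx
    field_simp
  refine le_of_tendsto_of_tendsto h1 (upper_tendsto s) ?_
  filter_upwards [eventually_ge_atTop (n0 + 1)] with x hx
  refine div_le_div_of_nonneg_right ?_ (Nat.cast_nonneg x)
  refine le_trans ?_ (sum_far_le s hs hs1 x)
  have h3 : c * ((x : ℝ) - n0) = ∑ n ∈ Ioc n0 x, c := by
    rw [sum_const, Nat.card_Ioc, nsmul_eq_mul, Nat.cast_sub (by omega)]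
    ring
  rw [h3]
  refine (sum_le_sum fun n hn => ?_).trans (sum_le_sum_of_subset_of_nonneg
    (Ioc_subset_Ioc_left (Nat.zero_le n0)) fun n _ _ => far_nonneg s n)
  rw [mem_Ioc] at hn
  exact hn0 n (by omega)

end H63.WP
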