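import Pool.Agent.H63.WP.MeanF

/-!
# Primes in almost all short intervals
-/

set_option autoImplicit false

namespace H63.WP

open Finset Filter

/-- The asymptotic formula for the number of primes in almost all short intervals: for every
`ε > 0`, uniformly for the lengths `H` between `x ^ ε` and `x ^ (1 - ε)`, for almost all `n ≤ x`
the number of primes in `[n - H, n)` is asymptotic to `H / log x`. -/
def AlmostAllPrimes : Prop := ∀ ε δ : ℝ, 0 < ε → 0 < δ → ∀ᶠ x : ℕ in atTop, ∀ H : ℕ,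
  (x : ℝ) ^ ε ≤ H → (H : ℝ) ≤ (x : ℝ) ^ (1 - ε) →
    (((Ioc 0 x).filter (fun n =>
      δ * H < |(((Ico (n - H) n).filter Nat.Prime).card : ℝ) * Real.log x - H|)).card : ℝ) ≤ δ * x

theorem P_eq (n H : ℕ) : P n H = (((Ico (n - H) n).filter Nat.Prime).card : ℝ) := by
  unfold P a
  rw [← sum_filter, sum_const, nsmul_eq_mul, mul_one]
  congr 1
  refine card_nbij' (fun m => n - m) (fun p => n - p) ?_ ?_ ?_ ?_
  · intro m hm
    simp only [coe_filter, mem_Ioc, Set.mem_ofPred_eq, mem_Ico] at hm ⊢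
    have := hm.2.two_le
    exact ⟨by omega, hm.2⟩
  · intro p hp
    simp only [coe_filter, mem_Ioc, Set.mem_ofPred_eq, mem_Ico] at hp ⊢
    have h1 : n - (n - p) = p := by omega
    rw [h1]
    exact ⟨by omega, hp.2⟩
  · intro m hm
    simp only [coe_filter, mem_Ioc, Set.mem_ofPred_eq] at hm
    have := hm.2.two_le
    simp only
    omega
  · intro p hp
    simp only [coe_filter, mem_Ico, Set.mem_ofPred_eq] at hp
    simp only
    omega

theorem almostAllPrimes_of_inMean (h : InMean) : AlmostAllPrimes := by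
  intro ε δ hε hδ
  set d : ℝ := min (δ / 2) 1 with hd
  have hd0 : 0 < d := lt_min (by linarith) one_pos
  have hd1 : d ≤ 1 := min_le_right _ _
  have hd2 : d ≤ δ / 2 := min_le_left _ _
  set η : ℝ := ε * δ ^ 2 / 8 with hη
  have hη0 : 0 < η := by positivity
  filter_upwards [primes_of_mean ε hε d hd0 hd1 η hη0, h.eventually (eventually_le_nhds hη0),
    eventually_ge_atTop 1, ev_pow ε (1 / d) hε] with x h1 h2 h3 h4
  intro H hH1 hH2
  have hx : (0 : ℝ) < x := by exact_mod_cast h3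
  have hHM : H ≤ ⌊d * (x : ℝ)⌋₊ := by
    refine Nat.le_floor (hH2.trans ?_)
    have h5 : (x : ℝ) ^ ε * (x : ℝ) ^ (1 - ε) = x := by
      rw [← Real.rpow_add hx]
      norm_num
    rw [div_le_iff₀ hd0] at h4
    have h6 : (0 : ℝ) < (x : ℝ) ^ (1 - ε) := by positivity
    have h7 : (x : ℝ) ^ (1 - ε) * 1 ≤ (x : ℝ) ^ (1 - ε) * ((x : ℝ) ^ ε * d) :=
      mul_le_mul_of_nonneg_left h4 h6.le
    calc (x : ℝ) ^ (1 - ε) = (x : ℝ) ^ (1 - ε) * 1 := by ring
      _ ≤ (x : ℝ) ^ (1 - ε) * ((x : ℝ) ^ ε * d) := h7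
      _ = d * ((x : ℝ) ^ ε * (x : ℝ) ^ (1 - ε)) := by ring
      _ = d * x := by rw [h5]
  have h5 := h1 H hH1 hHM
  have hH0 : (0 : ℝ) < H := lt_of_lt_of_le (by positivity) hH1
  set M : ℕ := ⌊d * (x : ℝ)⌋₊ with hM
  have hMle : (M : ℝ) ≤ d * x := Nat.floor_le (by positivity)
  have hMx : M ≤ x := by
    have : (M : ℝ) ≤ x := by nlinarith
    exact_mod_cast this
  rw [div_le_iff₀ hx] at h2
  -- split
  have h6 : (Ioc 0 x).filter (fun n =>
      δ * H < |(((Ico (n - H) n).filter Nat.Prime).card : ℝ) * Real.log x - H|) ⊆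
      Ioc 0 M ∪ (Ioc M x).filter (fun n => δ < |P n H * Real.log x / H - 1|) := by
    intro n hn
    rw [mem_filter, mem_Ioc] at hn
    rw [mem_union, mem_Ioc, mem_filter, mem_Ioc]
    rcases le_or_gt n M with h7 | h7
    · exact Or.inl ⟨hn.1.1, h7⟩
    · refine Or.inr ⟨⟨h7, hn.1.2⟩, ?_⟩
      have h8 := hn.2
      rw [← P_eq] at h8
      have e : P n H * Real.log x / H - 1 = (P n H * Real.log x - H) / H := by
        field_simp
      rw [e, abs_div, abs_of_pos hH0, lt_div_iff₀ hH0]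
      exact h8
  have h7 : (((Ioc M x).filter (fun n => δ < |P n H * Real.log x / H - 1|)).card : ℝ) * δ ≤
      ∑ n ∈ Ioc M x, |P n H * Real.log x / H - 1| := by
    rw [← nsmul_eq_mul, ← sum_const]
    refine (sum_le_sum fun n hn => ?_).trans (sum_le_sum_of_subset_of_nonneg
      (filter_subset _ _) fun n _ _ => abs_nonneg _)
    rw [mem_filter] at hn
    exact hn.2.le
  have h8 : (((Ioc 0 x).filter (fun n =>
      δ * H < |(((Ico (n - H) n).filter Nat.Prime).card : ℝ) * Real.log x - H|)).card : ℝ) ≤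
      M + (((Ioc M x).filter (fun n => δ < |P n H * Real.log x / H - 1|)).card : ℝ) := by
    have h9 := (card_le_card h6).trans (card_union_le _ _)
    rw [Nat.card_Ioc, Nat.sub_zero] at h9
    exact_mod_cast h9
  refine h8.trans ?_
  have h10 : (((Ioc M x).filter (fun n => δ < |P n H * Real.log x / H - 1|)).card : ℝ) ≤
      δ / 2 * x := by
    have h11 : (((Ioc M x).filter (fun n => δ < |P n H * Real.log x / H - 1|)).card : ℝ) * δ ≤
        (δ / 2 * x) * δ := by
      refine h7.trans (h5.trans ?_)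
      have h12 : 2 / ε * (∑ n ∈ Ioc 0 x, |N5dc7309f.f n - 1| + η * x) ≤
          2 / ε * (η * x + η * x) :=
        mul_le_mul_of_nonneg_left (by linarith) (by positivity)
      refine h12.trans (le_of_eq ?_)
      rw [hη]
      field_simp
      ring
    exact le_of_mul_le_mul_right h11 hδ
  nlinarith

theorem y_le_f (n V : ℕ) : y n V ≤ N5dc7309f.f n := by
  have h := f_eq n 0 (Nat.zero_le n)
  rw [Nat.sub_zero] at h
  rw [h]
  simp only [Nat.cast_zero, sub_zero]
  exact sum_le_sum_of_subset_of_nonneg (Ioc_subset_Ioc_left (Nat.zero_le V))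
    fun m _ _ => div_nonneg (a_nonneg n m) (Nat.cast_nonneg m)

theorem R_sum (n M V : ℕ) (hM : M ≤ n) (h : V ≤ M) :
    R n V = R n M + ∑ U ∈ Ioc V M, P n U / ((U : ℝ) * ((U : ℝ) + 1)) := by
  induction M, h using Nat.le_induction with
  | base => simp
  | succ M hV ih =>
    rw [ih (by omega), R_step n M hM, sum_Ioc_succ_top hV]
    have : ((M + 1 : ℕ) : ℝ) * (((M + 1 : ℕ) : ℝ) + 1) = ((M : ℝ) + 1) * ((M : ℝ) + 2) := by
      push_cast
      ring
    rw [this]
    ring

theorem almostAll_of_primes (h : AlmostAllPrimes) : AlmostAllGe := by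
  intro c hc
  refine tendsto_zero_of _ (fun x => div_nonneg (Nat.cast_nonneg _)
    (Nat.cast_nonneg x)) fun η hη => ?_
  obtain ⟨C, hC, hblock⟩ := block_a
  set g : ℝ := (1 - c) / 4 with hg
  have hg0 : 0 < g := by
    rw [hg]
    linarith
  set ε : ℝ := min (g / 2) (1 / 4) with hε
  have hε0 : 0 < ε := lt_min (by linarith) (by norm_num)
  have hε1 : ε ≤ g / 2 := min_le_left _ _
  have hε2 : ε ≤ 1 / 4 := min_le_right _ _
  set δ : ℝ := η * g / 8 with hδ
  have hδ0 : 0 < δ := by positivity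
  filter_upwards [h ε δ hε0 hδ0, ev_log (C / ε) (g / 2) (by linarith),
    ev_log 4 (min (g / 2) 1) (lt_min (by linarith) one_pos), ev_pow ε 2 hε0,
    ev_pow ε (2 / η) hε0, eventually_ge_atTop 2,
    ev_pow (1 - 2 * ε) 4 (by linarith)] with x h1 h2 h3 h4 h5 h6 h7
  have hx2 : (2 : ℝ) ≤ x := by exact_mod_cast h6
  have hx : (0 : ℝ) < x := by linarith
  set l : ℝ := Real.log x with hl
  have hl0 : 0 < l := Real.log_pos (by linarith)
  have h3a : 4 / l ≤ g / 2 := h3.trans (min_le_left _ _)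
  have h3b : 4 / l ≤ 1 := h3.trans (min_le_right _ _)
  set V0 : ℕ := ⌈(x : ℝ) ^ ε⌉₊ with hV0
  set M : ℕ := ⌊(x : ℝ) ^ (1 - ε)⌋₊ with hM
  have hV0x : (x : ℝ) ^ ε ≤ V0 := Nat.le_ceil _
  have hV0lt : (V0 : ℝ) < (x : ℝ) ^ ε + 1 := Nat.ceil_lt_add_one (by positivity)
  have hMle : (M : ℝ) ≤ (x : ℝ) ^ (1 - ε) := Nat.floor_le (by positivity)
  have hMlt : (x : ℝ) ^ (1 - ε) < M + 1 := Nat.lt_floor_add_one _
  have hxε0 : (0 : ℝ) < (x : ℝ) ^ ε := by positivity
  have hsplit : (x : ℝ) ^ ε * (x : ℝ) ^ (1 - 2 * ε) = (x : ℝ) ^ (1 - ε) := by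
    rw [← Real.rpow_add hx]
    congr 1
    ring
  have hsplit2 : (x : ℝ) ^ ε * (x : ℝ) ^ (1 - ε) = x := by
    rw [← Real.rpow_add hx]
    norm_num
  have hbig : 4 * (x : ℝ) ^ ε ≤ (x : ℝ) ^ (1 - ε) := by nlinarith
  have hV0M : V0 ≤ M := by
    have : (V0 : ℝ) ≤ M := by linarith
    exact_mod_cast this
  have hV02 : 2 ≤ V0 := by
    have : (2 : ℝ) ≤ V0 := by linarith
    exact_mod_cast this
  have hM0 : (0 : ℝ) < M := by
    have : 0 < M := by omega
    exact_mod_cast this
  have hV0R : (0 : ℝ) < V0 := by linarith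
  have hMx : M ≤ x := by
    have h8 : (x : ℝ) ^ (1 - ε) ≤ (x : ℝ) ^ (1 : ℝ) :=
      Real.rpow_le_rpow_of_exponent_le (by linarith) (by linarith)
    rw [Real.rpow_one] at h8
    exact_mod_cast hMle.trans h8
  have hMη : (M : ℝ) ≤ η / 2 * x := by
    refine hMle.trans ?_
    rw [div_le_iff₀ hη] at h5
    have h9 : (0 : ℝ) < (x : ℝ) ^ (1 - ε) := by positivity
    have h10 : (x : ℝ) ^ (1 - ε) * 2 ≤ (x : ℝ) ^ (1 - ε) * ((x : ℝ) ^ ε * η) :=
      mul_le_mul_of_nonneg_left h5 h9.le
    have h11 : (x : ℝ) ^ (1 - ε) * ((x : ℝ) ^ ε * η) = η * x := by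
      calc (x : ℝ) ^ (1 - ε) * ((x : ℝ) ^ ε * η) = ((x : ℝ) ^ ε * (x : ℝ) ^ (1 - ε)) * η := by ring
        _ = x * η := by rw [hsplit2]
        _ = η * x := by ring
    linarith
  -- the ideal value
  have hRs := Rs_log l hl0 M V0 (by omega) hV0M
  rw [abs_le] at hRs
  have hlogM : (1 - ε) * l - 1 ≤ Real.log M := by
    have h8 : (x : ℝ) ^ (1 - ε) ≤ 2 * M := by
      have : (1 : ℝ) ≤ M := by
        have : 1 ≤ M := by omega
        exact_mod_cast this
      linarith
    have h9 := Real.log_le_log (by positivity) h8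
    rw [Real.log_rpow hx, Real.log_mul (by norm_num) hM0.ne'] at h9
    have h10 : Real.log 2 ≤ 1 := by
      have := Real.log_le_sub_one_of_pos (show (0 : ℝ) < 2 by norm_num)
      linarith
    linarith
  have hlogV0 : Real.log V0 ≤ ε * l + 1 := by
    have h8 : (V0 : ℝ) ≤ 2 * (x : ℝ) ^ ε := by linarith
    have h9 := Real.log_le_log hV0R h8
    rw [Real.log_mul (by norm_num) hxε0.ne', Real.log_rpow hx] at h9
    have h10 : Real.log 2 ≤ 1 := by
      have := Real.log_le_sub_one_of_pos (show (0 : ℝ) < 2 by norm_num)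
      linarith
    linarith
  have hlogMx : Real.log M ≤ l := Real.log_le_log hM0 (by exact_mod_cast hMx)
  have hRs1 : 1 - 2 * ε - 4 / l ≤ Rs l M V0 := by
    have h8 : (1 - ε) - 1 / l ≤ Real.log M / l := by
      rw [le_div_iff₀ hl0]
      have : ((1 - ε) - 1 / l) * l = (1 - ε) * l - 1 := by
        field_simp
      linarith
    have h9 : Real.log V0 / l ≤ ε + 1 / l := by
      rw [div_le_iff₀ hl0]
      have : (ε + 1 / l) * l = ε * l + 1 := by
        field_simp
      linarith
    have e : 4 / l = 2 / l + 1 / l + 1 / l := by ring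
    linarith [hRs.1]
  have hRs2 : Rs l M V0 ≤ 2 := by
    have h8 : Real.log M / l ≤ 1 := by
      rw [div_le_one hl0]
      exact hlogMx
    have h9 : 0 ≤ Real.log V0 / l := div_nonneg (Real.log_natCast_nonneg V0) hl0.le
    have h10 : 2 / l ≤ 1 := by
      have : 2 / l ≤ 4 / l := div_le_div_of_nonneg_right (by norm_num) hl0.le
      linarith
    linarith [hRs.2]
  -- the deficits
  set dfc : ℕ → ℕ → ℝ := fun U n => max 0 ((U : ℝ) / l - P n U) with hdfc
  have hdfc0 : ∀ U n, 0 ≤ dfc U n := fun U n => le_max_left _ _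
  have hsumd : ∀ U ∈ Ioc V0 M, ∑ n ∈ Ioc 0 x, dfc U n ≤ 2 * δ * x * (U / l) := by
    intro U hU
    rw [mem_Ioc] at hU
    have hU0 : (0 : ℝ) < U := by
      have : 0 < U := by omega
      exact_mod_cast this
    have h8 := h1 U (hV0x.trans (by exact_mod_cast hU.1.le))
      (le_trans (by exact_mod_cast hU.2) hMle)
    have h9 : ∀ n ∈ Ioc 0 x, dfc U n ≤ δ * (U / l) + (U / l) *
        (if δ * U < |(((Ico (n - U) n).filter Nat.Prime).card : ℝ) * Real.log x - U| then 1
          else 0) := by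
      intro n _
      have hUl : 0 ≤ (U : ℝ) / l := by positivity
      have hP := P_nonneg n U
      rw [← P_eq]
      split_ifs with h10
      · refine max_le (by positivity) ?_
        have : 0 ≤ δ * ((U : ℝ) / l) := by positivity
        linarith
      · push Not at h10
        refine max_le (by positivity) ?_
        rw [abs_le] at h10
        have h11 : (U : ℝ) - δ * U ≤ P n U * l := by linarith [h10.1]
        have h12 : ((U : ℝ) - δ * U) / l ≤ P n U := by
          rw [div_le_iff₀ hl0]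
          exact h11
        have e : ((U : ℝ) - δ * U) / l = U / l - δ * (U / l) := by ring
        linarith
    refine (sum_le_sum h9).trans ?_
    rw [sum_add_distrib]
    have e1 : ∑ n ∈ Ioc 0 x, δ * ((U : ℝ) / l) = x * (δ * (U / l)) := by
      rw [sum_const, Nat.card_Ioc, nsmul_eq_mul, Nat.sub_zero]
    have e2 : ∑ n ∈ Ioc 0 x, ((U : ℝ) / l) *
        (if δ * U < |(((Ico (n - U) n).filter Nat.Prime).card : ℝ) * Real.log x - U| then (1 : ℝ)
          else 0) = (U / l) * (((Ioc 0 x).filter (fun n =>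
        δ * U < |(((Ico (n - U) n).filter Nat.Prime).card : ℝ) * Real.log x - U|)).card : ℝ) := by
      rw [← mul_sum, ← sum_filter, sum_const, nsmul_eq_mul, mul_one]
    rw [e1, e2]
    have h13 := mul_le_mul_of_nonneg_left h8 (show (0 : ℝ) ≤ U / l by positivity)
    linarith
  set D : ℕ → ℝ := fun n => ∑ U ∈ Ioc V0 M, dfc U n / ((U : ℝ) * ((U : ℝ) + 1)) with hD
  have hD0 : ∀ n, 0 ≤ D n := fun n => sum_nonneg fun U _ =>
    div_nonneg (hdfc0 U n) (by positivity)
  have hsumD : ∑ n ∈ Ioc 0 x, D n ≤ 4 * δ * x := by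
    simp only [hD]
    rw [sum_comm]
    have h8 : ∀ U ∈ Ioc V0 M, ∑ n ∈ Ioc 0 x, dfc U n / ((U : ℝ) * ((U : ℝ) + 1)) ≤
        2 * δ * x * (1 / ((U : ℝ) + 1) / l) := by
      intro U hU
      have h9 := hsumd U hU
      rw [mem_Ioc] at hU
      have hU0 : (0 : ℝ) < U := by
        have : 0 < U := by omega
        exact_mod_cast this
      rw [← sum_div, div_le_iff₀ (by positivity)]
      refine h9.trans (le_of_eq ?_)
      field_simp
    refine (sum_le_sum h8).trans ?_
    rw [← mul_sum]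
    have e : ∑ U ∈ Ioc V0 M, 1 / ((U : ℝ) + 1) / l = Rs l M V0 := by
      unfold Rs
      rw [sum_div]
    rw [e]
    have : 0 ≤ 2 * δ * x := by positivity
    nlinarith
  -- the good `n`
  have hgood : ∀ n, M < n → n ≤ x → D n ≤ g → c ≤ N5dc7309f.f n := by
    intro n hn1 hn2 hn3
    have h8 := R_sum n M V0 hn1.le hV0M
    have h9 : 0 ≤ R n M :=
      add_nonneg (y_nonneg n M) (div_nonneg (P_nonneg n M) (by positivity))
    have h10 : Rs l M V0 - D n ≤ ∑ U ∈ Ioc V0 M, P n U / ((U : ℝ) * ((U : ℝ) + 1)) := by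
      have e : Rs l M V0 - D n = ∑ U ∈ Ioc V0 M,
          ((1 / ((U : ℝ) + 1)) / l - dfc U n / ((U : ℝ) * ((U : ℝ) + 1))) := by
        rw [sum_sub_distrib]
        unfold Rs
        rw [sum_div]
      rw [e]
      refine sum_le_sum fun U hU => ?_
      rw [mem_Ioc] at hU
      have hU0 : (0 : ℝ) < U := by
        have : 0 < U := by omega
        exact_mod_cast this
      have h11 : (U : ℝ) / l - P n U ≤ dfc U n := le_max_right _ _
      have e2 : (1 / ((U : ℝ) + 1)) / l = (U / l) / ((U : ℝ) * ((U : ℝ) + 1)) := by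
        field_simp
      rw [e2, ← sub_div]
      exact div_le_div_of_nonneg_right (by linarith) (by positivity)
    have h12 : P n V0 / ((V0 : ℝ) + 1) ≤ g / 2 := by
      have h30 := hblock n 0 V0 hV02
      rw [zero_add] at h30
      have hlV : ε * l ≤ Real.log V0 := by
        rw [hl, ← Real.log_rpow hx]
        exact Real.log_le_log hxε0 hV0x
      have hlV0 : 0 < Real.log V0 := lt_of_lt_of_le (by positivity) hlV
      rw [div_le_iff₀ (by linarith)]
      have h31 : C / Real.log V0 ≤ g / 2 := by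
        refine le_trans (div_le_div_of_nonneg_left hC.le (by positivity) hlV) ?_
        have e : C / (ε * l) = C / ε / l := by field_simp
        rw [e]
        exact h2
      calc P n V0 ≤ C / Real.log V0 * V0 := h30
        _ ≤ g / 2 * V0 := mul_le_mul_of_nonneg_right h31 hV0R.le
        _ ≤ g / 2 * ((V0 : ℝ) + 1) := by nlinarith
    have h13 : R n V0 = y n V0 + P n V0 / ((V0 : ℝ) + 1) := rfl
    have h14 := y_le_f n V0
    have e : c = 1 - 4 * g := by
      rw [hg]
      ring
    rw [e]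
    linarith
  -- counting
  rw [div_le_iff₀ hx]
  have h15 : (Ioc 0 x).filter (fun n => N5dc7309f.f n < c) ⊆
      Ioc 0 M ∪ (Ioc 0 x).filter (fun n => g < D n) := by
    intro n hn
    rw [mem_filter, mem_Ioc] at hn
    rw [mem_union, mem_Ioc, mem_filter, mem_Ioc]
    rcases le_or_gt n M with h16 | h16
    · exact Or.inl ⟨hn.1.1, h16⟩
    · refine Or.inr ⟨hn.1, ?_⟩
      by_contra h17
      push Not at h17
      exact absurd (hgood n h16 hn.1.2 h17) (not_le.2 hn.2)
  have h16 : (((Ioc 0 x).filter (fun n => g < D n)).card : ℝ) * g ≤ ∑ n ∈ Ioc 0 x, D n := by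
    rw [← nsmul_eq_mul, ← sum_const]
    refine (sum_le_sum fun n hn => ?_).trans (sum_le_sum_of_subset_of_nonneg
      (filter_subset _ _) fun n _ _ => hD0 n)
    rw [mem_filter] at hn
    exact hn.2.le
  have h17 : (((Ioc 0 x).filter (fun n => g < D n)).card : ℝ) ≤ η / 2 * x := by
    have h18 : (((Ioc 0 x).filter (fun n => g < D n)).card : ℝ) * g ≤ (η / 2 * x) * g := by
      refine h16.trans (hsumD.trans (le_of_eq ?_))
      rw [hδ]
      ring
    exact le_of_mul_le_mul_right h18 hg0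
  have h19 : (((Ioc 0 x).filter (fun n => N5dc7309f.f n < c)).card : ℝ) ≤
      M + (((Ioc 0 x).filter (fun n => g < D n)).card : ℝ) := by
    have h20 := (card_le_card h15).trans (card_union_le _ _)
    rw [Nat.card_Ioc, Nat.sub_zero] at h20
    exact_mod_cast h20
  linarith

end H63.WP
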