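import Mathlib
import Pool.Agent.H24.LJ.Pairs
import Pool.Prelude.Def_F_e101448e

/-!
# Windows and the reciprocal sum over primes: the finite inequalities

For a fixed `N` put `a m = 1` if `N - m` is prime and `0` otherwise, `P V` the number of primes in
`[N - V, N)` and `y V` the sum of `1 / m` over the primes `N - m` with `V < m`.
-/

set_option autoImplicit false

namespace H63.WP

open Finset

/-- indicator of `N - m` prime -/
noncomputable def a (N m : ℕ) : ℝ := if (N - m).Prime then 1 else 0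

/-- number of primes `N - m` with `0 < m ≤ V` -/
noncomputable def P (N V : ℕ) : ℝ := ∑ m ∈ Ioc 0 V, a N m

/-- the sum of `1 / m` over the primes `N - m`, `V < m` -/
noncomputable def y (N V : ℕ) : ℝ := ∑ m ∈ Ioc V N, a N m / m

theorem a_nonneg (N m : ℕ) : 0 ≤ a N m := by
  unfold a
  split_ifs <;> norm_num

theorem P_nonneg (N V : ℕ) : 0 ≤ P N V := sum_nonneg fun m _ => a_nonneg N m

theorem y_nonneg (N V : ℕ) : 0 ≤ y N V :=
  sum_nonneg fun m _ => div_nonneg (a_nonneg N m) (Nat.cast_nonneg m)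

theorem y_anti (N : ℕ) {V V' : ℕ} (h : V ≤ V') : y N V' ≤ y N V :=
  sum_le_sum_of_subset_of_nonneg (Ioc_subset_Ioc_left h)
    fun m _ _ => div_nonneg (a_nonneg N m) (Nat.cast_nonneg m)

theorem y_succ (N V : ℕ) (h : V + 1 ≤ N) :
    y N V = y N (V + 1) + a N (V + 1) / ((V : ℝ) + 1) := by
  unfold y
  rw [← sum_Ioc_consecutive _ (Nat.le_succ V) h]
  simp only [Nat.Ioc_succ_singleton, sum_singleton]
  push_cast
  ring

theorem P_succ (N V : ℕ) : P N (V + 1) = P N V + a N (V + 1) := by
  unfold P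
  rw [sum_Ioc_succ_top (Nat.zero_le V)]

theorem f_eq (N i : ℕ) (hi : i ≤ N) :
    N5dc7309f.f (N - i) = ∑ m ∈ Ioc i N, a N m / ((m : ℝ) - i) := by
  unfold N5dc7309f.f a
  rw [sum_filter]
  refine sum_nbij' (fun p => N - p) (fun m => N - m) ?_ ?_ ?_ ?_ ?_
  · intro p hp
    rw [mem_range] at hp
    rw [mem_Ioc]
    omega
  · intro m hm
    rw [mem_Ioc] at hm
    rw [mem_range]
    omega
  · intro p hp
    rw [mem_range] at hp
    omega
  · intro m hm
    rw [mem_Ioc] at hm
    omega
  · intro p hp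
    rw [mem_range] at hp
    have h1 : N - (N - p) = p := by omega
    have h2 : ((N - p : ℕ) : ℝ) = (N : ℝ) - p := by
      rw [Nat.cast_sub (by omega)]
    have h3 : ((N - i : ℕ) : ℝ) = (N : ℝ) - i := by
      rw [Nat.cast_sub hi]
    simp only [h1, h2, h3, ← Nat.prime_iff]
    by_cases hpp : p.Prime
    · rw [if_pos hpp, if_pos hpp]
      congr 1
      ring
    · rw [if_neg hpp, if_neg hpp, zero_div]

/-- the sum `1 + 1/2 + ... + 1/m`. -/
theorem har_le (m : ℕ) (hm : 1 ≤ m) : ∑ i ∈ range m, 1 / ((m : ℝ) - i) ≤ 1 + Real.log m := by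
  have h := harmonic_le_one_add_log m
  refine le_trans (le_of_eq ?_) h
  rw [harmonic, ← sum_range_reflect]
  push_cast
  refine sum_congr rfl fun i hi => ?_
  rw [mem_range] at hi
  rw [one_div]
  congr 1
  have : ((m - 1 - i : ℕ) : ℝ) = (m : ℝ) - 1 - i := by
    rw [Nat.cast_sub (by omega), Nat.cast_sub hm]
    norm_num
  rw [this]
  ring

/-- sums against a decreasing kernel of a function which is small on blocks. -/
theorem block_le (b k : ℕ → ℝ) (δ : ℝ) (X V : ℕ) (hδ : 0 ≤ δ)
    (hb : ∀ m, 0 ≤ b m) (hblock : ∀ M, ∑ m ∈ Ioc M (M + X), b m ≤ δ * X)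
    (hk0 : ∀ m, V < m → 0 ≤ k m) (hk : ∀ m m', V < m → m ≤ m' → k m' ≤ k m) (n : ℕ) :
    ∑ m ∈ Ioc V (V + (n + 1) * X), b m * k m ≤
      δ * (X * k (V + 1)) + δ * ∑ m ∈ Ioc V (V + n * X), k m := by
  induction n with
  | zero =>
    simp only [zero_add, one_mul, zero_mul, add_zero, Ioc_self, sum_empty, mul_zero]
    calc ∑ m ∈ Ioc V (V + X), b m * k m ≤ ∑ m ∈ Ioc V (V + X), b m * k (V + 1) := by
          refine sum_le_sum fun m hm => ?_
          rw [mem_Ioc] at hm
          exact mul_le_mul_of_nonneg_left (hk _ _ (by omega) (by omega)) (hb m)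
      _ = (∑ m ∈ Ioc V (V + X), b m) * k (V + 1) := by rw [sum_mul]
      _ ≤ δ * X * k (V + 1) := mul_le_mul_of_nonneg_right (hblock V) (hk0 _ (by omega))
      _ = δ * (X * k (V + 1)) := by ring
  | succ n ih =>
    rcases Nat.eq_zero_or_pos X with hX | hX
    · subst hX
      simp only [mul_zero, add_zero, Ioc_self, sum_empty, Nat.cast_zero, zero_mul]
      exact le_rfl
    have e1 : V + (n + 1 + 1) * X = V + (n + 1) * X + X := by ring
    have e2 : V + (n + 1) * X = V + n * X + X := by ring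
    rw [← sum_Ioc_consecutive _ (show V ≤ V + (n + 1) * X by omega)
      (show V + (n + 1) * X ≤ V + (n + 1 + 1) * X by omega),
      ← sum_Ioc_consecutive k (show V ≤ V + n * X by omega)
      (show V + n * X ≤ V + (n + 1) * X by omega)]
    have hVn : V < V + (n + 1) * X := by
      have : 0 < (n + 1) * X := Nat.mul_pos (Nat.succ_pos n) hX
      omega
    have h1 : ∑ m ∈ Ioc (V + (n + 1) * X) (V + (n + 1 + 1) * X), b m * k m ≤
        δ * ∑ m ∈ Ioc (V + n * X) (V + (n + 1) * X), k m := by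
      calc ∑ m ∈ Ioc (V + (n + 1) * X) (V + (n + 1 + 1) * X), b m * k m
          ≤ ∑ m ∈ Ioc (V + (n + 1) * X) (V + (n + 1 + 1) * X), b m * k (V + (n + 1) * X) := by
            refine sum_le_sum fun m hm => ?_
            rw [mem_Ioc] at hm
            exact mul_le_mul_of_nonneg_left (hk _ _ hVn (by omega)) (hb m)
        _ = (∑ m ∈ Ioc (V + (n + 1) * X) (V + (n + 1 + 1) * X), b m) * k (V + (n + 1) * X) := by
            rw [sum_mul]
        _ ≤ δ * X * k (V + (n + 1) * X) := by
            rw [e1]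
            exact mul_le_mul_of_nonneg_right (hblock _) (hk0 _ hVn)
        _ = δ * ∑ m ∈ Ioc (V + n * X) (V + (n + 1) * X), k (V + (n + 1) * X) := by
            rw [sum_const, Nat.card_Ioc, nsmul_eq_mul]
            have : V + (n + 1) * X - (V + n * X) = X := by rw [e2]; omega
            rw [this]
            ring
        _ ≤ δ * ∑ m ∈ Ioc (V + n * X) (V + (n + 1) * X), k m := by
            refine mul_le_mul_of_nonneg_left (sum_le_sum fun m hm => ?_) hδ
            rw [mem_Ioc] at hm
            exact hk _ _ (by omega) (by omega)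
    rw [mul_add δ (∑ m ∈ Ioc V (V + n * X), k m)]
    linarith

/-- the kernel of the primes outside of the window -/
noncomputable def ker (V m : ℕ) : ℝ := ∑ i ∈ range V, (1 / ((m : ℝ) - i) - 1 / m)

theorem ker_nonneg (V m : ℕ) (h : V < m) : 0 ≤ ker V m := by
  refine sum_nonneg fun i hi => ?_
  rw [mem_range] at hi
  have h1 : (i : ℝ) < m := by exact_mod_cast hi.trans h
  have h2 : (0 : ℝ) < (m : ℝ) - i := by linarith
  rw [sub_nonneg]
  exact one_div_le_one_div_of_le h2 (by linarith [Nat.cast_nonneg (α := ℝ) i])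

theorem ker_anti (V m m' : ℕ) (h : V < m) (h' : m ≤ m') : ker V m' ≤ ker V m := by
  refine sum_le_sum fun i hi => ?_
  rw [mem_range] at hi
  have h1 : (i : ℝ) < m := by exact_mod_cast hi.trans h
  have h2 : (m : ℝ) ≤ m' := by exact_mod_cast h'
  have h3 : (0 : ℝ) ≤ i := Nat.cast_nonneg i
  have e : ∀ x : ℝ, (i : ℝ) < x → 1 / (x - i) - 1 / x = i * (1 / ((x - i) * x)) := by
    intro x hx
    have h4 : x - i ≠ 0 := by linarith
    have h5 : x ≠ 0 := by linarith
    field_simp
    ring
  rw [e _ h1, e _ (by linarith)]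
  refine mul_le_mul_of_nonneg_left ?_ h3
  refine one_div_le_one_div_of_le (mul_pos (by linarith) (by linarith)) ?_
  exact mul_le_mul (by linarith) h2 (by linarith) (by linarith)

theorem ker_first (V : ℕ) (hV : 1 ≤ V) : ker V (V + 1) ≤ 1 + Real.log V := by
  refine le_trans (sum_le_sum fun i hi => ?_) (har_le V hV)
  rw [mem_range] at hi
  have h1 : (i : ℝ) < V := by exact_mod_cast hi
  have h2 : (0 : ℝ) ≤ 1 / ((V + 1 : ℕ) : ℝ) := by positivity
  have h3 : 1 / (((V + 1 : ℕ) : ℝ) - i) ≤ 1 / ((V : ℝ) - i) := by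
    refine one_div_le_one_div_of_le (by linarith) ?_
    push_cast
    linarith
  linarith

/-- the total mass of the kernel -/
theorem ker_sum (V M : ℕ) : ∑ m ∈ Ioc V M, ker V m ≤ V := by
  unfold ker
  rw [sum_comm]
  have h1 : ∀ i ∈ range V, ∑ m ∈ Ioc V M, (1 / ((m : ℝ) - i) - 1 / m) ≤
      ∑ j ∈ Ioc (V - i) V, 1 / (j : ℝ) := by
    intro i hi
    rw [mem_range] at hi
    rw [sum_sub_distrib, sub_le_iff_le_add]
    have h2 : ∑ m ∈ Ioc V M, 1 / ((m : ℝ) - i) = ∑ j ∈ Ioc (V - i) (M - i), 1 / (j : ℝ) := by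
      refine sum_nbij' (fun m => m - i) (fun j => j + i) ?_ ?_ ?_ ?_ ?_
      · intro m hm
        rw [mem_Ioc] at hm ⊢
        omega
      · intro j hj
        rw [mem_Ioc] at hj ⊢
        omega
      · intro m hm
        rw [mem_Ioc] at hm
        omega
      · intro j hj
        omega
      · intro m hm
        rw [mem_Ioc] at hm
        have : ((m - i : ℕ) : ℝ) = (m : ℝ) - i := by rw [Nat.cast_sub (by omega)]
        rw [this]
    rw [h2]
    rcases le_total V M with hVM | hVM
    · rw [sum_Ioc_consecutive _ (Nat.sub_le V i) hVM]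
      refine sum_le_sum_of_subset_of_nonneg ?_ fun j _ _ => by positivity
      intro j hj
      rw [mem_Ioc] at hj ⊢
      omega
    · rw [Ioc_eq_empty_of_le (show M - i ≤ V - i by omega), sum_empty]
      positivity
  refine (sum_le_sum h1).trans ?_
  have h3 : ∀ i ∈ range V, ∑ j ∈ Ioc (V - i) V, 1 / (j : ℝ) =
      ∑ j ∈ Ioc 0 V, if V - i < j then 1 / (j : ℝ) else 0 := by
    intro i _
    rw [← sum_filter]
    congr 1
    ext j
    simp only [mem_filter, mem_Ioc]
    omega
  rw [sum_congr rfl h3, sum_comm]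
  have h4 : ∀ j ∈ Ioc 0 V, (∑ i ∈ range V, if V - i < j then 1 / (j : ℝ) else 0) ≤ 1 := by
    intro j hj
    rw [mem_Ioc] at hj
    have hj0 : (0 : ℝ) < j := by exact_mod_cast hj.1
    rw [← sum_filter, sum_const, nsmul_eq_mul, mul_one_div, div_le_one hj0]
    have h5 : ((range V).filter fun i => V - i < j) ⊆ Ico (V - j) V := by
      intro i hi
      simp only [mem_filter, mem_range] at hi
      rw [mem_Ico]
      omega
    have h6 := card_le_card h5
    rw [Nat.card_Ico] at h6
    exact_mod_cast h6.trans (by omega)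
  refine (sum_le_sum h4).trans ?_
  rw [sum_const, Nat.card_Ioc, nsmul_eq_mul, mul_one]
  simp

/-- THE WINDOW INEQUALITY. -/
theorem window_le (N V X : ℕ) (hV1 : 1 ≤ V) (hV : V ≤ N) (hX : 1 ≤ X) (δ : ℝ) (hδ : 0 ≤ δ)
    (hblock : ∀ M, ∑ m ∈ Ioc M (M + X), a N m ≤ δ * X) :
    ∑ i ∈ range V, N5dc7309f.f (N - i) ≤ V * y N V + (1 + Real.log V) * P N V +
      δ * (X * (1 + Real.log V) + V) := by
  have hlog : 0 ≤ Real.log V := Real.log_natCast_nonneg V
  have h1 : ∑ i ∈ range V, N5dc7309f.f (N - i) =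
      ∑ i ∈ range V, ∑ m ∈ Ioc i V, a N m / ((m : ℝ) - i) +
        ∑ m ∈ Ioc V N, ∑ i ∈ range V, a N m / ((m : ℝ) - i) := by
    rw [sum_comm (s := Ioc V N), ← sum_add_distrib]
    refine sum_congr rfl fun i hi => ?_
    rw [mem_range] at hi
    rw [f_eq N i (by omega), sum_Ioc_consecutive _ hi.le hV]
  rw [h1]
  have h2 : ∑ i ∈ range V, ∑ m ∈ Ioc i V, a N m / ((m : ℝ) - i) ≤ (1 + Real.log V) * P N V := by
    have h3 : ∀ i ∈ range V, ∑ m ∈ Ioc i V, a N m / ((m : ℝ) - i) =
        ∑ m ∈ Ioc 0 V, if i < m then a N m / ((m : ℝ) - i) else 0 := by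
      intro i _
      rw [← sum_filter]
      congr 1
      ext m
      simp only [mem_filter, mem_Ioc]
      omega
    rw [sum_congr rfl h3, sum_comm]
    unfold P
    rw [mul_sum]
    refine sum_le_sum fun m hm => ?_
    rw [mem_Ioc] at hm
    rw [← sum_filter]
    have h4 : (range V).filter (fun i => i < m) = range m := by
      ext i
      simp only [mem_filter, mem_range]
      omega
    rw [h4]
    have h5 : ∑ i ∈ range m, a N m / ((m : ℝ) - i) = a N m * ∑ i ∈ range m, 1 / ((m : ℝ) - i) := by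
      rw [mul_sum]
      refine sum_congr rfl fun i _ => ?_
      rw [mul_one_div]
    rw [h5, mul_comm]
    refine mul_le_mul_of_nonneg_right ?_ (a_nonneg N m)
    refine (har_le m hm.1).trans ?_
    have : Real.log m ≤ Real.log V :=
      Real.log_le_log (by exact_mod_cast hm.1) (by exact_mod_cast hm.2)
    linarith
  have h6 : ∑ m ∈ Ioc V N, ∑ i ∈ range V, a N m / ((m : ℝ) - i) =
      V * y N V + ∑ m ∈ Ioc V N, a N m * ker V m := by
    unfold y ker
    rw [mul_sum, ← sum_add_distrib]
    refine sum_congr rfl fun m _ => ?_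
    rw [sum_sub_distrib, sum_const, card_range, nsmul_eq_mul, mul_sub, mul_sum]
    have : ∀ i ∈ range V, a N m / ((m : ℝ) - i) = a N m * (1 / ((m : ℝ) - i)) := by
      intro i _
      rw [mul_one_div]
    rw [sum_congr rfl this]
    ring
  have h7 : ∑ m ∈ Ioc V N, a N m * ker V m ≤ δ * (X * (1 + Real.log V) + V) := by
    have h8 := block_le (a N) (ker V) δ X V hδ (a_nonneg N) hblock
      (fun m hm => ker_nonneg V m hm) (fun m m' hm hm' => ker_anti V m m' hm hm') N
    have h9 : ∑ m ∈ Ioc V N, a N m * ker V m ≤ ∑ m ∈ Ioc V (V + (N + 1) * X), a N m * ker V m := by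
      refine sum_le_sum_of_subset_of_nonneg (Ioc_subset_Ioc_right ?_) fun m hm _ => ?_
      · have : N + 1 ≤ (N + 1) * X := Nat.le_mul_of_pos_right _ hX
        omega
      · rw [mem_Ioc] at hm
        exact mul_nonneg (a_nonneg N m) (ker_nonneg V m hm.1)
    have h10 := mul_le_mul_of_nonneg_left (ker_sum V (V + N * X)) hδ
    have h11 : δ * (X * ker V (V + 1)) ≤ δ * (X * (1 + Real.log V)) :=
      mul_le_mul_of_nonneg_left
        (mul_le_mul_of_nonneg_left (ker_first V hV1) (Nat.cast_nonneg X)) hδ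
    rw [mul_add]
    linarith
  rw [h6]
  linarith

/-- the corrected tail -/
noncomputable def R (N V : ℕ) : ℝ := y N V + P N V / ((V : ℝ) + 1)

theorem R_step (N V : ℕ) (h : V + 1 ≤ N) :
    R N V = R N (V + 1) + P N (V + 1) / (((V : ℝ) + 1) * ((V : ℝ) + 2)) := by
  unfold R
  rw [y_succ N V h, P_succ]
  have h1 : (0 : ℝ) < (V : ℝ) + 1 := by positivity
  have h2 : (0 : ℝ) < (V : ℝ) + 2 := by positivity
  push_cast
  have h3 : (V : ℝ) + 1 + 1 = (V : ℝ) + 2 := by ring
  rw [h3]
  field_simp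
  ring

/-- the discrete form of `(y / t)' ≤ - c / t ^ 2`. -/
theorem tail_ge (N W0 N1 : ℕ) (c : ℝ) (hc : 0 ≤ c) (h01 : W0 ≤ N1) (hN : N1 ≤ N)
    (h : ∀ V, W0 < V → V ≤ N1 → c * V ≤ V * y N V + (1 + Real.log V) * P N V) :
    c * (1 - (1 + Real.log ((W0 : ℝ) + 2)) / (1 + Real.log ((N1 : ℝ) + 2))) ≤ R N W0 := by
  set L : ℕ → ℝ := fun V => 1 + Real.log ((V : ℝ) + 2) with hL
  have hL1 : ∀ V, 1 ≤ L V := by
    intro V
    have : 0 ≤ Real.log ((V : ℝ) + 2) := Real.log_nonneg (by linarith [Nat.cast_nonneg (α := ℝ) V])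
    simp only [hL]
    linarith
  have hLs : ∀ V, L (V + 1) - L V ≤ 1 / ((V : ℝ) + 2) := by
    intro V
    have h2 : (0 : ℝ) < (V : ℝ) + 2 := by positivity
    simp only [hL]
    push_cast
    have h3 : Real.log ((V : ℝ) + 1 + 2) - Real.log ((V : ℝ) + 2) =
        Real.log (((V : ℝ) + 1 + 2) / ((V : ℝ) + 2)) := by
      rw [Real.log_div (by positivity) (by positivity)]
    have h4 : Real.log (((V : ℝ) + 1 + 2) / ((V : ℝ) + 2)) ≤
        ((V : ℝ) + 1 + 2) / ((V : ℝ) + 2) - 1 := Real.log_le_sub_one_of_pos (by positivity)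
    have h5 : ((V : ℝ) + 1 + 2) / ((V : ℝ) + 2) - 1 = 1 / ((V : ℝ) + 2) := by
      field_simp
      ring
    linarith
  have key : ∀ j, ∀ V, V + j = N1 → W0 ≤ V → c - R N V ≤ c * (L V / L N1) := by
    intro j
    induction j with
    | zero =>
      intro V hV _
      have : V = N1 := by omega
      subst this
      rw [div_self (by linarith [hL1 V])]
      have : 0 ≤ R N V := add_nonneg (y_nonneg N V) (div_nonneg (P_nonneg N V) (by positivity))
      linarith
    | succ j ih =>
      intro V hV hW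
      have h1 := ih (V + 1) (by omega) (by omega)
      have h2 := R_step N V (by omega)
      have h3 := h (V + 1) (by omega) (by omega)
      have hV1 : (0 : ℝ) < (V : ℝ) + 1 := by positivity
      have hV2 : (0 : ℝ) < (V : ℝ) + 2 := by positivity
      have hlog1 : (0 : ℝ) < 1 + Real.log ((V + 1 : ℕ) : ℝ) := by
        have := Real.log_natCast_nonneg (V + 1)
        linarith
      have hyR : y N (V + 1) ≤ R N (V + 1) := by
        unfold R
        have : 0 ≤ P N (V + 1) / (((V + 1 : ℕ) : ℝ) + 1) :=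
          div_nonneg (P_nonneg N _) (by positivity)
        linarith
      set E : ℝ := c - R N (V + 1) with hE
      -- lower bound of `P`
      have h4 : ((V : ℝ) + 1) * E / (1 + Real.log ((V + 1 : ℕ) : ℝ)) ≤ P N (V + 1) := by
        rw [div_le_iff₀ hlog1]
        have h5 : c * ((V : ℝ) + 1) ≤ ((V : ℝ) + 1) * y N (V + 1) +
            (1 + Real.log ((V + 1 : ℕ) : ℝ)) * P N (V + 1) := by
          have := h3
          push_cast at this ⊢
          exact this
        have h6 : ((V : ℝ) + 1) * y N (V + 1) ≤ ((V : ℝ) + 1) * R N (V + 1) :=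
          mul_le_mul_of_nonneg_left hyR hV1.le
        rw [hE]
        nlinarith
      have h7 : c - R N V ≤ E - E / (((V : ℝ) + 2) * (1 + Real.log ((V + 1 : ℕ) : ℝ))) := by
        rw [h2]
        have h8 : E / (((V : ℝ) + 2) * (1 + Real.log ((V + 1 : ℕ) : ℝ))) ≤
            P N (V + 1) / (((V : ℝ) + 1) * ((V : ℝ) + 2)) := by
          have h9 : E / (((V : ℝ) + 2) * (1 + Real.log ((V + 1 : ℕ) : ℝ))) =
              (((V : ℝ) + 1) * E / (1 + Real.log ((V + 1 : ℕ) : ℝ))) /
                (((V : ℝ) + 1) * ((V : ℝ) + 2)) := by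
            field_simp
          rw [h9]
          exact div_le_div_of_nonneg_right h4 (by positivity)
        linarith
      rcases le_or_gt E 0 with hE0 | hE0
      · -- nothing to lose
        have h10 : E - E / (((V : ℝ) + 2) * (1 + Real.log ((V + 1 : ℕ) : ℝ))) ≤ 0 := by
          have h11 : (1 : ℝ) ≤ ((V : ℝ) + 2) * (1 + Real.log ((V + 1 : ℕ) : ℝ)) := by
            have := Real.log_natCast_nonneg (V + 1)
            nlinarith [Nat.cast_nonneg (α := ℝ) V]
          have h12 : E ≤ E / (((V : ℝ) + 2) * (1 + Real.log ((V + 1 : ℕ) : ℝ))) := by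
            rw [le_div_iff₀ (by linarith)]
            nlinarith
          linarith
        have h13 : 0 ≤ c * (L V / L N1) :=
          mul_nonneg hc (div_nonneg (by linarith [hL1 V]) (by linarith [hL1 N1]))
        linarith
      · have hLV := hL1 V
        have hLV1 := hL1 (V + 1)
        have hLN := hL1 N1
        have hlogle : 1 + Real.log ((V + 1 : ℕ) : ℝ) ≤ L (V + 1) := by
          simp only [hL]
          have : Real.log ((V + 1 : ℕ) : ℝ) ≤ Real.log (((V + 1 : ℕ) : ℝ) + 2) := by
            refine Real.log_le_log (by positivity) (by linarith)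
          linarith
        have h14 : E / (((V : ℝ) + 2) * L (V + 1)) ≤
            E / (((V : ℝ) + 2) * (1 + Real.log ((V + 1 : ℕ) : ℝ))) := by
          refine div_le_div_of_nonneg_left hE0.le (by positivity) ?_
          exact mul_le_mul_of_nonneg_left hlogle hV2.le
        have h15 : E - E / (((V : ℝ) + 2) * L (V + 1)) ≤ E * (L V / L (V + 1)) := by
          have h16 := hLs V
          have h17 : E - E / (((V : ℝ) + 2) * L (V + 1)) =
              E * ((L (V + 1) - 1 / ((V : ℝ) + 2)) / L (V + 1)) := by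
            have : L (V + 1) ≠ 0 := by linarith
            field_simp
          rw [h17]
          refine mul_le_mul_of_nonneg_left ?_ hE0.le
          exact div_le_div_of_nonneg_right (by linarith) (by linarith)
        have h18 : E * (L V / L (V + 1)) ≤ c * (L (V + 1) / L N1) * (L V / L (V + 1)) :=
          mul_le_mul_of_nonneg_right h1 (div_nonneg (by linarith) (by linarith))
        have h19 : c * (L (V + 1) / L N1) * (L V / L (V + 1)) = c * (L V / L N1) := by
          have : L (V + 1) ≠ 0 := by linarith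
          field_simp
        linarith
  have h1 := key (N1 - W0) W0 (by omega) le_rfl
  rw [mul_sub, mul_one]
  simp only [hL] at h1
  linarith

/-- the tiling lemma. -/
theorem tile (g : ℕ → ℝ) (hg : ∀ n, 0 ≤ g n) (W : ℕ → ℕ) (c : ℝ) (hc : 0 ≤ c) (D M N : ℕ)
    (h : ∀ n, M < n → n ≤ N → 1 ≤ W n ∧ W n ≤ D ∧ W n ≤ n ∧ c * W n ≤ ∑ k ∈ Ioc (n - W n) n, g k) :
    ∀ n, M ≤ n → n ≤ N → c * ((n : ℝ) - M - D) ≤ ∑ k ∈ Ioc M n, g k := by
  intro n
  induction n using Nat.strong_induction_on with
  | _ n ih =>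
    intro h1 h2
    have hpos : 0 ≤ ∑ k ∈ Ioc M n, g k := sum_nonneg fun k _ => hg k
    rcases le_or_gt n (M + D) with h3 | h3
    · have h4 : (n : ℝ) ≤ M + D := by exact_mod_cast h3
      have h5 : c * ((n : ℝ) - M - D) ≤ 0 := mul_nonpos_of_nonneg_of_nonpos hc (by linarith)
      linarith
    · obtain ⟨h4, h5, h6, h7⟩ := h n (by omega) h2
      have h8 := ih (n - W n) (by omega) (by omega) (by omega)
      rw [← sum_Ioc_consecutive g (show M ≤ n - W n by omega) (show n - W n ≤ n by omega)]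
      rw [Nat.cast_sub h6] at h8
      nlinarith

end H63.WP
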