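import Pool.Agent.H63.WP.Avg

/-!
# Lower limits
-/

set_option autoImplicit false

namespace H63.WP

open Finset Filter

/-- the lower limit of a real sequence, in the extended reals -/
noncomputable def low (u : ℕ → ℝ) : EReal := liminf (fun n : ℕ => ((u n : ℝ) : EReal)) atTop

/-- the mean of `f` over the window `(N - W N, N]` -/
noncomputable def mean (W : ℕ → ℕ) (N : ℕ) : ℝ :=
  (∑ n ∈ Ioc (N - W N) N, N5dc7309f.f n) / W N

theorem low_le_low {u v : ℕ → ℝ} (h : ∀ᶠ n in atTop, u n ≤ v n) : low u ≤ low v :=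
  liminf_le_liminf (h.mono fun n hn => by exact_mod_cast hn)

theorem le_low {u : ℕ → ℝ} {c : ℝ} (h : ∀ᶠ n in atTop, c ≤ u n) : (c : EReal) ≤ low u :=
  le_liminf_of_le (h := h.mono fun n hn => by exact_mod_cast hn)

theorem real_le_low {u : ℕ → ℝ} {c : ℝ} (h : ∀ c' < c, ∀ᶠ n in atTop, c' ≤ u n) :
    (c : EReal) ≤ low u := by
  by_contra hcon
  push Not at hcon
  obtain ⟨x, hx1, hx2⟩ := EReal.lt_iff_exists_real_btwn.1 hcon
  have hx : x < c := by exact_mod_cast hx2
  exact absurd (le_low (h x hx)) (not_le.2 hx1)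

theorem ev_of_lt_low {u : ℕ → ℝ} {c : ℝ} (h : (c : EReal) < low u) : ∀ᶠ n in atTop, c < u n :=
  (eventually_lt_of_lt_liminf h).mono fun n hn => by exact_mod_cast hn

theorem low_nonneg {u : ℕ → ℝ} (h : ∀ n, 0 ≤ u n) : (0 : EReal) ≤ low u := by
  have := le_low (c := 0) (Eventually.of_forall h)
  exact_mod_cast this

theorem far_low_le_f (s : ℝ) : low (far s) ≤ low N5dc7309f.f :=
  low_le_low (Eventually.of_forall (far_le s))

theorem far_low_le (s : ℝ) (hs : 0 < s) (hs1 : s < 1) : low (far s) ≤ ((1 - s : ℝ) : EReal) := by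
  by_contra hcon
  push Not at hcon
  obtain ⟨c, hc1, hc2⟩ := EReal.lt_iff_exists_real_btwn.1 hcon
  have h1 : 1 - s < c := by exact_mod_cast hc1
  have h2 := far_low s hs hs1 c ((ev_of_lt_low hc2).mono fun n hn => hn.le)
  linarith

theorem half (s : ℝ) (hs1 : s < 1) : ∀ᶠ N : ℕ in atTop, 2 * (N : ℝ) ^ s ≤ N := by
  filter_upwards [ev_pow (1 - s) 2 (by linarith), eventually_ge_atTop 1] with N h1 h2
  have hN0 : (0 : ℝ) < N := by exact_mod_cast h2
  have h3 : (N : ℝ) ^ s * (N : ℝ) ^ (1 - s) = N := by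
    rw [← Real.rpow_add hN0]
    norm_num
  have h4 : (0 : ℝ) < (N : ℝ) ^ s := by positivity
  nlinarith

theorem f_low_le_mean (s : ℝ) (hs1 : s < 1) (W : ℕ → ℕ)
    (hW : ∀ᶠ N : ℕ in atTop, 1 ≤ W N ∧ (W N : ℝ) ≤ (N : ℝ) ^ s) :
    low N5dc7309f.f ≤ low (mean W) := by
  by_contra hcon
  push Not at hcon
  obtain ⟨c, hc1, hc2⟩ := EReal.lt_iff_exists_real_btwn.1 hcon
  obtain ⟨n0, hn0⟩ := eventually_atTop.1 (ev_of_lt_low hc2)
  refine absurd (le_low (u := mean W) (c := c) ?_) (not_le.2 hc1)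
  filter_upwards [hW, half s hs1, eventually_ge_atTop (2 * n0)] with N h1 h2 h3
  obtain ⟨h4, h5⟩ := h1
  have hW0 : (0 : ℝ) < W N := by exact_mod_cast h4
  have h6 : 2 * W N ≤ N := by
    have : (2 : ℝ) * W N ≤ N := by linarith
    exact_mod_cast this
  unfold mean
  rw [le_div_iff₀ hW0]
  have h7 : c * W N = ∑ n ∈ Ioc (N - W N) N, c := by
    rw [sum_const, Nat.card_Ioc, nsmul_eq_mul]
    have : N - (N - W N) = W N := by omega
    rw [this, mul_comm]
  rw [h7]
  refine sum_le_sum fun n hn => ?_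
  rw [mem_Ioc] at hn
  exact (hn0 n (by omega)).le

theorem mean_low (s : ℝ) (hs : 0 < s) (hs1 : s < 1) (W : ℕ → ℕ)
    (hW : ∀ᶠ N : ℕ in atTop, 1 ≤ W N ∧ (W N : ℝ) ≤ (N : ℝ) ^ s) (c : ℝ) (hc : 0 < c)
    (hcW : (c : EReal) < low (mean W)) : (((1 - s) * c : ℝ) : EReal) ≤ low (far s) := by
  refine real_le_low fun c' hc' => ?_
  have hs2 : 0 < 1 - s := by linarith
  set g : ℝ := (1 - s) * c - c' with hg
  have hg0 : 0 < g := by linarith
  set K : ℝ := max 1 (2 * ((1 - s) * c) / g) with hK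
  have hK1 : 1 ≤ K := le_max_left _ _
  have hK2 : 2 * ((1 - s) * c) / g ≤ K := le_max_right _ _
  have hK3 : (1 - s) * c / K ≤ g / 2 := by
    rw [div_le_iff₀ hg0] at hK2
    rw [div_le_iff₀ (by linarith)]
    linarith
  obtain ⟨n0, hn0⟩ := eventually_atTop.1 (hW.and (ev_of_lt_low hcW))
  filter_upwards [local_principle s hs hs1 K hK1 (g / 2) (by linarith),
    eventually_ge_atTop (2 * n0 + 2)] with N h1 h2
  obtain ⟨V, h3, h4, h5⟩ := h1
  have hN0 : (0 : ℝ) < N := by
    have : 0 < N := by omega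
    exact_mod_cast this
  have hNs : (0 : ℝ) < (N : ℝ) ^ s := by positivity
  have hV0 : (0 : ℝ) < V := by nlinarith
  set D : ℕ := ⌊(N : ℝ) ^ s⌋₊ with hD
  have hDle : (D : ℝ) ≤ (N : ℝ) ^ s := Nat.floor_le hNs.le
  have h6 := tile N5dc7309f.f f_nonneg W c hc.le D (N - V) N (by
    intro n hn1 hn2
    obtain ⟨⟨h7, h8⟩, h9⟩ := hn0 n (by omega)
    have hn1' : (1 : ℝ) ≤ n := by
      have : 1 ≤ n := by omega
      exact_mod_cast this
    have hW0 : (0 : ℝ) < W n := by exact_mod_cast h7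
    refine ⟨h7, ?_, ?_, ?_⟩
    · refine Nat.le_floor (h8.trans ?_)
      exact Real.rpow_le_rpow (by linarith) (by exact_mod_cast hn2) hs.le
    · have h10 : (W n : ℝ) ≤ n := by
        refine h8.trans ?_
        calc (n : ℝ) ^ s ≤ (n : ℝ) ^ (1 : ℝ) := Real.rpow_le_rpow_of_exponent_le hn1' hs1.le
          _ = n := Real.rpow_one _
      exact_mod_cast h10
    · unfold mean at h9
      rw [lt_div_iff₀ hW0] at h9
      exact h9.le) N (by omega) le_rfl
  have h11 : ((N - V : ℕ) : ℝ) = (N : ℝ) - V := by rw [Nat.cast_sub (by omega)]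
  rw [h11] at h6
  -- the mean over the long window
  have h12 : c - c / K ≤ (∑ n ∈ Ioc (N - V) N, N5dc7309f.f n) / V := by
    rw [le_div_iff₀ hV0]
    have h13 : (D : ℝ) ≤ V / K := by
      rw [le_div_iff₀ (by linarith)]
      nlinarith
    have h14 : c * (D : ℝ) ≤ c / K * V := by
      calc c * (D : ℝ) ≤ c * (V / K) := mul_le_mul_of_nonneg_left h13 hc.le
        _ = c / K * V := by ring
    nlinarith
  have h15 := mul_le_mul_of_nonneg_left h12 hs2.le
  have h16 : (1 - s) * (c - c / K) = (1 - s) * c - (1 - s) * c / K := by ring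
  rw [h16] at h15
  linarith

theorem mean_nonneg (W : ℕ → ℕ) (N : ℕ) : 0 ≤ mean W N :=
  div_nonneg (sum_nonneg fun n _ => f_nonneg n) (Nat.cast_nonneg _)

theorem mean_low_le (s : ℝ) (hs : 0 < s) (hs1 : s < 1) (W : ℕ → ℕ)
    (hW : ∀ᶠ N : ℕ in atTop, 1 ≤ W N ∧ (W N : ℝ) ≤ (N : ℝ) ^ s) : low (mean W) ≤ 1 := by
  by_contra hcon
  push Not at hcon
  obtain ⟨c, hc1, hc2⟩ := EReal.lt_iff_exists_real_btwn.1 hcon
  have h1 : 1 < c := by exact_mod_cast hc1
  have h2 := (mean_low s hs hs1 W hW c (by linarith) hc2).trans (far_low_le s hs hs1)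
  have h3 : (1 - s) * c ≤ 1 - s := by exact_mod_cast h2
  nlinarith

theorem exists_real {x : EReal} (h0 : 0 ≤ x) (h1 : x ≤ 1) : ∃ r : ℝ, x = r ∧ 0 ≤ r ∧ r ≤ 1 := by
  induction x with
  | bot => simp at h0
  | top =>
    exfalso
    have : (⊤ : EReal) = 1 := le_antisymm h1 le_top
    exact absurd this.symm (EReal.coe_ne_top 1)
  | coe r => exact ⟨r, rfl, by exact_mod_cast h0, by exact_mod_cast h1⟩

/-- **windows of polynomial length.** -/
theorem bounds (s : ℝ) (hs : 0 < s) (hs1 : s < 1) (W : ℕ → ℕ)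
    (hW : ∀ᶠ N : ℕ in atTop, 1 ≤ W N ∧ (W N : ℝ) ≤ (N : ℝ) ^ s) :
    ((1 - s : ℝ) : EReal) * low (mean W) ≤ low (far s) ∧ low (far s) ≤ low N5dc7309f.f ∧
      low (far s) ≤ ((1 - s : ℝ) : EReal) ∧ low N5dc7309f.f ≤ low (mean W) ∧
      low (mean W) ≤ 1 := by
  refine ⟨?_, far_low_le_f s, far_low_le s hs hs1, f_low_le_mean s hs1 W hW,
    mean_low_le s hs hs1 W hW⟩
  obtain ⟨x, hx, hx0, hx1⟩ := exists_real (low_nonneg (mean_nonneg W)) (mean_low_le s hs hs1 W hW)
  have h1 : low (far s) ≤ 1 := (far_low_le s hs hs1).trans (by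
    have : 1 - s ≤ (1 : ℝ) := by linarith
    exact_mod_cast this)
  obtain ⟨g, hg, hg0, -⟩ := exists_real (low_nonneg (far_nonneg s)) h1
  rw [hx, hg, ← EReal.coe_mul]
  rw [EReal.coe_le_coe_iff]
  by_contra hcon
  push Not at hcon
  have hs2 : 0 < 1 - s := by linarith
  have h2 : g / (1 - s) < x := by
    rw [div_lt_iff₀ hs2]
    linarith
  have h3 : 0 ≤ g / (1 - s) := by positivity
  set c : ℝ := (g / (1 - s) + x) / 2 with hc
  have hc1 : g / (1 - s) < c := by linarith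
  have hc2 : c < x := by linarith
  have h4 := mean_low s hs hs1 W hW c (by linarith) (by rw [hx]; exact_mod_cast hc2)
  rw [hg, EReal.coe_le_coe_iff] at h4
  rw [div_lt_iff₀ hs2] at hc1
  linarith

/-- **short windows.** -/
theorem short (W : ℕ → ℕ)
    (hW : ∀ s : ℝ, 0 < s → ∀ᶠ N : ℕ in atTop, 1 ≤ W N ∧ (W N : ℝ) ≤ (N : ℝ) ^ s) :
    low (mean W) = low N5dc7309f.f := by
  have hb := fun s (hs : (0 : ℝ) < s) hs1 => bounds s hs hs1 W (hW s hs)
  obtain ⟨-, -, -, h1, h2⟩ := hb (1 / 2) (by norm_num) (by norm_num)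
  obtain ⟨x, hx, hx0, hx1⟩ := exists_real (low_nonneg (mean_nonneg W)) h2
  obtain ⟨l, hl, hl0, hl1⟩ := exists_real (low_nonneg f_nonneg) (h1.trans h2)
  rw [hx, hl, EReal.coe_le_coe_iff] at h1
  rw [hx, hl]
  congr 1
  refine le_antisymm ?_ h1
  by_contra hcon
  push Not at hcon
  obtain ⟨h3, h4, -, -, -⟩ := hb ((x - l) / 2) (by linarith) (by linarith)
  have h5 := h3.trans h4
  rw [hx, hl, ← EReal.coe_mul, EReal.coe_le_coe_iff] at h5
  nlinarith

theorem mean_one : low (mean fun _ => 1) = low N5dc7309f.f := by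
  refine short _ fun s hs => ?_
  filter_upwards [ev_pow s 1 hs] with N h
  exact ⟨le_rfl, by exact_mod_cast h⟩

theorem f_low_le_one : low N5dc7309f.f ≤ 1 := by
  rw [← mean_one]
  refine mean_low_le (1 / 2) (by norm_num) (by norm_num) _ ?_
  filter_upwards [ev_pow (1 / 2) 1 (by norm_num)] with N h
  exact ⟨le_rfl, by exact_mod_cast h⟩

/-- the conjecture and the distant primes. -/
theorem iff_far : low N5dc7309f.f = 1 ↔
    ∀ s : ℝ, 0 < s → s < 1 → low (far s) = ((1 - s : ℝ) : EReal) := by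
  constructor
  · intro h s hs hs1
    refine le_antisymm (far_low_le s hs hs1) ?_
    have h1 := (bounds s hs hs1 (fun _ => 1) (by
      filter_upwards [ev_pow s 1 hs] with N h
      exact ⟨le_rfl, by exact_mod_cast h⟩)).1
    rw [mean_one, h, mul_one] at h1
    exact h1
  · intro h
    refine le_antisymm f_low_le_one ?_
    have h1 : ((1 : ℝ) : EReal) ≤ low N5dc7309f.f := by
      by_contra hcon
      push Not at hcon
      obtain ⟨c, hc1, hc2⟩ := EReal.lt_iff_exists_real_btwn.1 hcon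
      have hc : c < 1 := by exact_mod_cast hc2
      have hc0 : 0 ≤ c := by
        have h2 := (low_nonneg f_nonneg).trans hc1.le
        exact_mod_cast h2
      have h3 := h ((1 - c) / 2) (by linarith) (by linarith)
      have h4 := far_low_le_f ((1 - c) / 2)
      rw [h3] at h4
      have h5 := h4.trans_lt hc1
      have h6 : 1 - (1 - c) / 2 < c := by exact_mod_cast h5
      linarith
    exact_mod_cast h1

/-- the conjecture and the means over windows of length `N ^ s`. -/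
theorem iff_mean : low N5dc7309f.f = 1 ↔
    ∀ s : ℝ, 0 < s → s < 1 → low (mean fun N => ⌊(N : ℝ) ^ s⌋₊) = 1 := by
  have hW : ∀ s : ℝ, 0 < s → ∀ᶠ N : ℕ in atTop,
      1 ≤ ⌊(N : ℝ) ^ s⌋₊ ∧ ((⌊(N : ℝ) ^ s⌋₊ : ℕ) : ℝ) ≤ (N : ℝ) ^ s := by
    intro s hs
    filter_upwards [ev_pow s 1 hs] with N h
    exact ⟨Nat.le_floor (by exact_mod_cast h), Nat.floor_le (by linarith)⟩
  constructor
  · intro h s hs hs1
    obtain ⟨-, -, -, h1, h2⟩ := bounds s hs hs1 _ (hW s hs)
    rw [h] at h1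
    exact le_antisymm h2 h1
  · intro h
    refine le_antisymm f_low_le_one ?_
    have h1 : ((1 : ℝ) : EReal) ≤ low N5dc7309f.f := by
      by_contra hcon
      push Not at hcon
      obtain ⟨c, hc1, hc2⟩ := EReal.lt_iff_exists_real_btwn.1 hcon
      have hc : c < 1 := by exact_mod_cast hc2
      have hc0 : 0 ≤ c := by
        have h2 := (low_nonneg f_nonneg).trans hc1.le
        exact_mod_cast h2
      obtain ⟨h3, h4, -, -, -⟩ := bounds ((1 - c) / 2) (by linarith) (by linarith) _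
        (hW ((1 - c) / 2) (by linarith))
      rw [h ((1 - c) / 2) (by linarith) (by linarith), mul_one] at h3
      have h5 := (h3.trans h4).trans_lt hc1
      have h6 : 1 - (1 - c) / 2 < c := by exact_mod_cast h5
      linarith
    exact_mod_cast h1

/-- **from most integers of every window to all integers.** -/
theorem transfer (s : ℝ) (hs : 0 < s) (hs1 : s < 1) (W : ℕ → ℕ)
    (hW : ∀ᶠ N : ℕ in atTop, 1 ≤ W N ∧ (W N : ℝ) ≤ (N : ℝ) ^ s) (c p : ℝ) (hc : 0 ≤ c)
    (h : ∀ᶠ N : ℕ in atTop,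
      (((Ioc (N - W N) N).filter (fun n => N5dc7309f.f n < c)).card : ℝ) ≤ p * W N) :
    (((1 - s) * (1 - p) * c : ℝ) : EReal) ≤ low (far s) := by
  have h1 : (((1 - p) * c : ℝ) : EReal) ≤ low (mean W) := by
    refine le_low ?_
    filter_upwards [h, hW, half s hs1] with N h2 h3 h4
    obtain ⟨h5, h6⟩ := h3
    have hW0 : (0 : ℝ) < W N := by exact_mod_cast h5
    have hWN : W N ≤ N := by
      have : (W N : ℝ) ≤ N := by linarith
      exact_mod_cast this
    unfold mean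
    rw [le_div_iff₀ hW0]
    have h7 : ∑ n ∈ (Ioc (N - W N) N).filter (fun n => ¬ N5dc7309f.f n < c), c ≤
        ∑ n ∈ Ioc (N - W N) N, N5dc7309f.f n := by
      refine (sum_le_sum fun n hn => ?_).trans (sum_le_sum_of_subset_of_nonneg
        (filter_subset _ _) fun n _ _ => f_nonneg n)
      rw [mem_filter] at hn
      exact not_lt.1 hn.2
    rw [sum_const, nsmul_eq_mul] at h7
    have h8 := card_filter_add_card_filter_not (s := Ioc (N - W N) N)
      (fun n => N5dc7309f.f n < c)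
    rw [Nat.card_Ioc] at h8
    have h9 : (((Ioc (N - W N) N).filter (fun n => N5dc7309f.f n < c)).card : ℝ) +
        (((Ioc (N - W N) N).filter (fun n => ¬ N5dc7309f.f n < c)).card : ℝ) = W N := by
      have : N - (N - W N) = W N := by omega
      rw [this] at h8
      exact_mod_cast h8
    have h10 : (1 - p) * W N ≤
        (((Ioc (N - W N) N).filter (fun n => ¬ N5dc7309f.f n < c)).card : ℝ) := by linarith
    have h11 := mul_le_mul_of_nonneg_right h10 hc
    linarith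
  obtain ⟨h2, -, -, -, h3⟩ := bounds s hs hs1 W hW
  obtain ⟨x, hx, hx0, hx1⟩ := exists_real (low_nonneg (mean_nonneg W)) h3
  rw [hx, ← EReal.coe_mul] at h2
  refine le_trans ?_ h2
  rw [hx, EReal.coe_le_coe_iff] at h1
  rw [EReal.coe_le_coe_iff]
  have h4 := mul_le_mul_of_nonneg_left h1 (show (0 : ℝ) ≤ 1 - s by linarith)
  linarith

/-- the conjecture for all integers and for almost all integers of all short windows. -/
theorem iff_almost : low N5dc7309f.f = 1 ↔ ∀ s c : ℝ, 0 < s → s < 1 → c < 1 →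
    Tendsto (fun N : ℕ => (((Ioc (N - ⌊(N : ℝ) ^ s⌋₊) N).filter
      (fun n => N5dc7309f.f n < c)).card : ℝ) / ⌊(N : ℝ) ^ s⌋₊) atTop (nhds 0) := by
  constructor
  · intro h s c hs hs1 hc
    have h1 : (c : EReal) < low N5dc7309f.f := by
      rw [h]
      exact_mod_cast hc
    obtain ⟨n0, hn0⟩ := eventually_atTop.1 (ev_of_lt_low h1)
    refine tendsto_const_nhds.congr' ?_
    filter_upwards [half s hs1, eventually_ge_atTop (2 * n0 + 2)] with N h2 h3
    have h4 : 2 * ⌊(N : ℝ) ^ s⌋₊ ≤ N := by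
      have h5 : ((⌊(N : ℝ) ^ s⌋₊ : ℕ) : ℝ) ≤ (N : ℝ) ^ s := Nat.floor_le (by positivity)
      have : (2 : ℝ) * ⌊(N : ℝ) ^ s⌋₊ ≤ N := by linarith
      exact_mod_cast this
    have h6 : (Ioc (N - ⌊(N : ℝ) ^ s⌋₊) N).filter (fun n => N5dc7309f.f n < c) = ∅ := by
      refine filter_eq_empty_iff.2 fun n hn => ?_
      rw [mem_Ioc] at hn
      exact not_lt.2 (hn0 n (by omega)).le
    rw [h6]
    simp
  · intro h
    refine le_antisymm f_low_le_one ?_
    by_contra hcon
    push Not at hcon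
    obtain ⟨x, hx1, hx2⟩ := EReal.lt_iff_exists_real_btwn.1 hcon
    have hx : x < 1 := by exact_mod_cast hx2
    have hx0 : 0 ≤ x := by
      have h2 := (low_nonneg f_nonneg).trans hx1.le
      exact_mod_cast h2
    set t : ℝ := (1 - x) / 4 with ht
    have ht0 : 0 < t := by linarith
    have ht1 : t < 1 := by linarith
    have h3 := (h t ((1 + x) / 2) ht0 ht1 (by linarith)).eventually (eventually_le_nhds ht0)
    have hW : ∀ᶠ N : ℕ in atTop,
        1 ≤ ⌊(N : ℝ) ^ t⌋₊ ∧ ((⌊(N : ℝ) ^ t⌋₊ : ℕ) : ℝ) ≤ (N : ℝ) ^ t := by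
      filter_upwards [ev_pow t 1 ht0] with N h
      exact ⟨Nat.le_floor (by exact_mod_cast h), Nat.floor_le (by linarith)⟩
    have h4 := transfer t ht0 ht1 (fun N => ⌊(N : ℝ) ^ t⌋₊) hW ((1 + x) / 2) t (by linarith)
      (by
        filter_upwards [h3, hW] with N h5 h6
        have h7 : (0 : ℝ) < ((⌊(N : ℝ) ^ t⌋₊ : ℕ) : ℝ) := by exact_mod_cast h6.1
        rwa [div_le_iff₀ h7] at h5)
    have h5 := (h4.trans (far_low_le_f t)).trans_lt hx1
    have h6 : (1 - t) * (1 - t) * ((1 + x) / 2) < x := by exact_mod_cast h5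
    nlinarith [sq_nonneg (1 - x), sq_nonneg t]

end H63.WP
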