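import Pool.Agent.H63.WP.Core

/-!
# The local principle: a small value of the sum at `N` gives a long window ending at `N` with a
small mean.
-/

set_option autoImplicit false

namespace H63.WP

open Finset Filter

/-- the part of `f N` which comes from the primes at distance more than `N ^ s`. -/
noncomputable def far (s : ℝ) (N : ℕ) : ℝ :=
  ∑ p ∈ (range N).filter (fun p : ℕ => p.Prime ∧ (N : ℝ) ^ s < (N : ℝ) - p), 1 / ((N : ℝ) - p)

theorem far_eq (s : ℝ) (N : ℕ) :
    far s N = ∑ m ∈ (Ioc 0 N).filter (fun m : ℕ => (N : ℝ) ^ s < m), a N m / m := by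
  unfold far a
  rw [sum_filter, sum_filter]
  refine sum_nbij' (fun p => N - p) (fun m => N - m) ?_ ?_ ?_ ?_ ?_
  · intro p hp
    rw [mem_range] at hp
    rw [mem_Ioc]
    omega
  · intro m hm
    rw [mem_Ioc] at hm
    rw [mem_range]
    omega
  · intro p hp
    rw [mem_range] at hp
    omega
  · intro m hm
    rw [mem_Ioc] at hm
    omega
  · intro p hp
    rw [mem_range] at hp
    have h1 : N - (N - p) = p := by omega
    have h2 : ((N - p : ℕ) : ℝ) = (N : ℝ) - p := by
      rw [Nat.cast_sub (by omega)]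
    simp only [h1, h2]
    by_cases hpp : p.Prime
    · simp only [hpp, true_and, if_true]
    · simp only [hpp, false_and, if_false, zero_div, ite_self]

theorem far_nonneg (s : ℝ) (N : ℕ) : 0 ≤ far s N := by
  rw [far_eq]
  exact sum_nonneg fun m _ => div_nonneg (a_nonneg N m) (Nat.cast_nonneg m)

theorem far_le (s : ℝ) (N : ℕ) : far s N ≤ N5dc7309f.f N := by
  have h := f_eq N 0 (Nat.zero_le N)
  rw [Nat.sub_zero] at h
  rw [h, far_eq]
  simp only [Nat.cast_zero, sub_zero]
  exact sum_le_sum_of_subset_of_nonneg (filter_subset _ _)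
    fun m _ _ => div_nonneg (a_nonneg N m) (Nat.cast_nonneg m)

theorem f_nonneg (N : ℕ) : 0 ≤ N5dc7309f.f N := (far_nonneg 0 N).trans (far_le 0 N)

theorem y_le_far (s : ℝ) (N V : ℕ) (h : (N : ℝ) ^ s ≤ V) : y N V ≤ far s N := by
  rw [far_eq]
  unfold y
  refine sum_le_sum_of_subset_of_nonneg ?_
    fun m _ _ => div_nonneg (a_nonneg N m) (Nat.cast_nonneg m)
  intro m hm
  rw [mem_Ioc] at hm
  rw [mem_filter, mem_Ioc]
  refine ⟨by omega, h.trans_lt ?_⟩
  exact_mod_cast hm.1

theorem far_le_y (s : ℝ) (N V : ℕ) (h : (V : ℝ) ≤ (N : ℝ) ^ s) : far s N ≤ y N V := by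
  rw [far_eq]
  unfold y
  refine sum_le_sum_of_subset_of_nonneg ?_
    fun m _ _ => div_nonneg (a_nonneg N m) (Nat.cast_nonneg m)
  intro m hm
  rw [mem_filter, mem_Ioc] at hm
  rw [mem_Ioc]
  refine ⟨?_, hm.1.2⟩
  exact_mod_cast h.trans_lt hm.2

/-- primes in intervals, for the function `a`. -/
theorem block_a : ∃ C : ℝ, 0 < C ∧ ∀ N M X : ℕ, 2 ≤ X →
    ∑ m ∈ Ioc M (M + X), a N m ≤ C / Real.log X * X := by
  obtain ⟨C, hC, h⟩ := Pool.Agent.H24.LJ.pi_loc
  refine ⟨C, hC, fun N M X hX => ?_⟩
  have h1 := h (N - M - X - 1) X hX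
  have h2 : ∑ m ∈ Ioc M (M + X), a N m = (((Ioc M (M + X)).filter fun m => (N - m).Prime).card : ℝ) := by
    unfold a
    rw [← sum_filter, sum_const, nsmul_eq_mul, mul_one]
  have h3 : ((Ioc M (M + X)).filter fun m => (N - m).Prime).card ≤
      ((Ioc (N - M - X - 1) (N - M - X - 1 + X)).filter Nat.Prime).card := by
    refine card_le_card_of_injOn (fun m => N - m) ?_ ?_
    · intro m hm
      simp only [coe_filter, mem_Ioc, Set.mem_ofPred_eq] at hm ⊢
      have := hm.2.two_le
      refine ⟨by omega, hm.2⟩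
    · intro m hm m' hm' hmm
      simp only [coe_filter, mem_Ioc, Set.mem_ofPred_eq] at hm hm'
      have h4 := hm.2.two_le
      have h5 := hm'.2.two_le
      simp only at hmm
      omega
  have h4 : (((Ioc M (M + X)).filter fun m => (N - m).Prime).card : ℝ) ≤
      (((Ioc (N - M - X - 1) (N - M - X - 1 + X)).filter Nat.Prime).card : ℝ) := by
    exact_mod_cast h3
  rw [h2]
  calc _ ≤ _ := h4
    _ ≤ C * X / Real.log X := h1
    _ = C / Real.log X * X := by ring

/-- constants divided by `log N` tend to zero. -/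
theorem ev_log (A η : ℝ) (hη : 0 < η) : ∀ᶠ N : ℕ in atTop, A / Real.log N ≤ η := by
  have h : Tendsto (fun N : ℕ => A / Real.log N) atTop (nhds 0) :=
    (Real.tendsto_log_atTop.comp tendsto_natCast_atTop_atTop).const_div_atTop A
  exact h.eventually (eventually_le_nhds hη)

theorem ev_pow (s B : ℝ) (hs : 0 < s) : ∀ᶠ N : ℕ in atTop, B ≤ (N : ℝ) ^ s :=
  ((tendsto_rpow_atTop hs).comp tendsto_natCast_atTop_atTop).eventually_ge_atTop B

theorem ev_log_pow (A s : ℝ) (hs : 0 < s) :
    ∀ᶠ N : ℕ in atTop, A * (1 + Real.log N) ≤ (N : ℝ) ^ s := by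
  have h1 : Tendsto (fun x : ℝ => A * (1 + Real.log x) / x ^ s) atTop (nhds 0) := by
    have h2 : Tendsto (fun x : ℝ => Real.log x / x ^ s) atTop (nhds 0) :=
      (isLittleO_log_rpow_atTop hs).tendsto_div_nhds_zero
    have h3 : Tendsto (fun x : ℝ => 1 / x ^ s) atTop (nhds 0) :=
      (tendsto_rpow_atTop hs).const_div_atTop 1
    have h4 := (h3.add h2).const_mul A
    rw [add_zero, mul_zero] at h4
    refine h4.congr fun x => ?_
    ring
  have h5 := (h1.comp tendsto_natCast_atTop_atTop).eventually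
    (eventually_le_nhds (show (0 : ℝ) < 1 by norm_num))
  filter_upwards [h5, ev_pow s 1 hs] with N h6 h7
  simp only [Function.comp] at h6
  rwa [div_le_one (by linarith)] at h6

/-- the block length -/
noncomputable def XX (s : ℝ) (N : ℕ) : ℕ := ⌈(N : ℝ) ^ (s / 2)⌉₊

theorem XX_spec (s : ℝ) (hs : 0 < s) : ∀ᶠ N : ℕ in atTop, 2 ≤ XX s N ∧
    (XX s N : ℝ) ≤ 2 * (N : ℝ) ^ (s / 2) ∧ s / 2 * Real.log N ≤ Real.log (XX s N) := by
  filter_upwards [ev_pow (s / 2) 2 (by linarith), eventually_ge_atTop 1] with N h1 h2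
  have h3 : (N : ℝ) ^ (s / 2) ≤ XX s N := Nat.le_ceil _
  have h4 : (XX s N : ℝ) < (N : ℝ) ^ (s / 2) + 1 := Nat.ceil_lt_add_one (by linarith)
  have hN : (0 : ℝ) < N := by exact_mod_cast h2
  refine ⟨?_, by linarith, ?_⟩
  · have : (2 : ℝ) ≤ XX s N := by linarith
    exact_mod_cast this
  · rw [← Real.log_rpow hN]
    exact Real.log_le_log (by linarith) h3

theorem far_bdd (s : ℝ) (hs : 0 < s) (hs1 : s < 1) : ∃ B : ℝ, ∀ᶠ N : ℕ in atTop, far s N ≤ B := by
  obtain ⟨C, hC, hblock⟩ := block_a
  refine ⟨10 * C / s, ?_⟩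
  filter_upwards [XX_spec s hs, ev_pow s 1 hs, ev_pow (s / 2) 1 (by linarith),
    eventually_ge_atTop 1, ev_log 4 1 one_pos] with N h1 h2 h2' h3 h4
  obtain ⟨hX2, hXle, hXlog⟩ := h1
  have hN : (1 : ℝ) ≤ N := by exact_mod_cast h3
  have hlogN : 4 ≤ Real.log N := by
    rcases lt_or_ge (Real.log N) 1 with h5 | h5
    · exfalso
      have h6 : 0 ≤ Real.log N := Real.log_nonneg hN
      rcases h6.eq_or_lt with h7 | h7
      · rw [← h7] at hXlog
        have h8 : Real.log 2 ≤ Real.log (XX s N) :=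
          Real.log_le_log (by norm_num) (by exact_mod_cast hX2)
        have h9 : Real.log N = 0 := h7.symm
        have h10 : (N : ℝ) = 1 := by
          rcases (Real.log_eq_zero.1 h9) with h | h | h
          · linarith
          · exact h
          · linarith
        rw [h10] at hXle
        rw [Real.one_rpow] at hXle
        -- `N = 1` : `4 / log N = 0`, nothing to use; but then `XX = 1`
        have h11 : XX s N = 1 := by
          unfold XX
          rw [h10, Real.one_rpow]
          simp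
        omega
      · rw [div_le_one h7] at h4
        linarith
    · rw [div_le_one (by linarith)] at h4
      exact h4
  set V : ℕ := ⌊(N : ℝ) ^ s⌋₊ with hV
  have hV1 : 1 ≤ V := Nat.le_floor (by exact_mod_cast h2)
  have hVR : (1 : ℝ) ≤ V := by exact_mod_cast hV1
  have hVle : (V : ℝ) ≤ (N : ℝ) ^ s := Nat.floor_le (by linarith)
  have hVlt : (N : ℝ) ^ s < V + 1 := Nat.lt_floor_add_one _
  set X : ℕ := XX s N with hXdef
  have hlogX : 0 < Real.log X := by nlinarith
  set δ : ℝ := C / Real.log X with hδ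
  have hδ0 : 0 ≤ δ := by positivity
  have hXR : (0 : ℝ) < X := by
    have : (2 : ℝ) ≤ X := by exact_mod_cast hX2
    linarith
  have h5 := block_le (a N) (fun m : ℕ => 1 / (m : ℝ)) δ X V hδ0 (a_nonneg N)
    (fun M => hblock N M X hX2) (fun m _ => by positivity) (fun m m' hm hm' => by
      have : (0 : ℝ) < m := by exact_mod_cast (Nat.zero_le V).trans_lt hm
      exact one_div_le_one_div_of_le this (by exact_mod_cast hm')) N
  have h6 : y N V ≤ ∑ m ∈ Ioc V (V + (N + 1) * X), a N m * (1 / (m : ℝ)) := by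
    unfold y
    have : ∀ m ∈ Ioc V N, a N m / m = a N m * (1 / (m : ℝ)) := fun m _ => by rw [mul_one_div]
    rw [sum_congr rfl this]
    refine sum_le_sum_of_subset_of_nonneg (Ioc_subset_Ioc_right ?_) fun m _ _ => ?_
    · have : N + 1 ≤ (N + 1) * X := Nat.le_mul_of_pos_right _ (by omega)
      omega
    · exact mul_nonneg (a_nonneg N m) (by positivity)
  have h7 : ∑ m ∈ Ioc V (V + N * X), 1 / (m : ℝ) ≤ 1 + Real.log ((V + N * X : ℕ) : ℝ) := by
    have h8 := har_le (V + N * X) (by omega)
    refine le_trans ?_ h8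
    have h9 : ∑ i ∈ range (V + N * X), 1 / (((V + N * X : ℕ) : ℝ) - i) =
        ∑ m ∈ Ioc 0 (V + N * X), 1 / (m : ℝ) := by
      refine sum_nbij' (fun i => V + N * X - i) (fun m => V + N * X - m) ?_ ?_ ?_ ?_ ?_
      · intro i hi
        rw [mem_range] at hi
        rw [mem_Ioc]
        omega
      · intro m hm
        rw [mem_Ioc] at hm
        rw [mem_range]
        omega
      · intro i hi
        rw [mem_range] at hi
        omega
      · intro m hm
        rw [mem_Ioc] at hm
        omega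
      · intro i hi
        rw [mem_range] at hi
        rw [Nat.cast_sub hi.le]
    rw [h9]
    exact sum_le_sum_of_subset_of_nonneg (Ioc_subset_Ioc_left (Nat.zero_le V))
      fun m _ _ => by positivity
  have hVN : (V : ℝ) ≤ N := by
    refine hVle.trans ?_
    calc (N : ℝ) ^ s ≤ (N : ℝ) ^ (1 : ℝ) := Real.rpow_le_rpow_of_exponent_le hN hs1.le
      _ = N := Real.rpow_one _
  have hXN : (X : ℝ) ≤ 2 * N := by
    refine hXle.trans ?_
    have : (N : ℝ) ^ (s / 2) ≤ (N : ℝ) ^ (1 : ℝ) :=
      Real.rpow_le_rpow_of_exponent_le hN (by linarith)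
    rw [Real.rpow_one] at this
    linarith
  have h10 : Real.log ((V + N * X : ℕ) : ℝ) ≤ 2 + 2 * Real.log N := by
    have h11 : ((V + N * X : ℕ) : ℝ) ≤ 3 * (N : ℝ) ^ 2 := by
      push_cast
      nlinarith
    have h12 : (0 : ℝ) < ((V + N * X : ℕ) : ℝ) := by
      have : 0 < V + N * X := by omega
      exact_mod_cast this
    have h13 := Real.log_le_log h12 h11
    rw [Real.log_mul (by norm_num) (by positivity), Real.log_pow] at h13
    have h14 : Real.log 3 ≤ 2 := by
      have := Real.log_le_sub_one_of_pos (show (0 : ℝ) < 3 by norm_num)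
      linarith
    push_cast at h13 ⊢
    linarith
  have h15 : (X : ℝ) * (1 / ((V + 1 : ℕ) : ℝ)) ≤ 2 := by
    rw [mul_one_div, div_le_iff₀ (by positivity)]
    push_cast
    have h16 : (N : ℝ) ^ (s / 2) ≤ (N : ℝ) ^ s :=
      Real.rpow_le_rpow_of_exponent_le hN (by linarith)
    linarith
  have h17 : far s N ≤ δ * (5 + 2 * Real.log N) := by
    have h18 := mul_le_mul_of_nonneg_left h15 hδ0
    have h19 := mul_le_mul_of_nonneg_left (h7.trans (add_le_add_right h10 1)) hδ0
    have h20 := (far_le_y s N V hVle).trans h6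
    have e : δ * (5 + 2 * Real.log N) = δ * 2 + δ * (1 + (2 + 2 * Real.log N)) := by ring
    rw [e]
    linarith
  refine h17.trans ?_
  have h21 : δ ≤ 2 * C / (s * Real.log N) := by
    rw [hδ, div_le_div_iff₀ hlogX (by nlinarith)]
    nlinarith
  calc δ * (5 + 2 * Real.log N) ≤ (2 * C / (s * Real.log N)) * (5 * Real.log N) := by
        refine mul_le_mul h21 (by linarith) (by linarith) (by positivity)
    _ = 10 * C / s := by
        have : Real.log N ≠ 0 := by linarith
        field_simp
        ring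

/-- the sum of `f` over the window `(N - V, N]`. -/
theorem window_sum (N V : ℕ) (h : V ≤ N) :
    ∑ n ∈ Ioc (N - V) N, N5dc7309f.f n = ∑ i ∈ range V, N5dc7309f.f (N - i) := by
  refine sum_nbij' (fun n => N - n) (fun i => N - i) ?_ ?_ ?_ ?_ ?_
  · intro n hn
    rw [mem_Ioc] at hn
    rw [mem_range]
    omega
  · intro i hi
    rw [mem_range] at hi
    rw [mem_Ioc]
    omega
  · intro n hn
    rw [mem_Ioc] at hn
    omega
  · intro i hi
    rw [mem_range] at hi
    omega
  · intro n hn
    rw [mem_Ioc] at hn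
    congr 1
    omega

/-- **THE LOCAL PRINCIPLE.** -/
theorem local_principle (s : ℝ) (hs : 0 < s) (hs1 : s < 1) (K : ℝ) (hK : 1 ≤ K) (ε : ℝ)
    (hε : 0 < ε) : ∀ᶠ N : ℕ in atTop, ∃ V : ℕ, K * (N : ℝ) ^ s ≤ V ∧ 2 * V ≤ N ∧
      (1 - s) * ((∑ n ∈ Ioc (N - V) N, N5dc7309f.f n) / V) ≤ far s N + ε := by
  obtain ⟨C, hC, hblock⟩ := block_a
  obtain ⟨B, hB⟩ := far_bdd s hs hs1
  set η : ℝ := ε / 4 with hη
  have hη0 : 0 < η := by positivity
  set B' : ℝ := (max B 0 + ε) / (1 - s) with hB'
  have hs2 : 0 < 1 - s := by linarith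
  have hB'0 : 0 < B' := by
    have : 0 ≤ max B 0 := le_max_right _ _
    positivity
  set η' : ℝ := ε / (4 * B') with hη'
  have hη'0 : 0 < η' := by positivity
  filter_upwards [XX_spec s hs, hB, ev_log_pow 2 (s / 2) (by linarith),
    ev_log (4 * C / s) η hη0, ev_log (C / s) η hη0, ev_log (1 + Real.log (K + 3)) η' hη'0,
    ev_pow s 2 hs, ev_pow (1 - s) (4 * K + 8) hs2, eventually_ge_atTop 2]
    with N h1 h2 h3 h4 h5 h6 h7 h8 h9
  obtain ⟨hX2, hXle, hXlog⟩ := h1
  by_contra hcon
  push Not at hcon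
  have hN2 : (2 : ℝ) ≤ N := by exact_mod_cast h9
  have hN0 : (0 : ℝ) < N := by linarith
  have hlogN : 0 < Real.log N := Real.log_pos (by linarith)
  set X : ℕ := XX s N with hXdef
  have hlogX : 0 < Real.log X := by nlinarith
  set δ : ℝ := C / Real.log X with hδ
  have hδ0 : 0 ≤ δ := by positivity
  have hδle : δ ≤ 2 * C / (s * Real.log N) := by
    rw [hδ, div_le_div_iff₀ hlogX (by positivity)]
    nlinarith
  -- the two ends of the range of window lengths
  set W0 : ℕ := ⌈K * (N : ℝ) ^ s⌉₊ with hW0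
  set N1 : ℕ := N / 2 with hN1
  have hW0ge : K * (N : ℝ) ^ s ≤ W0 := Nat.le_ceil _
  have hNs0 : (0 : ℝ) < (N : ℝ) ^ s := by positivity
  have hW0lt : (W0 : ℝ) < K * (N : ℝ) ^ s + 1 := Nat.ceil_lt_add_one (by positivity)
  have hW0s : (N : ℝ) ^ s ≤ W0 := by nlinarith
  have hN1ge : (N : ℝ) ≤ 2 * (N1 : ℝ) + 1 := by
    have : N ≤ 2 * N1 + 1 := by omega
    exact_mod_cast this
  have hN1le : 2 * N1 ≤ N := by omega
  have hsplit : (N : ℝ) ^ s * (N : ℝ) ^ (1 - s) = N := by
    rw [← Real.rpow_add hN0]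
    norm_num
  have hbig : (4 * K + 8) * (N : ℝ) ^ s ≤ N := by nlinarith
  have hW01 : W0 ≤ N1 := by
    have : (W0 : ℝ) ≤ N1 := by nlinarith
    exact_mod_cast this
  set c0 : ℝ := (far s N + ε) / (1 - s) with hc0
  have hfar0 := far_nonneg s N
  have hc0ge : ε ≤ c0 := by
    rw [hc0, le_div_iff₀ hs2]
    nlinarith
  have hc0le : c0 ≤ B' := by
    rw [hc0, hB']
    refine div_le_div_of_nonneg_right ?_ hs2.le
    linarith [le_max_left B 0]
  -- all windows have a large mean
  have hwin : ∀ V, W0 < V → V ≤ N1 → (c0 - η) * V ≤ V * y N V + (1 + Real.log V) * P N V := by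
    intro V hV1 hV2
    have hVpos : 1 ≤ V := by omega
    have hVR : (0 : ℝ) < V := by exact_mod_cast hVpos
    have hWV : (W0 : ℝ) < V := by exact_mod_cast hV1
    have h10 := hcon V (by linarith) (by omega)
    rw [window_sum N V (by omega)] at h10
    have h11 := window_le N V X hVpos (by omega) (by omega) δ hδ0 (fun M => hblock N M X hX2)
    have h12 : c0 * V ≤ ∑ i ∈ range V, N5dc7309f.f (N - i) := by
      have h13 : c0 ≤ (∑ i ∈ range V, N5dc7309f.f (N - i)) / V := by
        rw [hc0, div_le_iff₀ hs2]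
        linarith
      rwa [le_div_iff₀ hVR] at h13
    have h14 : (X : ℝ) * (1 + Real.log V) ≤ V := by
      have h15 : Real.log V ≤ Real.log N := by
        refine Real.log_le_log hVR ?_
        have : V ≤ N := by omega
        exact_mod_cast this
      have h16 : (0 : ℝ) ≤ 1 + Real.log V := by
        have := Real.log_natCast_nonneg V
        linarith
      have h17 : (N : ℝ) ^ (s / 2) * (N : ℝ) ^ (s / 2) = (N : ℝ) ^ s := by
        rw [← Real.rpow_add hN0]
        congr 1
        ring
      have h18 : (0 : ℝ) < (N : ℝ) ^ (s / 2) := by positivity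
      calc (X : ℝ) * (1 + Real.log V) ≤ (2 * (N : ℝ) ^ (s / 2)) * (1 + Real.log N) := by
            refine mul_le_mul hXle (by linarith) h16 (by positivity)
        _ = (N : ℝ) ^ (s / 2) * (2 * (1 + Real.log N)) := by ring
        _ ≤ (N : ℝ) ^ (s / 2) * (N : ℝ) ^ (s / 2) := mul_le_mul_of_nonneg_left h3 h18.le
        _ = (N : ℝ) ^ s := h17
        _ ≤ V := by linarith
    have h19 : δ * (X * (1 + Real.log V) + V) ≤ η * V := by
      have h20 : 2 * δ ≤ η := by
        have h21 : 2 * (2 * C / (s * Real.log N)) = 4 * C / s / Real.log N := by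
          field_simp
          ring
        linarith
      calc δ * (X * (1 + Real.log V) + V) ≤ δ * (V + V) :=
            mul_le_mul_of_nonneg_left (by linarith) hδ0
        _ = 2 * δ * V := by ring
        _ ≤ η * V := mul_le_mul_of_nonneg_right h20 hVR.le
    linarith
  have h22 := tail_ge N W0 N1 (c0 - η) (by rw [hη]; linarith) hW01 (by omega) hwin
  -- the quotient of the two logarithms
  have h23 : (1 + Real.log ((W0 : ℝ) + 2)) / (1 + Real.log ((N1 : ℝ) + 2)) ≤ s + η' := by
    have h24 : Real.log ((W0 : ℝ) + 2) ≤ Real.log (K + 3) + s * Real.log N := by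
      rw [← Real.log_rpow hN0, ← Real.log_mul (by linarith) hNs0.ne']
      refine Real.log_le_log (by positivity) ?_
      nlinarith
    have h25 : Real.log N ≤ 1 + Real.log ((N1 : ℝ) + 2) := by
      have h26 : Real.log N ≤ Real.log (2 * ((N1 : ℝ) + 2)) :=
        Real.log_le_log hN0 (by linarith)
      rw [Real.log_mul (by norm_num) (by positivity)] at h26
      have h27 : Real.log 2 ≤ 1 := by
        have := Real.log_le_sub_one_of_pos (show (0 : ℝ) < 2 by norm_num)
        linarith
      linarith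
    have h28 : 0 ≤ 1 + Real.log ((W0 : ℝ) + 2) := by
      have : 0 ≤ Real.log ((W0 : ℝ) + 2) :=
        Real.log_nonneg (by linarith [Nat.cast_nonneg (α := ℝ) W0])
      linarith
    calc (1 + Real.log ((W0 : ℝ) + 2)) / (1 + Real.log ((N1 : ℝ) + 2))
        ≤ (1 + Real.log ((W0 : ℝ) + 2)) / Real.log N :=
          div_le_div_of_nonneg_left h28 hlogN h25
      _ ≤ (1 + Real.log (K + 3) + s * Real.log N) / Real.log N :=
          div_le_div_of_nonneg_right (by linarith) hlogN.le
      _ = s + (1 + Real.log (K + 3)) / Real.log N := by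
          field_simp
          ring
      _ ≤ s + η' := by linarith
  -- the first window
  have h29 : P N W0 / ((W0 : ℝ) + 1) ≤ η := by
    have hW02 : 2 ≤ W0 := by
      have : (2 : ℝ) ≤ W0 := by linarith
      exact_mod_cast this
    have h30 := hblock N 0 W0 hW02
    rw [zero_add] at h30
    have hW0R : (0 : ℝ) < W0 := by linarith
    have hlogW : s * Real.log N ≤ Real.log W0 := by
      rw [← Real.log_rpow hN0]
      exact Real.log_le_log hNs0 hW0s
    have hlogW0 : 0 < Real.log W0 := by nlinarith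
    have h31 : P N W0 ≤ C / (s * Real.log N) * W0 := by
      unfold P
      refine h30.trans (mul_le_mul_of_nonneg_right ?_ hW0R.le)
      exact div_le_div_of_nonneg_left hC.le (by positivity) hlogW
    rw [div_le_iff₀ (by linarith)]
    have h32 : C / (s * Real.log N) = C / s / Real.log N := by
      field_simp
    rw [h32] at h31
    nlinarith
  have h33 : y N W0 ≤ far s N := y_le_far s N W0 hW0s
  have h34 : R N W0 ≤ far s N + η := by
    unfold R
    linarith
  have h35 : (c0 - η) * (1 - s - η') ≤ far s N + η := by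
    refine le_trans ?_ (h22.trans h34)
    refine mul_le_mul_of_nonneg_left (by linarith) (by rw [hη]; linarith)
  have h36 : c0 * (1 - s) = far s N + ε := by
    rw [hc0]
    field_simp
  have h37 : c0 * η' ≤ ε / 4 := by
    calc c0 * η' ≤ B' * η' := mul_le_mul_of_nonneg_right hc0le hη'0.le
      _ = ε / 4 := by
        rw [hη']
        field_simp
  have h38 : η * (1 - s) ≤ η := by nlinarith
  have h39 : 0 < η * η' := by positivity
  have h40 : (c0 - η) * (1 - s - η') = c0 * (1 - s) - c0 * η' - η * (1 - s) + η * η' := by ring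
  rw [h40, h36] at h35
  have : ε = 4 * η := by rw [hη]; ring
  linarith

end H63.WP
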