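import Pool.Agent.H63.WP.Rec

/-!
# The mean value of `f`, and almost all `n`
-/

set_option autoImplicit false

namespace H63.WP

open Finset Filter

/-- the sum of `f` over `n ≤ x`. -/
theorem sum_f (x : ℕ) : ∑ n ∈ Ioc 0 x, N5dc7309f.f n =
    ∑ p ∈ (Ioc 0 x).filter Nat.Prime, ∑ m ∈ Ioc 0 (x - p), 1 / (m : ℝ) := by
  have h1 : ∀ n ∈ Ioc 0 x, N5dc7309f.f n = ∑ p ∈ (Ioc 0 x).filter Nat.Prime,
      if p < n then 1 / ((n : ℝ) - p) else 0 := by
    intro n hn
    rw [mem_Ioc] at hn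
    unfold N5dc7309f.f
    rw [← sum_filter]
    congr 1
    ext p
    simp only [mem_filter, mem_range, mem_Ioc, ← Nat.prime_iff]
    constructor
    · rintro ⟨h2, h3⟩
      exact ⟨⟨⟨h3.pos, by omega⟩, h3⟩, h2⟩
    · rintro ⟨⟨_, h3⟩, h2⟩
      exact ⟨h2, h3⟩
  rw [sum_congr rfl h1, sum_comm]
  refine sum_congr rfl fun p hp => ?_
  rw [mem_filter, mem_Ioc] at hp
  rw [← sum_filter]
  refine sum_nbij' (fun n => n - p) (fun m => m + p) ?_ ?_ ?_ ?_ ?_
  · intro n hn
    rw [mem_filter, mem_Ioc] at hn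
    rw [mem_Ioc]
    omega
  · intro m hm
    rw [mem_Ioc] at hm
    rw [mem_filter, mem_Ioc]
    omega
  · intro n hn
    rw [mem_filter] at hn
    omega
  · intro m hm
    omega
  · intro n hn
    rw [mem_filter] at hn
    rw [Nat.cast_sub hn.2.le]

theorem har_Ioc_le (x : ℕ) (hx : 1 ≤ x) : ∑ m ∈ Ioc 0 x, 1 / (m : ℝ) ≤ 1 + Real.log x := by
  have h := sum_inv_le 1 x le_rfl hx
  have h2 : ∑ m ∈ Ioc 0 x, 1 / (m : ℝ) = 1 + ∑ m ∈ Ioc 1 x, 1 / (m : ℝ) := by
    rw [← sum_Ioc_consecutive _ (Nat.zero_le 1) hx]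
    simp
  rw [h2]
  simp only [Nat.cast_one, Real.log_one, sub_zero] at h
  linarith

theorem sum_f_le (x : ℕ) (hx : 1 ≤ x) :
    ∑ n ∈ Ioc 0 x, N5dc7309f.f n ≤ Nat.primeCounting x * (1 + Real.log x) := by
  rw [sum_f]
  have h1 : ∀ p ∈ (Ioc 0 x).filter Nat.Prime, ∑ m ∈ Ioc 0 (x - p), 1 / (m : ℝ) ≤
      1 + Real.log x := by
    intro p _
    refine le_trans ?_ (har_Ioc_le x hx)
    exact sum_le_sum_of_subset_of_nonneg (Ioc_subset_Ioc_right (Nat.sub_le x p))
      fun m _ _ => by positivity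
  refine (sum_le_sum h1).trans (le_of_eq ?_)
  have h4 : ((Ioc 0 x).filter Nat.Prime).card = Nat.primeCounting x := by
    rw [Nat.primeCounting, Nat.primeCounting', Nat.count_eq_card_filter_range]
    congr 1
    ext p
    simp only [mem_filter, mem_Ioc, mem_range]
    constructor
    · rintro ⟨⟨_, h2⟩, h3⟩
      exact ⟨by omega, h3⟩
    · rintro ⟨h1, h2⟩
      exact ⟨⟨h2.pos, by omega⟩, h2⟩
  rw [sum_const, h4, nsmul_eq_mul]

theorem pi_log_tendsto :
    Tendsto (fun x : ℕ => (Nat.primeCounting x : ℝ) * Real.log x / x) atTop (nhds 1) := by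
  have := Pool.Agent.H5.PNT.pi_tendsto.comp tendsto_natCast_atTop_atTop
  refine this.congr fun x => ?_
  simp

/-- the mean value of `f` is at most `1 + o(1)`. -/
theorem mean_upper (η : ℝ) (hη : 0 < η) : ∀ᶠ x : ℕ in atTop,
    ∑ n ∈ Ioc 0 x, N5dc7309f.f n ≤ (1 + η) * x := by
  have h1 := (pi_log_tendsto.add pi_div_tendsto).eventually
    (eventually_le_nhds (show (1 : ℝ) + 0 < 1 + η by linarith))
  filter_upwards [h1, eventually_ge_atTop 1] with x h2 h3
  have hx : (0 : ℝ) < x := by exact_mod_cast h3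
  refine (sum_f_le x h3).trans ?_
  rw [← add_div, div_le_iff₀ hx] at h2
  linarith

/-- the mean value of `f` is at least `1 - o(1)`. -/
theorem mean_lower (η : ℝ) (hη : 0 < η) : ∀ᶠ x : ℕ in atTop,
    (1 - η) * x ≤ ∑ n ∈ Ioc 0 x, N5dc7309f.f n := by
  rcases le_or_gt 1 η with h1 | h1
  · filter_upwards with x
    have h2 : 0 ≤ ∑ n ∈ Ioc 0 x, N5dc7309f.f n := sum_nonneg fun n _ => f_nonneg n
    have h3 : (0 : ℝ) ≤ x := Nat.cast_nonneg x
    nlinarith
  -- the primes up to `(1 - d) x`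
  set d : ℝ := η / 4 with hd
  have hd0 : 0 < d := by positivity
  have hd1 : d < 1 := by linarith
  have hk : Tendsto (fun x : ℕ => ⌊(1 - d) * (x : ℝ)⌋₊) atTop atTop := by
    refine tendsto_nat_floor_atTop.comp ?_
    exact tendsto_natCast_atTop_atTop.const_mul_atTop (by linarith)
  have h2 := (pi_log_tendsto.comp hk).eventually
    (eventually_ge_nhds (show (1 : ℝ) - d < 1 by linarith))
  filter_upwards [h2, eventually_ge_atTop 2,
    tendsto_natCast_atTop_atTop.eventually_ge_atTop (2 / d),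
    ev_log (-Real.log d) d hd0] with x h3 h4 h5 h6
  have hx2 : (2 : ℝ) ≤ x := by exact_mod_cast h4
  have hx0 : (0 : ℝ) < x := by linarith
  have hl0 : 0 < Real.log x := Real.log_pos (by linarith)
  set k : ℕ := ⌊(1 - d) * (x : ℝ)⌋₊ with hkdef
  have hkle : (k : ℝ) ≤ (1 - d) * x := Nat.floor_le (by nlinarith)
  have hklt : (1 - d) * x < k + 1 := Nat.lt_floor_add_one _
  have hdx : 2 ≤ d * x := by
    rw [div_le_iff₀ hd0] at h5
    linarith
  have hk0 : (0 : ℝ) < k := by nlinarith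
  have hkx : k ≤ x := by
    have : (k : ℝ) ≤ x := by nlinarith
    exact_mod_cast this
  rw [sum_f]
  simp only [Function.comp] at h3
  rw [← hkdef, le_div_iff₀ hk0] at h3
  have h7 : ∑ p ∈ (Ioc 0 k).filter Nat.Prime, (Real.log d + Real.log x) ≤
      ∑ p ∈ (Ioc 0 x).filter Nat.Prime, ∑ m ∈ Ioc 0 (x - p), 1 / (m : ℝ) := by
    refine (sum_le_sum fun p hp => ?_).trans (sum_le_sum_of_subset_of_nonneg
      (filter_subset_filter _ (Ioc_subset_Ioc_right hkx))
      fun p _ _ => sum_nonneg fun m _ => by positivity)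
    rw [mem_filter, mem_Ioc] at hp
    have h8 := sum_inv_ge 0 (x - p) (Nat.zero_le _)
    simp only [Nat.cast_zero, zero_add, Real.log_one, sub_zero] at h8
    refine le_trans ?_ h8
    rw [← Real.log_mul hd0.ne' hx0.ne']
    refine Real.log_le_log (by positivity) ?_
    have h9 : ((x - p : ℕ) : ℝ) = (x : ℝ) - p := by rw [Nat.cast_sub (by omega)]
    have h10 : (p : ℝ) ≤ k := by exact_mod_cast hp.1.2
    rw [h9]
    nlinarith
  have h4' : ((Ioc 0 k).filter Nat.Prime).card = Nat.primeCounting k := by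
    rw [Nat.primeCounting, Nat.primeCounting', Nat.count_eq_card_filter_range]
    congr 1
    ext p
    simp only [mem_filter, mem_Ioc, mem_range]
    constructor
    · rintro ⟨⟨_, h2⟩, h3⟩
      exact ⟨by omega, h3⟩
    · rintro ⟨h1, h2⟩
      exact ⟨⟨h2.pos, by omega⟩, h2⟩
  rw [sum_const, h4', nsmul_eq_mul] at h7
  refine le_trans ?_ h7
  -- `log d + log x ≥ (1 - d) log x`
  have h11 : (1 - d) * Real.log x ≤ Real.log d + Real.log x := by
    rw [div_le_iff₀ hl0] at h6
    linarith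
  have hpc : (0 : ℝ) ≤ Nat.primeCounting k := Nat.cast_nonneg _
  have hlk : Real.log k ≤ Real.log x := Real.log_le_log hk0 (by exact_mod_cast hkx)
  have h12 : (Nat.primeCounting k : ℝ) * Real.log k ≤ Nat.primeCounting k * Real.log x :=
    mul_le_mul_of_nonneg_left hlk hpc
  have h13 : (1 - d) * (k : ℝ) ≤ Nat.primeCounting k * Real.log x := by linarith
  have h14 : (1 - d) * ((1 - d) * (k : ℝ)) ≤ Nat.primeCounting k * (Real.log d + Real.log x) := by
    calc (1 - d) * ((1 - d) * (k : ℝ)) ≤ (1 - d) * (Nat.primeCounting k * Real.log x) :=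
          mul_le_mul_of_nonneg_left h13 (by linarith)
      _ = Nat.primeCounting k * ((1 - d) * Real.log x) := by ring
      _ ≤ _ := mul_le_mul_of_nonneg_left h11 hpc
  refine le_trans ?_ h14
  have h15 : (1 - 2 * d) * x ≤ k := by nlinarith
  have hη4 : η = 4 * d := by rw [hd]; ring
  rw [hη4]
  have h16 : (1 - 4 * d) * (x : ℝ) ≤ (1 - d) * ((1 - d) * ((1 - 2 * d) * x)) := by
    have : (1 - 4 * d) ≤ (1 - d) * ((1 - d) * (1 - 2 * d)) := by nlinarith [sq_nonneg d]
    calc (1 - 4 * d) * (x : ℝ) ≤ ((1 - d) * ((1 - d) * (1 - 2 * d))) * x :=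
          mul_le_mul_of_nonneg_right this hx0.le
      _ = _ := by ring
  refine h16.trans ?_
  refine mul_le_mul_of_nonneg_left (mul_le_mul_of_nonneg_left h15 (by linarith)) (by linarith)

/-- `f ≥ 1 - o(1)` for almost all `n`. -/
def AlmostAllGe : Prop := ∀ c : ℝ, c < 1 → Tendsto
  (fun x : ℕ => (((Ioc 0 x).filter (fun n => N5dc7309f.f n < c)).card : ℝ) / x) atTop (nhds 0)

/-- `f → 1` in mean. -/
def InMean : Prop := Tendsto
  (fun x : ℕ => (∑ n ∈ Ioc 0 x, |N5dc7309f.f n - 1|) / x) atTop (nhds 0)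

theorem tendsto_zero_of (u : ℕ → ℝ) (h0 : ∀ x, 0 ≤ u x)
    (h : ∀ η : ℝ, 0 < η → ∀ᶠ x in atTop, u x ≤ η) : Tendsto u atTop (nhds 0) := by
  rw [Metric.tendsto_nhds]
  intro η hη
  filter_upwards [h (η / 2) (by linarith)] with x hx
  rw [Real.dist_eq, sub_zero, abs_of_nonneg (h0 x)]
  linarith

theorem inMean_of_almostAll (h : AlmostAllGe) : InMean := by
  refine tendsto_zero_of _ (fun x => div_nonneg (sum_nonneg fun n _ => abs_nonneg _)
    (Nat.cast_nonneg x)) fun η hη => ?_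
  have h1 := (h (1 - η / 8) (by linarith)).eventually
    (eventually_le_nhds (show (0 : ℝ) < η / 8 by linarith))
  filter_upwards [h1, mean_upper (η / 8) (by linarith), eventually_ge_atTop 1] with x h2 h3 h4
  have hx : (0 : ℝ) < x := by exact_mod_cast h4
  rw [div_le_iff₀ hx] at h2 ⊢
  have h5 : ∀ n ∈ Ioc 0 x, |N5dc7309f.f n - 1| ≤ (N5dc7309f.f n - 1) +
      2 * (η / 8 + if N5dc7309f.f n < 1 - η / 8 then 1 else 0) := by
    intro n _
    have h6 := f_nonneg n
    split_ifs with h7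
    · rw [abs_le]
      constructor <;> linarith
    · push Not at h7
      rw [abs_le]
      constructor <;> linarith
  refine (sum_le_sum h5).trans ?_
  rw [sum_add_distrib, ← mul_sum, sum_add_distrib, sum_sub_distrib, ← sum_filter]
  simp only [sum_const, Nat.card_Ioc, nsmul_eq_mul, mul_one, Nat.sub_zero]
  linarith

theorem almostAll_of_inMean (h : InMean) : AlmostAllGe := by
  intro c hc
  refine tendsto_zero_of _ (fun x => div_nonneg (Nat.cast_nonneg _)
    (Nat.cast_nonneg x)) fun η hη => ?_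
  have h1 := h.eventually (eventually_le_nhds (show (0 : ℝ) < η * (1 - c) by
    exact mul_pos hη (by linarith)))
  filter_upwards [h1, eventually_ge_atTop 1] with x h2 h4
  have hx : (0 : ℝ) < x := by exact_mod_cast h4
  rw [div_le_iff₀ hx] at h2 ⊢
  have h5 : (((Ioc 0 x).filter (fun n => N5dc7309f.f n < c)).card : ℝ) * (1 - c) ≤
      ∑ n ∈ Ioc 0 x, |N5dc7309f.f n - 1| := by
    rw [← nsmul_eq_mul, ← sum_const]
    refine (sum_le_sum fun n hn => ?_).trans (sum_le_sum_of_subset_of_nonneg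
      (filter_subset _ _) fun n _ _ => abs_nonneg _)
    rw [mem_filter] at hn
    have := neg_abs_le (N5dc7309f.f n - 1)
    linarith [hn.2]
  have h6 : (((Ioc 0 x).filter (fun n => N5dc7309f.f n < c)).card : ℝ) * (1 - c) ≤
      (η * x) * (1 - c) := by linarith
  exact le_of_mul_le_mul_right h6 (by linarith)

end H63.WP
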