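import Pool.Agent.H63.WP.Two

/-!
# From the mean of `|f - 1|` to primes in almost all short intervals
-/

set_option autoImplicit false

namespace H63.WP

open Finset Filter

/-- the ideal value of `R` -/
noncomputable def Rs (l : ℝ) (M V : ℕ) : ℝ := (∑ U ∈ Ioc V M, 1 / ((U : ℝ) + 1)) / l

theorem Rs_self (l : ℝ) (M : ℕ) : Rs l M M = 0 := by
  unfold Rs
  simp

theorem Rs_step (l : ℝ) (M V : ℕ) (h : V + 1 ≤ M) :
    Rs l M V = Rs l M (V + 1) + 1 / ((V : ℝ) + 2) / l := by
  unfold Rs
  rw [← sum_Ioc_consecutive _ (Nat.le_succ V) h]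
  simp only [Nat.Ioc_succ_singleton, sum_singleton]
  have : (((V + 1 : ℕ) : ℝ) + 1) = (V : ℝ) + 2 := by push_cast; ring
  rw [this]
  ring

theorem sum_inv_ge (V M : ℕ) (h : V ≤ M) :
    Real.log ((M : ℝ) + 1) - Real.log ((V : ℝ) + 1) ≤ ∑ U ∈ Ioc V M, 1 / (U : ℝ) := by
  induction M, h using Nat.le_induction with
  | base => simp
  | succ M hM ih =>
    rw [sum_Ioc_succ_top hM]
    have h1 : (0 : ℝ) < (M : ℝ) + 1 := by positivity
    have h2 : Real.log (((M : ℝ) + 1 + 1) / ((M : ℝ) + 1)) ≤ ((M : ℝ) + 1 + 1) / ((M : ℝ) + 1) - 1 :=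
      Real.log_le_sub_one_of_pos (by positivity)
    rw [Real.log_div (by positivity) h1.ne'] at h2
    have h3 : ((M : ℝ) + 1 + 1) / ((M : ℝ) + 1) - 1 = 1 / ((M : ℝ) + 1) := by
      field_simp
      ring
    push_cast
    linarith

/-- the ideal values add up to `1`, up to `O(1 / l)`. -/
theorem Rs_log (l : ℝ) (hl : 0 < l) (M V : ℕ) (hV : 1 ≤ V) (h : V ≤ M) :
    |Rs l M V + Real.log V / l - Real.log M / l| ≤ 2 / l := by
  have hV0 : (0 : ℝ) < V := by exact_mod_cast hV
  have hM0 : (0 : ℝ) < M := by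
    have : 0 < M := by omega
    exact_mod_cast this
  have e : Rs l M V + Real.log V / l - Real.log M / l =
      (∑ U ∈ Ioc V M, 1 / ((U : ℝ) + 1) + Real.log V - Real.log M) / l := by
    unfold Rs
    ring
  rw [e, abs_div, abs_of_pos hl]
  refine div_le_div_of_nonneg_right ?_ hl.le
  have h1 : ∑ U ∈ Ioc V M, 1 / ((U : ℝ) + 1) ≤ ∑ U ∈ Ioc V M, 1 / (U : ℝ) := by
    refine sum_le_sum fun U hU => ?_
    rw [mem_Ioc] at hU
    have : (0 : ℝ) < U := by
      have : 0 < U := by omega
      exact_mod_cast this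
    exact one_div_le_one_div_of_le this (by linarith)
  have h2 := sum_inv_le V M hV h
  have h3 : ∑ U ∈ Ioc V M, 1 / ((U : ℝ) + 1) = ∑ U ∈ Ioc (V + 1) (M + 1), 1 / (U : ℝ) := by
    refine sum_nbij' (fun U => U + 1) (fun U => U - 1) ?_ ?_ ?_ ?_ ?_
    · intro U hU
      rw [mem_Ioc] at hU ⊢
      omega
    · intro U hU
      rw [mem_Ioc] at hU ⊢
      omega
    · intro U hU
      omega
    · intro U hU
      rw [mem_Ioc] at hU
      omega
    · intro U hU
      push_cast
      rfl
  have h4 := sum_inv_ge (V + 1) (M + 1) (by omega)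
  rw [← h3] at h4
  push_cast at h4
  have h5 : Real.log ((V : ℝ) + 1 + 1) ≤ 2 + Real.log V := by
    have h6 : (V : ℝ) + 1 + 1 ≤ 3 * V := by
      have : (1 : ℝ) ≤ V := by exact_mod_cast hV
      linarith
    have h7 := Real.log_le_log (by positivity) h6
    rw [Real.log_mul (by norm_num) hV0.ne'] at h7
    have h8 : Real.log 3 ≤ 2 := by
      have := Real.log_le_sub_one_of_pos (show (0 : ℝ) < 3 by norm_num)
      linarith
    linarith
  have h9 : Real.log M ≤ Real.log ((M : ℝ) + 1 + 1) := Real.log_le_log hM0 (by linarith)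
  rw [abs_le]
  constructor <;> linarith

/-- THE RECURSION. -/
theorem recursion (x M V0 : ℕ) (l : ℝ) (B : ℝ) (hV0 : 1 ≤ V0)
    (he : ∀ V, V0 < V → V ≤ M →
      ∑ n ∈ Ioc M x, |(R n V - Rs l M V) + Real.log V * (P n V / V - 1 / l)| ≤ B)
    (hM : ∑ n ∈ Ioc M x, |R n M - Rs l M M| ≤ B) :
    ∀ j V, V + j = M → V0 ≤ V → ∑ n ∈ Ioc M x, |R n V - Rs l M V| ≤ B := by
  intro j
  induction j with
  | zero =>
    intro V hV _
    have : V = M := by omega
    subst this
    exact hM
  | succ j ih =>
    intro V hV hW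
    have h1 := ih (V + 1) (by omega) (by omega)
    have h2 := he (V + 1) (by omega) (by omega)
    have hV1 : (0 : ℝ) < (V : ℝ) + 1 := by positivity
    have hV2 : (0 : ℝ) < (V : ℝ) + 2 := by positivity
    have hVR : (1 : ℝ) ≤ V := by exact_mod_cast (show 1 ≤ V by omega)
    have hlog2 : (1 : ℝ) / 2 ≤ Real.log 2 := by
      have := Real.one_sub_inv_le_log_of_pos (show (0 : ℝ) < 2 by norm_num)
      norm_num at this ⊢
      linarith
    have hlog : (1 : ℝ) / 2 ≤ Real.log ((V + 1 : ℕ) : ℝ) := by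
      refine hlog2.trans (Real.log_le_log (by norm_num) ?_)
      push_cast
      linarith
    set lg : ℝ := Real.log ((V + 1 : ℕ) : ℝ) with hlg
    set lam : ℝ := 1 / (((V : ℝ) + 2) * lg) with hlam
    have hlg0 : 0 < lg := by linarith
    have hlam0 : 0 ≤ lam := by positivity
    have hlam1 : lam ≤ 1 := by
      rw [hlam, div_le_one (by positivity)]
      nlinarith
    have hstep : ∀ n ∈ Ioc M x, |R n V - Rs l M V| ≤
        (1 - lam) * |R n (V + 1) - Rs l M (V + 1)| +
          lam * |(R n (V + 1) - Rs l M (V + 1)) +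
            lg * (P n (V + 1) / ((V + 1 : ℕ) : ℝ) - 1 / l)| := by
      intro n hn
      rw [mem_Ioc] at hn
      have e1 := R_step n V (by omega)
      have e2 := Rs_step l M V (by omega)
      have e3 : R n V - Rs l M V = (1 - lam) * (R n (V + 1) - Rs l M (V + 1)) +
          lam * ((R n (V + 1) - Rs l M (V + 1)) +
            lg * (P n (V + 1) / ((V + 1 : ℕ) : ℝ) - 1 / l)) := by
        rw [e1, e2]
        have e4 : lam * (lg * (P n (V + 1) / ((V + 1 : ℕ) : ℝ) - 1 / l)) =
            P n (V + 1) / (((V : ℝ) + 1) * ((V : ℝ) + 2)) - 1 / ((V : ℝ) + 2) / l := by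
          rw [hlam]
          push_cast
          rcases eq_or_ne l 0 with hl | hl
          · subst hl
            field_simp
          · field_simp
        linear_combination -e4
      rw [e3]
      refine (abs_add_le _ _).trans ?_
      rw [abs_mul, abs_mul, abs_of_nonneg hlam0, abs_of_nonneg (show 0 ≤ 1 - lam by linarith)]
    refine (sum_le_sum hstep).trans ?_
    rw [sum_add_distrib, ← mul_sum, ← mul_sum]
    have h3 := mul_le_mul_of_nonneg_left h1 (show 0 ≤ 1 - lam by linarith)
    have h4 := mul_le_mul_of_nonneg_left h2 hlam0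
    calc _ ≤ (1 - lam) * B + lam * B := add_le_add h3 h4
      _ = B := by ring

/-- the mean of `|f - 1|` bounds the mean of the deviations of window means. -/
theorem window_dev (x M V : ℕ) (hV : 1 ≤ V) (hVM : V ≤ M) :
    ∑ n ∈ Ioc M x, |(∑ i ∈ range V, N5dc7309f.f (n - i)) / V - 1| ≤
      ∑ n ∈ Ioc 0 x, |N5dc7309f.f n - 1| := by
  have hV0 : (0 : ℝ) < V := by exact_mod_cast hV
  have h1 : ∀ n ∈ Ioc M x, |(∑ i ∈ range V, N5dc7309f.f (n - i)) / V - 1| ≤
      (∑ i ∈ range V, |N5dc7309f.f (n - i) - 1|) / V := by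
    intro n _
    have e : (∑ i ∈ range V, N5dc7309f.f (n - i)) / V - 1 =
        (∑ i ∈ range V, (N5dc7309f.f (n - i) - 1)) / V := by
      rw [sum_sub_distrib, sum_const, card_range, nsmul_eq_mul, mul_one]
      field_simp
    rw [e, abs_div, abs_of_pos hV0]
    exact div_le_div_of_nonneg_right (abs_sum_le_sum_abs _ _) hV0.le
  refine (sum_le_sum h1).trans ?_
  rw [← sum_div, sum_comm, div_le_iff₀ hV0]
  have h2 : ∀ i ∈ range V, ∑ n ∈ Ioc M x, |N5dc7309f.f (n - i) - 1| ≤
      ∑ n ∈ Ioc 0 x, |N5dc7309f.f n - 1| := by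
    intro i hi
    rw [mem_range] at hi
    have hinj : Set.InjOn (fun n : ℕ => n - i) (Ioc M x : Finset ℕ) := by
      intro n hn n' hn' he
      simp only [coe_Ioc, Set.mem_Ioc] at hn hn'
      simp only at he
      omega
    rw [← sum_image (f := fun n : ℕ => |N5dc7309f.f n - 1|) hinj]
    refine sum_le_sum_of_subset_of_nonneg ?_ fun n _ _ => abs_nonneg _
    intro m hm
    rw [mem_image] at hm
    obtain ⟨n, hn, rfl⟩ := hm
    rw [mem_Ioc] at hn ⊢
    omega
  refine (sum_le_sum h2).trans ?_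
  rw [sum_const, card_range, nsmul_eq_mul, mul_comm]

/-- **primes in almost all short intervals from the mean of `|f - 1|`.** -/
theorem primes_of_mean (s : ℝ) (hs : 0 < s) (d : ℝ) (hd : 0 < d) (hd1 : d ≤ 1) (η : ℝ)
    (hη : 0 < η) : ∀ᶠ x : ℕ in atTop, ∀ V : ℕ, (x : ℝ) ^ s ≤ V → V ≤ ⌊d * x⌋₊ →
      ∑ n ∈ Ioc ⌊d * x⌋₊ x, |P n V * Real.log x / V - 1| ≤
        2 / s * (∑ n ∈ Ioc 0 x, |N5dc7309f.f n - 1| + η * x) := by
  obtain ⟨C, hC, hblock⟩ := block_a
  have hη3 : 0 < η / 3 := by positivity
  filter_upwards [window_err s hs (η / 3) hη3, ev_pow s 2 hs,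
    ev_log (4 + |Real.log (d / 2)|) (η / 3) hη3, ev_log (4 * C / d) η hη, eventually_ge_atTop 2,
    tendsto_natCast_atTop_atTop.eventually_ge_atTop (2 / d)] with x h1 h2 h3 h4 h5 h6
  intro V hVx hVM
  have hx2 : (2 : ℝ) ≤ x := by exact_mod_cast h5
  have hx0 : (0 : ℝ) < x := by linarith
  set l : ℝ := Real.log x with hl
  have hl0 : 0 < l := Real.log_pos (by linarith)
  set M : ℕ := ⌊d * x⌋₊ with hM
  have hdx : 2 ≤ d * x := by
    rw [div_le_iff₀ hd] at h6
    linarith
  have hMle : (M : ℝ) ≤ d * x := Nat.floor_le (by positivity)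
  have hMlt : d * x < M + 1 := Nat.lt_floor_add_one _
  have hMge : d / 2 * x ≤ M := by linarith
  have hM0 : (0 : ℝ) < M := by linarith
  have hMx : M ≤ x := by
    have : (M : ℝ) ≤ x := by nlinarith
    exact_mod_cast this
  set F : ℝ := ∑ n ∈ Ioc 0 x, |N5dc7309f.f n - 1| with hF
  have hF0 : 0 ≤ F := sum_nonneg fun n _ => abs_nonneg _
  set B : ℝ := F + η * x with hB
  set V0 : ℕ := ⌈(x : ℝ) ^ s⌉₊ with hV0def
  have hV0x : (x : ℝ) ^ s ≤ V0 := Nat.le_ceil _
  have hV0V : V0 ≤ V := Nat.ceil_le.2 hVx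
  have hV01 : 1 ≤ V0 := by
    have : (1 : ℝ) ≤ V0 := by linarith
    exact_mod_cast this
  have hcard : (((Ioc M x).card : ℕ) : ℝ) ≤ x := by
    rw [Nat.card_Ioc]
    exact_mod_cast Nat.sub_le x M
  -- the ideal sum
  have hideal : ∀ U, V0 ≤ U → U ≤ M → |Rs l M U + Real.log U / l - 1| ≤ η / 3 := by
    intro U hU1 hU2
    have h7 := Rs_log l hl0 M U (by omega) hU2
    have h8 : |Real.log M / l - 1| ≤ |Real.log (d / 2)| / l := by
      have e : Real.log M / l - 1 = (Real.log M - l) / l := by
        field_simp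
      rw [e, abs_div, abs_of_pos hl0]
      refine div_le_div_of_nonneg_right ?_ hl0.le
      have h9 : Real.log M ≤ l := Real.log_le_log hM0 (by exact_mod_cast hMx)
      have h10 : Real.log (d / 2) + l ≤ Real.log M := by
        rw [hl, ← Real.log_mul (by positivity) hx0.ne']
        exact Real.log_le_log (by positivity) hMge
      rw [abs_of_nonpos (by linarith)]
      have := neg_abs_le (Real.log (d / 2))
      linarith
    have h11 : |Rs l M U + Real.log U / l - 1| ≤ 2 / l + |Real.log (d / 2)| / l := by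
      have e : Rs l M U + Real.log U / l - 1 =
          (Rs l M U + Real.log U / l - Real.log M / l) + (Real.log M / l - 1) := by ring
      rw [e]
      exact (abs_add_le _ _).trans (add_le_add h7 h8)
    refine h11.trans (le_trans ?_ h3)
    rw [← add_div]
    exact div_le_div_of_nonneg_right (by linarith [abs_nonneg (Real.log (d / 2))]) hl0.le
  have he : ∀ U, V0 ≤ U → U ≤ M →
      ∑ n ∈ Ioc M x, |(R n U - Rs l M U) + Real.log U * (P n U / U - 1 / l)| ≤ B := by
    intro U hU1 hU2
    have h7 : ∀ n ∈ Ioc M x, |(R n U - Rs l M U) + Real.log U * (P n U / U - 1 / l)| ≤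
        |(∑ i ∈ range U, N5dc7309f.f (n - i)) / U - 1| + (η / 3 + η / 3) := by
      intro n hn
      rw [mem_Ioc] at hn
      have hUx : (x : ℝ) ^ s ≤ U := hV0x.trans (by exact_mod_cast hU1)
      have h8 := h1 U n hUx (by omega) hn.2
      have h9 := hideal U hU1 hU2
      have e : (R n U - Rs l M U) + Real.log U * (P n U / U - 1 / l) =
          ((∑ i ∈ range U, N5dc7309f.f (n - i)) / U - 1) -
          ((∑ i ∈ range U, N5dc7309f.f (n - i)) / U - (R n U + Real.log U * (P n U / U))) -
          (Rs l M U + Real.log U / l - 1) := by ring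
      rw [e]
      refine (abs_sub _ _).trans ?_
      have := abs_sub ((∑ i ∈ range U, N5dc7309f.f (n - i)) / U - 1)
        ((∑ i ∈ range U, N5dc7309f.f (n - i)) / U - (R n U + Real.log U * (P n U / U)))
      linarith
    refine (sum_le_sum h7).trans ?_
    rw [sum_add_distrib, sum_const, nsmul_eq_mul]
    have h8 := window_dev x M U (by omega) hU2
    have h9 : (((Ioc M x).card : ℕ) : ℝ) * (η / 3 + η / 3) ≤ x * (η / 3 + η / 3) :=
      mul_le_mul_of_nonneg_right hcard (by linarith)
    have h10 : (x : ℝ) * (η / 3 + η / 3) ≤ η * x := by nlinarith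
    rw [hB]
    linarith
  have hMB : ∑ n ∈ Ioc M x, |R n M - Rs l M M| ≤ B := by
    rw [Rs_self]
    have h7 : ∀ n ∈ Ioc M x, |R n M - 0| ≤ η := by
      intro n hn
      rw [mem_Ioc] at hn
      rw [sub_zero]
      have hR0 : 0 ≤ R n M :=
        add_nonneg (y_nonneg n M) (div_nonneg (P_nonneg n M) (by positivity))
      rw [abs_of_nonneg hR0]
      have h8 := hblock n 0 x h5
      rw [zero_add] at h8
      have h9 : P n M ≤ C / l * x := by
        refine le_trans ?_ h8
        exact sum_le_sum_of_subset_of_nonneg (Ioc_subset_Ioc_right hMx)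
          fun m _ _ => a_nonneg n m
      have h10 : y n M ≤ (C / l * x) / M := by
        rw [le_div_iff₀ hM0]
        refine le_trans ?_ h8
        unfold y
        rw [sum_mul]
        calc ∑ m ∈ Ioc M n, a n m / m * M ≤ ∑ m ∈ Ioc M n, a n m := by
              refine sum_le_sum fun m hm => ?_
              rw [mem_Ioc] at hm
              have hm0 : (0 : ℝ) < m := by
                have : 0 < m := by omega
                exact_mod_cast this
              rw [div_mul_eq_mul_div, div_le_iff₀ hm0]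
              exact mul_le_mul_of_nonneg_left (by exact_mod_cast hm.1.le) (a_nonneg n m)
          _ ≤ ∑ m ∈ Ioc 0 x, a n m := by
              refine sum_le_sum_of_subset_of_nonneg ?_ fun m _ _ => a_nonneg n m
              intro m hm
              rw [mem_Ioc] at hm ⊢
              omega
      have h11 : P n M / ((M : ℝ) + 1) ≤ (C / l * x) / M := by
        refine (div_le_div_of_nonneg_left (P_nonneg n M) hM0 (by linarith)).trans ?_
        exact div_le_div_of_nonneg_right h9 hM0.le
      have h12 : (C / l * x) / M ≤ 2 * C / d / l := by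
        rw [div_le_iff₀ hM0]
        have e : 2 * C / d / l * (d / 2 * x) = C / l * x := by
          field_simp
        rw [← e]
        exact mul_le_mul_of_nonneg_left hMge (by positivity)
      have e : 4 * C / d / l = 2 * C / d / l + 2 * C / d / l := by ring
      unfold R
      linarith
    refine (sum_le_sum h7).trans ?_
    rw [sum_const, nsmul_eq_mul]
    have h8 : (((Ioc M x).card : ℕ) : ℝ) * η ≤ x * η := mul_le_mul_of_nonneg_right hcard hη.le
    rw [hB]
    linarith
  have hg := recursion x M V0 l B hV01 (fun U hU1 hU2 => he U hU1.le hU2) hMB (M - V) V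
    (by omega) hV0V
  have hev := he V hV0V hVM
  have hVR2 : (2 : ℝ) ≤ V := h2.trans hVx
  have hV0' : (0 : ℝ) < V := by linarith
  have hlogV : s * l ≤ Real.log V := by
    rw [hl, ← Real.log_rpow hx0]
    exact Real.log_le_log (by positivity) hVx
  have hsum : ∑ n ∈ Ioc M x, Real.log V * |P n V / V - 1 / l| ≤ 2 * B := by
    have h7 : ∀ n ∈ Ioc M x, Real.log V * |P n V / V - 1 / l| ≤
        |(R n V - Rs l M V) + Real.log V * (P n V / V - 1 / l)| + |R n V - Rs l M V| := by
      intro n _
      have hlv : 0 ≤ Real.log V := Real.log_natCast_nonneg V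
      have e : Real.log V * |P n V / V - 1 / l| = |Real.log V * (P n V / V - 1 / l)| := by
        rw [abs_mul, abs_of_nonneg hlv]
      have e2 : Real.log V * (P n V / V - 1 / l) =
          ((R n V - Rs l M V) + Real.log V * (P n V / V - 1 / l)) - (R n V - Rs l M V) := by ring
      rw [e]
      calc |Real.log V * (P n V / V - 1 / l)| =
          |((R n V - Rs l M V) + Real.log V * (P n V / V - 1 / l)) - (R n V - Rs l M V)| := by
            rw [← e2]
        _ ≤ _ := abs_sub _ _
    refine (sum_le_sum h7).trans ?_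
    rw [sum_add_distrib]
    linarith
  have hfin : ∑ n ∈ Ioc M x, |P n V * l / V - 1| =
      l / Real.log V * ∑ n ∈ Ioc M x, Real.log V * |P n V / V - 1 / l| := by
    rw [mul_sum]
    refine sum_congr rfl fun n _ => ?_
    have hlv : 0 < Real.log V := lt_of_lt_of_le (by positivity) hlogV
    have e : P n V * l / V - 1 = l * (P n V / V - 1 / l) := by
      field_simp
    rw [e, abs_mul, abs_of_pos hl0]
    field_simp
  rw [hfin]
  have hlv : 0 < Real.log V := lt_of_lt_of_le (by positivity) hlogV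
  have h8 : l / Real.log V ≤ 1 / s := by
    rw [div_le_div_iff₀ hlv hs]
    linarith
  have hB0 : 0 ≤ 2 * B := by positivity
  calc l / Real.log V * ∑ n ∈ Ioc M x, Real.log V * |P n V / V - 1 / l|
      ≤ l / Real.log V * (2 * B) := mul_le_mul_of_nonneg_left hsum (by positivity)
    _ ≤ 1 / s * (2 * B) := mul_le_mul_of_nonneg_right h8 hB0
    _ = 2 / s * B := by ring

end H63.WP
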