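import Pool.Agent.H63.WP.Back
import Pool.Agent.H5.Short.Second

/-!
# The mean square of `f`
-/

set_option autoImplicit false

namespace H63.WP

open Finset Filter

/-- the sum of `a n m / m` over `m ≤ V`. -/
noncomputable def near (V n : ℕ) : ℝ := ∑ m ∈ Ioc 0 V, a n m / m

theorem near_nonneg (V n : ℕ) : 0 ≤ near V n :=
  sum_nonneg fun m _ => div_nonneg (a_nonneg n m) (Nat.cast_nonneg m)

theorem a_zero {n m : ℕ} (h : n ≤ m) : a n m = 0 := by
  unfold a
  rw [Nat.sub_eq_zero_of_le h, if_neg Nat.not_prime_zero]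

theorem f_eq_near (V n : ℕ) : N5dc7309f.f n = near V n + y n V := by
  have h := f_eq n 0 (Nat.zero_le n)
  rw [Nat.sub_zero] at h
  rw [h]
  unfold near y
  simp only [Nat.cast_zero, sub_zero]
  rcases le_or_gt V n with h1 | h1
  · exact (sum_Ioc_consecutive _ (Nat.zero_le V) h1).symm
  · rw [Ioc_eq_empty (by omega : ¬ V < n), sum_empty, add_zero,
      ← sum_Ioc_consecutive (fun m : ℕ => a n m / (m : ℝ)) (Nat.zero_le n) h1.le,
      left_eq_add]
    refine sum_eq_zero fun m hm => ?_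
    rw [mem_Ioc] at hm
    rw [a_zero hm.1.le, zero_div]

theorem near_abel (V n : ℕ) : near V n =
    ∑ U ∈ Ioc 0 V, P n U / ((U : ℝ) * (U + 1)) + P n V / ((V : ℝ) + 1) := by
  induction V with
  | zero => simp [near, P]
  | succ V ih =>
    unfold near at ih ⊢
    rw [sum_Ioc_succ_top (Nat.zero_le V), ih, sum_Ioc_succ_top (Nat.zero_le V), P_succ]
    push_cast
    have h1 : (V : ℝ) + 1 ≠ 0 := by positivity
    have h2 : (V : ℝ) + 1 + 1 ≠ 0 := by positivity
    field_simp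
    ring

theorem P_second : ∃ D : ℝ, 0 < D ∧ ∀ x U : ℕ, 2 ≤ x → 1 ≤ U → U ≤ x →
    (U : ℝ) ^ 2 * Real.log x ≤ x → ∑ n ∈ Ioc 0 x, P n U ^ 2 ≤
      D * (x * ((U : ℝ) / Real.log x + ((U : ℝ) / Real.log x) ^ 2)) := by
  obtain ⟨C, hC, h⟩ := Pool.Agent.H5.Short.second
  refine ⟨C + 1, by positivity, ?_⟩
  intro x U hx hU hUx hsmall
  have hl : 0 < Real.log x := Real.log_pos (by exact_mod_cast (by omega : 1 < x))
  have h1 := h x U hx hU hUx
  have hUR : (1 : ℝ) ≤ U := by exact_mod_cast hU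
  have hxR : (2 : ℝ) ≤ x := by exact_mod_cast hx
  rw [← sum_Ioc_consecutive _ (Nat.zero_le U) hUx]
  have h2 : ∑ n ∈ Ioc 0 U, P n U ^ 2 ≤ x * ((U : ℝ) / Real.log x) := by
    have h3 : ∀ n ∈ Ioc 0 U, P n U ^ 2 ≤ (U : ℝ) ^ 2 := by
      intro n _
      refine pow_le_pow_left₀ (P_nonneg n U) ?_ 2
      unfold P
      calc ∑ m ∈ Ioc 0 U, a n m ≤ ∑ m ∈ Ioc 0 U, (1 : ℝ) := by
            refine sum_le_sum fun m _ => ?_
            unfold a
            split_ifs <;> norm_num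
        _ = U := by simp
    refine (sum_le_sum h3).trans ?_
    rw [sum_const, Nat.card_Ioc, nsmul_eq_mul, Nat.sub_zero, mul_div_assoc', le_div_iff₀ hl]
    calc (U : ℝ) * (U : ℝ) ^ 2 * Real.log x = (U : ℝ) * ((U : ℝ) ^ 2 * Real.log x) := by ring
      _ ≤ (U : ℝ) * x := mul_le_mul_of_nonneg_left hsmall (by linarith)
      _ = (x : ℝ) * U := by ring
  have h4 : ∑ n ∈ Ioc U x, P n U ^ 2 ≤ ∑ n ∈ range x, (Pool.Agent.H5.Short.pc n U : ℝ) ^ 2 := by
    have h5 : ∑ n ∈ Ioc U x, P n U ^ 2 =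
        ∑ n ∈ range (x - U), (Pool.Agent.H5.Short.pc n U : ℝ) ^ 2 := by
      refine sum_nbij' (fun n => n - U - 1) (fun k => k + U + 1) ?_ ?_ ?_ ?_ ?_
      · intro n hn
        rw [mem_Ioc] at hn
        rw [mem_range]
        omega
      · intro k hk
        rw [mem_range] at hk
        rw [mem_Ioc]
        omega
      · intro n hn
        rw [mem_Ioc] at hn
        omega
      · intro k hk
        omega
      · intro n hn
        rw [mem_Ioc] at hn
        rw [P_eq]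
        unfold Pool.Agent.H5.Short.pc
        congr 4
        ext p
        rw [mem_Ico, mem_Ioc]
        omega
    rw [h5]
    exact sum_le_sum_of_subset_of_nonneg (range_mono (Nat.sub_le x U))
      fun n _ _ => by positivity
  have h6 : C * ((U : ℝ) * x / Real.log x + (U : ℝ) ^ 2 * x / (Real.log x) ^ 2) =
      C * (x * ((U : ℝ) / Real.log x + ((U : ℝ) / Real.log x) ^ 2)) := by
    field_simp
  rw [h6] at h1
  have h7 : 0 ≤ (x : ℝ) * ((U : ℝ) / Real.log x) ^ 2 := by positivity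
  calc ∑ n ∈ Ioc 0 U, P n U ^ 2 + ∑ n ∈ Ioc U x, P n U ^ 2
      ≤ x * ((U : ℝ) / Real.log x) +
        C * (x * ((U : ℝ) / Real.log x + ((U : ℝ) / Real.log x) ^ 2)) :=
        add_le_add h2 (h4.trans h1)
    _ ≤ _ := by nlinarith

/-- the size of the number of primes in a window of length `U`, `l = log x`. -/
noncomputable def lam (l : ℝ) (U : ℕ) : ℝ := √((U : ℝ) / l) + (U : ℝ) / l

theorem lam_pos (l : ℝ) (hl : 0 < l) (U : ℕ) (hU : 1 ≤ U) : 0 < lam l U := by
  have : (0 : ℝ) < U := by exact_mod_cast hU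
  unfold lam
  positivity

theorem le_lam_sq (l : ℝ) (hl : 0 < l) (U : ℕ) :
    (U : ℝ) / l + ((U : ℝ) / l) ^ 2 ≤ lam l U ^ 2 := by
  unfold lam
  have h0 : 0 ≤ (U : ℝ) / l := by positivity
  have h1 := Real.sq_sqrt h0
  have h2 : 0 ≤ √((U : ℝ) / l) * ((U : ℝ) / l) := by positivity
  nlinarith

theorem sum_inv_sqrt (V : ℕ) :
    ∑ U ∈ Ioc 0 V, √(U : ℝ) / ((U : ℝ) * (U + 1)) ≤ 2 - 2 / √((V : ℝ) + 1) := by
  induction V with
  | zero => simp
  | succ V ih =>
    rw [sum_Ioc_succ_top (Nat.zero_le V)]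
    push_cast
    set p : ℝ := √((V : ℝ) + 1) with hp
    set q : ℝ := √((V : ℝ) + 1 + 1) with hq
    have hp2 : p ^ 2 = (V : ℝ) + 1 := Real.sq_sqrt (by positivity)
    have hq2 : q ^ 2 = (V : ℝ) + 1 + 1 := Real.sq_sqrt (by positivity)
    have hp0 : 0 < p := Real.sqrt_pos.2 (by positivity)
    have hq0 : 0 < q := Real.sqrt_pos.2 (by positivity)
    have hpq : p ≤ q := Real.sqrt_le_sqrt (by linarith)
    have h1 : p / (((V : ℝ) + 1) * ((V : ℝ) + 1 + 1)) ≤ 2 / p - 2 / q := by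
      rw [← hq2, ← hp2, div_sub_div _ _ hp0.ne' hq0.ne', div_le_div_iff₀ (by positivity)
        (by positivity)]
      have h2 : (q - p) * (q + p) = 1 := by nlinarith
      have h3 : 1 ≤ 2 * q * (q - p) := by nlinarith [mul_nonneg (sub_nonneg.2 hpq) (sub_nonneg.2 hpq)]
      have h4 : p * (p * q) * 1 ≤ p * (p * q) * (2 * q * (q - p)) :=
        mul_le_mul_of_nonneg_left h3 (by positivity)
      nlinarith
    linarith

theorem sum_lam (l : ℝ) (hl : 0 < l) (V : ℕ) (hV : 1 ≤ V) :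
    ∑ U ∈ Ioc 0 V, lam l U / ((U : ℝ) * (U + 1)) ≤ 2 / √l + (1 + Real.log V) / l := by
  have h1 : ∀ U ∈ Ioc 0 V, lam l U / ((U : ℝ) * (U + 1)) ≤
      (1 / √l) * (√(U : ℝ) / ((U : ℝ) * (U + 1))) + (1 / l) * (1 / (U : ℝ)) := by
    intro U hU
    rw [mem_Ioc] at hU
    have hU0 : (0 : ℝ) < U := by exact_mod_cast hU.1
    unfold lam
    rw [Real.sqrt_div' _ hl.le, add_div]
    refine add_le_add (le_of_eq ?_) ?_
    · rw [div_div, div_mul_div_comm, one_mul]
    · rw [div_div, div_mul_div_comm, one_mul, div_le_div_iff₀ (by positivity) (by positivity)]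
      nlinarith [mul_pos hl hU0, mul_pos (mul_pos hl hU0) hU0]
  refine (sum_le_sum h1).trans ?_
  rw [sum_add_distrib, ← mul_sum, ← mul_sum]
  have h2 := sum_inv_sqrt V
  have h3 := har_Ioc_le V hV
  have hs : 0 < √l := Real.sqrt_pos.2 hl
  have h4 : 0 ≤ 2 / √((V : ℝ) + 1) := by positivity
  have h5 : (1 / √l) * ∑ U ∈ Ioc 0 V, √(U : ℝ) / ((U : ℝ) * (U + 1)) ≤ (1 / √l) * 2 :=
    mul_le_mul_of_nonneg_left (by linarith) (by positivity)
  have h6 := mul_le_mul_of_nonneg_left h3 (show 0 ≤ 1 / l by positivity)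
  calc _ ≤ (1 / √l) * 2 + (1 / l) * (1 + Real.log V) := add_le_add h5 h6
    _ = _ := by ring

theorem lam_last (l : ℝ) (hl : 0 < l) (V : ℕ) (hV : 1 ≤ V) :
    lam l V / ((V : ℝ) + 1) ≤ 1 / √l + 1 / l := by
  have hV0 : (1 : ℝ) ≤ V := by exact_mod_cast hV
  have hs : 0 < √l := Real.sqrt_pos.2 hl
  unfold lam
  rw [Real.sqrt_div' _ hl.le, add_div]
  refine add_le_add ?_ ?_
  · rw [div_div, div_le_div_iff₀ (by positivity) hs, one_mul]
    have h1 : √(V : ℝ) ≤ V + 1 := by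
      rw [Real.sqrt_le_left (by linarith)]
      nlinarith
    nlinarith
  · rw [div_div, div_le_div_iff₀ (by positivity) hl, one_mul]
    nlinarith

/-- the second moment of the near part. -/
theorem near_second : ∃ D : ℝ, 0 < D ∧ ∀ x V : ℕ, 2 ≤ x → 1 ≤ V → V ≤ x →
    (V : ℝ) ^ 2 * Real.log x ≤ x → ∑ n ∈ Ioc 0 x, near V n ^ 2 ≤
      D * x * ((2 / √(Real.log x) + (1 + Real.log V) / Real.log x) ^ 2 +
        (1 / √(Real.log x) + 1 / Real.log x) ^ 2) := by
  obtain ⟨D, hD, h⟩ := P_second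
  refine ⟨2 * D, by positivity, ?_⟩
  intro x V hx hV hVx hsmall
  have hl : 0 < Real.log x := Real.log_pos (by exact_mod_cast (by omega : 1 < x))
  set l : ℝ := Real.log x with hldef
  have hx0 : (0 : ℝ) < x := by exact_mod_cast (by omega : 0 < x)
  -- the second moments
  have h1 : ∀ U ∈ Ioc 0 V, ∑ n ∈ Ioc 0 x, P n U ^ 2 ≤ D * (x * lam l U ^ 2) := by
    intro U hU
    rw [mem_Ioc] at hU
    have hUV : (U : ℝ) ≤ V := by exact_mod_cast hU.2
    refine (h x U hx hU.1 (hU.2.trans hVx) ?_).trans ?_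
    · refine le_trans ?_ hsmall
      exact mul_le_mul_of_nonneg_right (pow_le_pow_left₀ (Nat.cast_nonneg U) hUV 2) hl.le
    · exact mul_le_mul_of_nonneg_left (mul_le_mul_of_nonneg_left (le_lam_sq l hl U) hx0.le) hD.le
  -- Cauchy - Schwarz
  have h2 : ∀ n, near V n ^ 2 ≤
      2 * ((∑ U ∈ Ioc 0 V, lam l U / ((U : ℝ) * (U + 1))) *
        ∑ U ∈ Ioc 0 V, P n U ^ 2 / (lam l U * ((U : ℝ) * (U + 1)))) +
      2 * (P n V ^ 2 / ((V : ℝ) + 1) ^ 2) := by
    intro n
    rw [near_abel]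
    have h3 : (∑ U ∈ Ioc 0 V, P n U / ((U : ℝ) * (U + 1))) ^ 2 ≤
        (∑ U ∈ Ioc 0 V, lam l U / ((U : ℝ) * (U + 1))) *
        ∑ U ∈ Ioc 0 V, P n U ^ 2 / (lam l U * ((U : ℝ) * (U + 1))) := by
      refine sum_sq_le_sum_mul_sum_of_sq_le_mul _ ?_ ?_ ?_
      · intro U hU
        rw [mem_Ioc] at hU
        have := lam_pos l hl U hU.1
        positivity
      · intro U hU
        rw [mem_Ioc] at hU
        have := lam_pos l hl U hU.1
        positivity
      · intro U hU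
        rw [mem_Ioc] at hU
        have := lam_pos l hl U hU.1
        have hU0 : (0 : ℝ) < U := by exact_mod_cast hU.1
        refine le_of_eq ?_
        field_simp
    have h4 := add_sq_le (a := ∑ U ∈ Ioc 0 V, P n U / ((U : ℝ) * (U + 1)))
      (b := P n V / ((V : ℝ) + 1))
    rw [div_pow] at h4
    linarith
  have h5 : ∑ n ∈ Ioc 0 x, near V n ^ 2 ≤
      2 * ((∑ U ∈ Ioc 0 V, lam l U / ((U : ℝ) * (U + 1))) *
        (∑ U ∈ Ioc 0 V, D * (x * lam l U ^ 2) / (lam l U * ((U : ℝ) * (U + 1))))) +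
      2 * (D * (x * lam l V ^ 2) / ((V : ℝ) + 1) ^ 2) := by
    refine (sum_le_sum fun n _ => h2 n).trans ?_
    rw [sum_add_distrib, ← mul_sum, ← mul_sum, ← mul_sum, ← sum_div, sum_comm]
    have hS : 0 ≤ ∑ U ∈ Ioc 0 V, lam l U / ((U : ℝ) * (U + 1)) := by
      refine sum_nonneg fun U hU => ?_
      rw [mem_Ioc] at hU
      have := lam_pos l hl U hU.1
      positivity
    refine add_le_add ?_ ?_
    · refine mul_le_mul_of_nonneg_left (mul_le_mul_of_nonneg_left ?_ hS) (by norm_num)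
      refine sum_le_sum fun U hU => ?_
      rw [← sum_div]
      have hU' := hU
      rw [mem_Ioc] at hU'
      have := lam_pos l hl U hU'.1
      exact div_le_div_of_nonneg_right (h1 U hU) (by positivity)
    · refine mul_le_mul_of_nonneg_left ?_ (by norm_num)
      exact div_le_div_of_nonneg_right (h1 V (by rw [mem_Ioc]; exact ⟨hV, le_rfl⟩)) (by positivity)
  have h6 : ∑ U ∈ Ioc 0 V, D * (x * lam l U ^ 2) / (lam l U * ((U : ℝ) * (U + 1))) =
      D * x * ∑ U ∈ Ioc 0 V, lam l U / ((U : ℝ) * (U + 1)) := by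
    rw [mul_sum]
    refine sum_congr rfl fun U hU => ?_
    rw [mem_Ioc] at hU
    have := lam_pos l hl U hU.1
    have hU0 : (0 : ℝ) < U := by exact_mod_cast hU.1
    field_simp
  rw [h6] at h5
  have h7 := sum_lam l hl V hV
  have h8 := lam_last l hl V hV
  have hS : 0 ≤ ∑ U ∈ Ioc 0 V, lam l U / ((U : ℝ) * (U + 1)) := by
    refine sum_nonneg fun U hU => ?_
    rw [mem_Ioc] at hU
    have := lam_pos l hl U hU.1
    positivity
  have hT : 0 ≤ lam l V / ((V : ℝ) + 1) := by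
    have := lam_pos l hl V hV
    positivity
  have h9 := pow_le_pow_left₀ hS h7 2
  have h10 := pow_le_pow_left₀ hT h8 2
  have hDx : 0 ≤ 2 * D * x := by positivity
  have h11 := mul_le_mul_of_nonneg_left (add_le_add h9 h10) hDx
  refine le_trans (h5.trans (le_of_eq ?_)) h11
  rw [div_pow (lam l V)]
  ring

/-- the mean square of `f` tends to `1`. -/
def MeanSquare : Prop := Tendsto
  (fun x : ℕ => (∑ n ∈ Ioc 0 x, N5dc7309f.f n ^ 2) / x) atTop (nhds 1)

theorem sum_sq_sub (x : ℕ) : ∑ n ∈ Ioc 0 x, (N5dc7309f.f n - 1) ^ 2 =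
    ∑ n ∈ Ioc 0 x, N5dc7309f.f n ^ 2 - 2 * ∑ n ∈ Ioc 0 x, N5dc7309f.f n + x := by
  have h : ∀ n ∈ Ioc 0 x, (N5dc7309f.f n - 1) ^ 2 =
      N5dc7309f.f n ^ 2 - 2 * N5dc7309f.f n + 1 := fun n _ => by ring
  rw [sum_congr rfl h, sum_add_distrib, sum_sub_distrib, ← mul_sum]
  simp

theorem inMean_of_meanSquare (h : MeanSquare) : InMean := by
  refine tendsto_zero_of _ (fun x => div_nonneg (sum_nonneg fun n _ => abs_nonneg _)
    (Nat.cast_nonneg x)) fun η hη => ?_
  set t : ℝ := η ^ 2 / 3 with ht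
  have ht0 : 0 < t := by positivity
  filter_upwards [h.eventually (eventually_le_nhds (show (1 : ℝ) < 1 + t by linarith)),
    mean_lower t ht0, eventually_ge_atTop 1] with x h1 h2 h3
  have hx : (0 : ℝ) < x := by exact_mod_cast h3
  rw [div_le_iff₀ hx] at h1 ⊢
  have h4 := sum_sq_sub x
  have h5 : ∑ n ∈ Ioc 0 x, (N5dc7309f.f n - 1) ^ 2 ≤ η ^ 2 * x := by
    rw [h4]
    have : η ^ 2 * (x : ℝ) = 3 * (t * x) := by rw [ht]; ring
    rw [this]
    linarith
  have h6 : ∀ n ∈ Ioc 0 x, |N5dc7309f.f n - 1| ≤ η / 2 + (N5dc7309f.f n - 1) ^ 2 / (2 * η) := by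
    intro n _
    rw [← sq_abs (N5dc7309f.f n - 1)]
    set u : ℝ := |N5dc7309f.f n - 1|
    rw [div_add_div _ _ (by norm_num) (by positivity), le_div_iff₀ (by positivity)]
    nlinarith [sq_nonneg (u - η)]
  refine (sum_le_sum h6).trans ?_
  rw [sum_add_distrib, ← sum_div _ _ (2 * η)]
  simp only [sum_const, Nat.card_Ioc, nsmul_eq_mul, Nat.sub_zero]
  have h7 : (∑ n ∈ Ioc 0 x, (N5dc7309f.f n - 1) ^ 2) / (2 * η) ≤ η ^ 2 * x / (2 * η) :=
    div_le_div_of_nonneg_right h5 (by positivity)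
  have h8 : η ^ 2 * x / (2 * η) = η * x / 2 := by field_simp
  rw [h8] at h7
  linarith

/-- the near part is small in mean square. -/
theorem near_small (η : ℝ) (hη : 0 < η) : ∃ s : ℝ, 0 < s ∧ s < 1 ∧ ∀ᶠ x : ℕ in atTop,
    ∑ n ∈ Ioc 0 x, near ⌈(x : ℝ) ^ s⌉₊ n ^ 2 ≤ η * x := by
  obtain ⟨D, hD, h⟩ := near_second
  set s : ℝ := min (1 / 4) (√(η / (5 * D)) / 2) with hs
  have hs0 : 0 < s := by
    rw [hs]
    have : 0 < √(η / (5 * D)) := Real.sqrt_pos.2 (by positivity)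
    exact lt_min (by norm_num) (by positivity)
  have hs4 : s ≤ 1 / 4 := min_le_left _ _
  have hsη : 5 * D * (2 * s) ^ 2 ≤ η := by
    have h1 : 2 * s ≤ √(η / (5 * D)) := by
      have := min_le_right (1 / 4 : ℝ) (√(η / (5 * D)) / 2)
      rw [← hs] at this
      linarith
    have h2 : (2 * s) ^ 2 ≤ η / (5 * D) := by
      have h3 := pow_le_pow_left₀ (by positivity) h1 2
      rwa [Real.sq_sqrt (by positivity)] at h3
    rw [le_div_iff₀ (by positivity)] at h2
    linarith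
  refine ⟨s, hs0, by linarith, ?_⟩
  have hsq : ∀ᶠ x : ℕ in atTop, 1 / √(Real.log (x : ℝ)) ≤ s / 4 := by
    have h1 : Tendsto (fun x : ℕ => √(Real.log (x : ℝ))) atTop atTop :=
      Real.tendsto_sqrt_atTop.comp (Real.tendsto_log_atTop.comp tendsto_natCast_atTop_atTop)
    filter_upwards [h1.eventually_ge_atTop (4 / s)] with x hx
    have h2 : 0 < 4 / s := by positivity
    rw [div_le_iff₀ (by linarith)]
    rw [div_le_iff₀ hs0] at hx
    linarith
  filter_upwards [hsq, ev_log 2 (s / 4) (by positivity), ev_pow s 1 hs0, eventually_ge_atTop 3,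
    ev_log_pow 4 (1 / 2) (by norm_num)] with x h1 h2 h3 h4 h6
  have hxR : (3 : ℝ) ≤ x := by exact_mod_cast h4
  have hx0 : (0 : ℝ) < x := by linarith
  have hl : 0 < Real.log x := Real.log_pos (by linarith)
  set V : ℕ := ⌈(x : ℝ) ^ s⌉₊ with hV
  have hVge : (x : ℝ) ^ s ≤ V := Nat.le_ceil _
  have hVlt : (V : ℝ) < (x : ℝ) ^ s + 1 := Nat.ceil_lt_add_one (by linarith)
  have hV1 : 1 ≤ V := by
    have : (1 : ℝ) ≤ V := h3.trans hVge
    exact_mod_cast this
  have hVR : (1 : ℝ) ≤ V := by exact_mod_cast hV1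
  have hV2 : (V : ℝ) ≤ 2 * (x : ℝ) ^ s := by linarith
  have hx4 : (x : ℝ) ^ s ≤ (x : ℝ) ^ (1 / 4 : ℝ) :=
    Real.rpow_le_rpow_of_exponent_le (by linarith) hs4
  have hhalf : (x : ℝ) ^ (1 / 2 : ℝ) * (x : ℝ) ^ (1 / 2 : ℝ) = x := by
    rw [← Real.rpow_add hx0]
    norm_num
  have hquart : (x : ℝ) ^ (1 / 4 : ℝ) * (x : ℝ) ^ (1 / 4 : ℝ) = (x : ℝ) ^ (1 / 2 : ℝ) := by
    rw [← Real.rpow_add hx0]
    norm_num
  have hq0 : 0 < (x : ℝ) ^ (1 / 4 : ℝ) := by positivity
  have hh0 : 0 < (x : ℝ) ^ (1 / 2 : ℝ) := by positivity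
  have hVq : (V : ℝ) ^ 2 ≤ 4 * (x : ℝ) ^ (1 / 2 : ℝ) := by
    have h7 : (V : ℝ) ≤ 2 * (x : ℝ) ^ (1 / 4 : ℝ) := by linarith
    calc (V : ℝ) ^ 2 ≤ (2 * (x : ℝ) ^ (1 / 4 : ℝ)) ^ 2 := pow_le_pow_left₀ (by linarith) h7 2
      _ = 4 * ((x : ℝ) ^ (1 / 4 : ℝ) * (x : ℝ) ^ (1 / 4 : ℝ)) := by ring
      _ = _ := by rw [hquart]
  have hsmall : (V : ℝ) ^ 2 * Real.log x ≤ x := by
    calc (V : ℝ) ^ 2 * Real.log x ≤ 4 * (x : ℝ) ^ (1 / 2 : ℝ) * Real.log x :=
          mul_le_mul_of_nonneg_right hVq hl.le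
      _ = (x : ℝ) ^ (1 / 2 : ℝ) * (4 * Real.log x) := by ring
      _ ≤ (x : ℝ) ^ (1 / 2 : ℝ) * (x : ℝ) ^ (1 / 2 : ℝ) :=
          mul_le_mul_of_nonneg_left (by linarith) hh0.le
      _ = x := hhalf
  have hVx : V ≤ x := by
    have h7 : (V : ℝ) ≤ x := by
      calc (V : ℝ) ≤ (V : ℝ) ^ 2 := by nlinarith
        _ ≤ 4 * (x : ℝ) ^ (1 / 2 : ℝ) := hVq
        _ ≤ (x : ℝ) ^ (1 / 2 : ℝ) * (x : ℝ) ^ (1 / 2 : ℝ) := by nlinarith
        _ = x := hhalf
    exact_mod_cast h7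
  refine (h x V (by omega) hV1 hVx hsmall).trans ?_
  have hlV : Real.log V ≤ 1 + s * Real.log x := by
    have h7 : Real.log V ≤ Real.log (2 * (x : ℝ) ^ s) := Real.log_le_log (by linarith) hV2
    rw [Real.log_mul (by norm_num) (by linarith), Real.log_rpow hx0] at h7
    have h8 : Real.log 2 ≤ 1 := by
      have := Real.log_two_lt_d9
      linarith
    linarith
  have h9 : (1 + Real.log V) / Real.log x ≤ s / 4 + s := by
    have h10 : (1 + Real.log V) / Real.log x ≤ (2 + s * Real.log x) / Real.log x :=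
      div_le_div_of_nonneg_right (by linarith) hl.le
    have h11 : (2 + s * Real.log x) / Real.log x = 2 / Real.log x + s := by
      field_simp
    linarith
  have h12 : 1 / Real.log x ≤ 2 / Real.log x := div_le_div_of_nonneg_right (by norm_num) hl.le
  have hsl : 0 < √(Real.log (x : ℝ)) := Real.sqrt_pos.2 hl
  have h13 : 2 / √(Real.log (x : ℝ)) = 2 * (1 / √(Real.log (x : ℝ))) := by ring
  have hlV0 : 0 ≤ Real.log V := Real.log_natCast_nonneg V
  have h14 : (2 / √(Real.log (x : ℝ)) + (1 + Real.log V) / Real.log x) ^ 2 ≤ (2 * s) ^ 2 :=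
    pow_le_pow_left₀ (by positivity) (by rw [h13]; linarith) 2
  have h15 : (1 / √(Real.log (x : ℝ)) + 1 / Real.log x) ^ 2 ≤ (2 * s) ^ 2 :=
    pow_le_pow_left₀ (by positivity) (by linarith) 2
  calc _ ≤ D * x * ((2 * s) ^ 2 + (2 * s) ^ 2) :=
        mul_le_mul_of_nonneg_left (add_le_add h14 h15) (by positivity)
    _ = (2 * D * (2 * s) ^ 2) * x := by ring
    _ ≤ η * x := by
      refine mul_le_mul_of_nonneg_right ?_ hx0.le
      have : 0 ≤ D * (2 * s) ^ 2 := by positivity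
      linarith

theorem meanSquare_of_inMean (h : InMean) : MeanSquare := by
  -- the mean square of `f - 1`
  have hkey : ∀ η : ℝ, 0 < η → ∀ᶠ x : ℕ in atTop,
      ∑ n ∈ Ioc 0 x, (N5dc7309f.f n - 1) ^ 2 ≤ η * x := by
    intro η hη
    obtain ⟨s, hs0, hs1, hnear⟩ := near_small (η / 8) (by positivity)
    obtain ⟨B', hB'⟩ := far_bdd s hs0 hs1
    obtain ⟨n0, hn0⟩ := eventually_atTop.1 hB'
    set B : ℝ := max B' 1 with hB
    have hB1 : 1 ≤ B := le_max_right _ _
    have h1 := h.eventually (eventually_le_nhds (show (0 : ℝ) < η / (4 * B) by positivity))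
    filter_upwards [hnear, h1, ev_pow s n0 hs0, eventually_ge_atTop 1] with x h2 h3 h4 h5
    have hx : (0 : ℝ) < x := by exact_mod_cast h5
    rw [div_le_iff₀ hx] at h3
    set V : ℕ := ⌈(x : ℝ) ^ s⌉₊ with hV
    have hVge : (x : ℝ) ^ s ≤ V := Nat.le_ceil _
    have hfar : ∀ n ∈ Ioc 0 x, y n V ≤ B := by
      intro n hn
      rw [mem_Ioc] at hn
      rcases le_or_gt n V with h6 | h6
      · unfold y
        rw [Ioc_eq_empty (by omega : ¬ V < n), sum_empty]
        linarith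
      · have h7 : n0 ≤ n := by
          have h8 : (n0 : ℝ) ≤ V := h4.trans hVge
          have h9 : n0 ≤ V := by exact_mod_cast h8
          omega
        refine (y_le_far s n V ?_).trans ((hn0 n h7).trans (le_max_left _ _))
        refine le_trans ?_ hVge
        exact Real.rpow_le_rpow (Nat.cast_nonneg n) (by exact_mod_cast hn.2) hs0.le
    have hpt : ∀ n ∈ Ioc 0 x, (N5dc7309f.f n - 1) ^ 2 ≤
        2 * B * |N5dc7309f.f n - 1| + 4 * near V n ^ 2 := by
      intro n hn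
      have h6 := hfar n hn
      have h7 := f_eq_near V n
      have h8 := near_nonneg V n
      have h9 := y_nonneg n V
      have h10 := f_nonneg n
      rcases le_or_gt (N5dc7309f.f n) (2 * B) with h11 | h11
      · have h12 : |N5dc7309f.f n - 1| ≤ 2 * B := by
          rw [abs_le]
          constructor <;> linarith
        have h13 : (N5dc7309f.f n - 1) ^ 2 ≤ 2 * B * |N5dc7309f.f n - 1| := by
          rw [← sq_abs, sq]
          exact mul_le_mul_of_nonneg_right h12 (abs_nonneg _)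
        have h14 : 0 ≤ 4 * near V n ^ 2 := by positivity
        linarith
      · have h12 : N5dc7309f.f n - 1 ≤ 2 * near V n := by linarith
        have h13 : (N5dc7309f.f n - 1) ^ 2 ≤ (2 * near V n) ^ 2 :=
          pow_le_pow_left₀ (by linarith) h12 2
        have h14 : 0 ≤ 2 * B * |N5dc7309f.f n - 1| := by positivity
        linarith
    refine (sum_le_sum hpt).trans ?_
    rw [sum_add_distrib, ← mul_sum, ← mul_sum]
    have h6 : 2 * B * ∑ n ∈ Ioc 0 x, |N5dc7309f.f n - 1| ≤ 2 * B * (η / (4 * B) * x) :=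
      mul_le_mul_of_nonneg_left h3 (by positivity)
    have h7 : 2 * B * (η / (4 * B) * x) = η / 2 * x := by
      field_simp
      norm_num
    linarith
  unfold MeanSquare
  rw [Metric.tendsto_nhds]
  intro η hη
  filter_upwards [hkey (η / 8) (by positivity), mean_upper (η / 8) (by positivity),
    mean_lower (η / 8) (by positivity), eventually_ge_atTop 1] with x h1 h2 h3 h4
  have hx : (0 : ℝ) < x := by exact_mod_cast h4
  have h5 := sum_sq_sub x
  have h6 : 0 ≤ ∑ n ∈ Ioc 0 x, (N5dc7309f.f n - 1) ^ 2 := sum_nonneg fun n _ => sq_nonneg _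
  have hηx : 0 < η * x := by positivity
  rw [Real.dist_eq, abs_lt]
  constructor
  · rw [lt_sub_iff_add_lt, lt_div_iff₀ hx]
    nlinarith
  · rw [sub_lt_iff_lt_add, div_lt_iff₀ hx]
    nlinarith

theorem almostAll_of_low (h : low N5dc7309f.f = 1) : AlmostAllGe := by
  intro c hc
  have h1 : (c : EReal) < low N5dc7309f.f := by
    rw [h]
    exact_mod_cast hc
  obtain ⟨n0, hn0⟩ := eventually_atTop.1 (ev_of_lt_low h1)
  refine tendsto_zero_of _ (fun x => div_nonneg (Nat.cast_nonneg _)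
    (Nat.cast_nonneg x)) fun η hη => ?_
  filter_upwards [eventually_ge_atTop 1,
    tendsto_natCast_atTop_atTop.eventually_ge_atTop (n0 / η)] with x h2 h3
  have hx : (0 : ℝ) < x := by exact_mod_cast h2
  rw [div_le_iff₀ hη] at h3
  rw [div_le_iff₀ hx]
  have h4 : ((Ioc 0 x).filter (fun n => N5dc7309f.f n < c)) ⊆ range n0 := by
    intro n hn
    rw [mem_filter] at hn
    rw [mem_range]
    by_contra h5
    push Not at h5
    exact absurd hn.2 (not_lt.2 (hn0 n h5).le)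
  have h5 := card_le_card h4
  rw [card_range] at h5
  have h6 : (((Ioc 0 x).filter (fun n => N5dc7309f.f n < c)).card : ℝ) ≤ n0 := by
    exact_mod_cast h5
  linarith

end H63.WP
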