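import Pool.Agent.H63.WP.Lim

/-!
# The two-sided window identity
-/

set_option autoImplicit false

namespace H63.WP

open Finset Filter

theorem sum_log_le (V : ℕ) : ∑ m ∈ Ioc 0 V, (Real.log V - Real.log m) ≤ V := by
  induction V with
  | zero => simp
  | succ V ih =>
    rcases Nat.eq_zero_or_pos V with h | h
    · subst h
      simp
    · have hV : (0 : ℝ) < V := by exact_mod_cast h
      rw [sum_Ioc_succ_top (Nat.zero_le V), sub_self, add_zero]
      have h1 : ∑ m ∈ Ioc 0 V, (Real.log ((V + 1 : ℕ) : ℝ) - Real.log m) =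
          ∑ m ∈ Ioc 0 V, (Real.log V - Real.log m) +
            V * (Real.log ((V + 1 : ℕ) : ℝ) - Real.log V) := by
        have h2 : ∑ m ∈ Ioc 0 V, (Real.log ((V + 1 : ℕ) : ℝ) - Real.log V) =
            V * (Real.log ((V + 1 : ℕ) : ℝ) - Real.log V) := by
          rw [sum_const, Nat.card_Ioc, nsmul_eq_mul, Nat.sub_zero]
        rw [← h2, ← sum_add_distrib]
        exact sum_congr rfl fun m _ => by ring
      rw [h1]
      have h3 : Real.log ((V + 1 : ℕ) : ℝ) - Real.log V ≤ 1 / V := by
        rw [← Real.log_div (by positivity) hV.ne']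
        have h4 := Real.log_le_sub_one_of_pos (show (0 : ℝ) < ((V + 1 : ℕ) : ℝ) / V by positivity)
        have h5 : ((V + 1 : ℕ) : ℝ) / V - 1 = 1 / V := by
          push_cast
          field_simp
          ring
        linarith
      have h6 : (V : ℝ) * (Real.log ((V + 1 : ℕ) : ℝ) - Real.log V) ≤ 1 := by
        calc (V : ℝ) * (Real.log ((V + 1 : ℕ) : ℝ) - Real.log V) ≤ V * (1 / V) :=
              mul_le_mul_of_nonneg_left h3 hV.le
          _ = 1 := by field_simp
      push_cast at h6 ⊢
      linarith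

theorem har_ge (m : ℕ) : Real.log m ≤ ∑ i ∈ range m, 1 / ((m : ℝ) - i) := by
  rcases Nat.eq_zero_or_pos m with h | hm
  · subst h
    simp
  have h := log_add_one_le_harmonic m
  have hm0 : (0 : ℝ) < m := by exact_mod_cast hm
  have h1 : Real.log m ≤ Real.log ((m : ℝ) + 1) := Real.log_le_log hm0 (by linarith)
  have h2 : Real.log ((m : ℝ) + 1) ≤ (harmonic m : ℝ) := by exact_mod_cast h
  refine h1.trans (h2.trans (le_of_eq ?_))
  rw [harmonic, ← sum_range_reflect]
  push_cast
  refine sum_congr rfl fun i hi => ?_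
  rw [mem_range] at hi
  rw [one_div]
  congr 1
  have : ((m - 1 - i : ℕ) : ℝ) = (m : ℝ) - 1 - i := by
    rw [Nat.cast_sub (by omega), Nat.cast_sub hm]
    norm_num
  rw [this]
  ring

/-- THE WINDOW INEQUALITY, lower half. -/
theorem window_ge (N V X : ℕ) (hV1 : 1 ≤ V) (hV : V ≤ N) (hX : 1 ≤ X) (δ : ℝ) (hδ : 0 ≤ δ)
    (hblock : ∀ M, ∑ m ∈ Ioc M (M + X), a N m ≤ δ * X) :
    V * y N V + Real.log V * P N V - δ * (X * Real.log V + V) ≤
      ∑ i ∈ range V, N5dc7309f.f (N - i) := by
  have hlog : 0 ≤ Real.log V := Real.log_natCast_nonneg V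
  have h1 : ∑ i ∈ range V, N5dc7309f.f (N - i) =
      ∑ i ∈ range V, ∑ m ∈ Ioc i V, a N m / ((m : ℝ) - i) +
        ∑ m ∈ Ioc V N, ∑ i ∈ range V, a N m / ((m : ℝ) - i) := by
    rw [sum_comm (s := Ioc V N), ← sum_add_distrib]
    refine sum_congr rfl fun i hi => ?_
    rw [mem_range] at hi
    rw [f_eq N i (by omega), sum_Ioc_consecutive _ hi.le hV]
  rw [h1]
  have h2 : ∑ i ∈ range V, ∑ m ∈ Ioc i V, a N m / ((m : ℝ) - i) =
      ∑ m ∈ Ioc 0 V, a N m * ∑ i ∈ range m, 1 / ((m : ℝ) - i) := by
    have h3 : ∀ i ∈ range V, ∑ m ∈ Ioc i V, a N m / ((m : ℝ) - i) =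
        ∑ m ∈ Ioc 0 V, if i < m then a N m / ((m : ℝ) - i) else 0 := by
      intro i _
      rw [← sum_filter]
      congr 1
      ext m
      simp only [mem_filter, mem_Ioc]
      omega
    rw [sum_congr rfl h3, sum_comm]
    refine sum_congr rfl fun m hm => ?_
    rw [mem_Ioc] at hm
    rw [← sum_filter]
    have h4 : (range V).filter (fun i => i < m) = range m := by
      ext i
      simp only [mem_filter, mem_range]
      omega
    rw [h4, mul_sum]
    refine sum_congr rfl fun i _ => ?_
    rw [mul_one_div]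
  have h6 : ∑ m ∈ Ioc V N, ∑ i ∈ range V, a N m / ((m : ℝ) - i) =
      V * y N V + ∑ m ∈ Ioc V N, a N m * ker V m := by
    unfold y ker
    rw [mul_sum, ← sum_add_distrib]
    refine sum_congr rfl fun m _ => ?_
    rw [sum_sub_distrib, sum_const, card_range, nsmul_eq_mul, mul_sub, mul_sum]
    have : ∀ i ∈ range V, a N m / ((m : ℝ) - i) = a N m * (1 / ((m : ℝ) - i)) := by
      intro i _
      rw [mul_one_div]
    rw [sum_congr rfl this]
    ring
  have h7 : 0 ≤ ∑ m ∈ Ioc V N, a N m * ker V m := by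
    refine sum_nonneg fun m hm => ?_
    rw [mem_Ioc] at hm
    exact mul_nonneg (a_nonneg N m) (ker_nonneg V m hm.1)
  have h8 : ∑ m ∈ Ioc 0 V, a N m * Real.log m ≤
      ∑ m ∈ Ioc 0 V, a N m * ∑ i ∈ range m, 1 / ((m : ℝ) - i) :=
    sum_le_sum fun m _ => mul_le_mul_of_nonneg_left (har_ge m) (a_nonneg N m)
  -- the loss
  set k : ℕ → ℝ := fun m => max 0 (Real.log V - Real.log m) with hk
  have hk0 : ∀ m, 0 ≤ k m := fun m => le_max_left _ _
  have hkanti : ∀ m m', 0 < m → m ≤ m' → k m' ≤ k m := by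
    intro m m' hm hmm
    have hm0 : (0 : ℝ) < m := by exact_mod_cast hm
    have : Real.log m ≤ Real.log m' := Real.log_le_log hm0 (by exact_mod_cast hmm)
    exact max_le_max le_rfl (by linarith)
  have h9 : ∑ m ∈ Ioc 0 V, a N m * (Real.log V - Real.log m) ≤ δ * (X * Real.log V + V) := by
    have h10 := block_le (a N) k δ X 0 hδ (a_nonneg N) hblock (fun m _ => hk0 m)
      (fun m m' hm hmm => hkanti m m' hm hmm) V
    have h11 : ∑ m ∈ Ioc 0 V, a N m * (Real.log V - Real.log m) ≤
        ∑ m ∈ Ioc 0 (0 + (V + 1) * X), a N m * k m := by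
      refine (sum_le_sum (g := fun m : ℕ => a N m * k m) fun (m : ℕ) _ =>
        mul_le_mul_of_nonneg_left
        (le_max_right (0 : ℝ) (Real.log V - Real.log m)) (a_nonneg N m)).trans ?_
      refine sum_le_sum_of_subset_of_nonneg (Ioc_subset_Ioc_right ?_)
        fun m _ _ => mul_nonneg (a_nonneg N m) (hk0 m)
      have : V + 1 ≤ (V + 1) * X := Nat.le_mul_of_pos_right _ hX
      omega
    have h12 : ∑ m ∈ Ioc 0 (0 + V * X), k m ≤ V := by
      have h13 : ∑ m ∈ Ioc 0 (0 + V * X), k m = ∑ m ∈ Ioc 0 V, k m := by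
        symm
        refine sum_subset (Ioc_subset_Ioc_right ?_) fun m hm hm' => ?_
        · have : V ≤ V * X := Nat.le_mul_of_pos_right _ hX
          omega
        · rw [mem_Ioc] at hm hm'
          have h14 : V < m := by omega
          have h15 : Real.log V ≤ Real.log m :=
            Real.log_le_log (by exact_mod_cast hV1) (by exact_mod_cast h14.le)
          simp only [hk]
          exact max_eq_left (by linarith)
      rw [h13]
      refine le_trans (le_of_eq ?_) (sum_log_le V)
      refine sum_congr rfl fun m hm => ?_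
      rw [mem_Ioc] at hm
      have h15 : Real.log m ≤ Real.log V :=
        Real.log_le_log (by exact_mod_cast hm.1) (by exact_mod_cast hm.2)
      exact max_eq_right (by linarith)
    have h16 : k (0 + 1) = Real.log V := by
      simp only [hk, zero_add, Nat.cast_one, Real.log_one, sub_zero]
      exact max_eq_right hlog
    rw [h16] at h10
    have h17 := mul_le_mul_of_nonneg_left h12 hδ
    rw [mul_add]
    linarith
  have h18 : ∑ m ∈ Ioc 0 V, a N m * (Real.log V - Real.log m) =
      Real.log V * P N V - ∑ m ∈ Ioc 0 V, a N m * Real.log m := by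
    unfold P
    rw [mul_sum, ← sum_sub_distrib]
    exact sum_congr rfl fun m _ => by ring
  rw [h2, h6]
  linarith

/-- all error terms of the window identity are `O(1 / log x)`, uniformly. -/
theorem window_err (s : ℝ) (hs : 0 < s) (η : ℝ) (hη : 0 < η) :
    ∀ᶠ x : ℕ in atTop, ∀ V n : ℕ, (x : ℝ) ^ s ≤ V → V ≤ n → n ≤ x →
      |(∑ i ∈ range V, N5dc7309f.f (n - i)) / V - (R n V + Real.log V * (P n V / V))| ≤ η := by
  obtain ⟨C, hC, hblock⟩ := block_a
  filter_upwards [XX_spec s hs, ev_log_pow 2 (s / 2) (by linarith),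
    ev_log (5 * C / s) η hη, ev_pow s 2 hs, eventually_ge_atTop 2] with x h1 h3 h4 h7 h9
  obtain ⟨hX2, hXle, hXlog⟩ := h1
  intro V n hVx hVn hnx
  have hx2 : (2 : ℝ) ≤ x := by exact_mod_cast h9
  have hx0 : (0 : ℝ) < x := by linarith
  have hlogx : 0 < Real.log x := Real.log_pos (by linarith)
  set X : ℕ := XX s x with hXdef
  have hlogX : 0 < Real.log X := lt_of_lt_of_le (by positivity) hXlog
  set δ : ℝ := C / Real.log X with hδ
  have hδ0 : 0 ≤ δ := by positivity
  have hδle : δ ≤ 2 * C / (s * Real.log x) := by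
    rw [hδ, div_le_div_iff₀ hlogX (by positivity)]
    nlinarith
  have hVR2 : (2 : ℝ) ≤ V := h7.trans hVx
  have hV2 : 2 ≤ V := by exact_mod_cast hVR2
  have hV0 : (0 : ℝ) < V := by linarith
  have hlogV : s * Real.log x ≤ Real.log V := by
    rw [← Real.log_rpow hx0]
    exact Real.log_le_log (by positivity) hVx
  have hlogV0 : 0 < Real.log V := lt_of_lt_of_le (by positivity) hlogV
  have hlogVx : Real.log V ≤ Real.log x :=
    Real.log_le_log hV0 (by exact_mod_cast hVn.trans hnx)
  have h14 : (X : ℝ) * (1 + Real.log V) ≤ V := by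
    have h17 : (x : ℝ) ^ (s / 2) * (x : ℝ) ^ (s / 2) = (x : ℝ) ^ s := by
      rw [← Real.rpow_add hx0]
      congr 1
      ring
    have h18 : (0 : ℝ) < (x : ℝ) ^ (s / 2) := by positivity
    calc (X : ℝ) * (1 + Real.log V) ≤ (2 * (x : ℝ) ^ (s / 2)) * (1 + Real.log x) := by
          refine mul_le_mul hXle (by linarith) (by linarith) (by positivity)
      _ = (x : ℝ) ^ (s / 2) * (2 * (1 + Real.log x)) := by ring
      _ ≤ (x : ℝ) ^ (s / 2) * (x : ℝ) ^ (s / 2) := mul_le_mul_of_nonneg_left h3 h18.le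
      _ = (x : ℝ) ^ s := h17
      _ ≤ V := hVx
  have hup := window_le n V X (by omega) hVn (by omega) δ hδ0 (fun M => hblock n M X hX2)
  have hlo := window_ge n V X (by omega) hVn (by omega) δ hδ0 (fun M => hblock n M X hX2)
  have hP : P n V / V ≤ C / (s * Real.log x) := by
    have h30 := hblock n 0 V hV2
    rw [zero_add] at h30
    rw [div_le_iff₀ hV0]
    unfold P
    refine h30.trans (mul_le_mul_of_nonneg_right ?_ hV0.le)
    exact div_le_div_of_nonneg_left hC.le (by positivity) hlogV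
  have hP0 : 0 ≤ P n V / V := div_nonneg (P_nonneg n V) hV0.le
  have hP1 : P n V / ((V : ℝ) + 1) ≤ P n V / V :=
    div_le_div_of_nonneg_left (P_nonneg n V) hV0 (by linarith)
  have hP10 : 0 ≤ P n V / ((V : ℝ) + 1) := div_nonneg (P_nonneg n V) (by linarith)
  have hη2 : C / (s * Real.log x) + 2 * δ ≤ η := by
    have e1 : C / (s * Real.log x) + 2 * (2 * C / (s * Real.log x)) = 5 * C / s / Real.log x := by
      field_simp
      ring
    linarith
  have hXlV : (X : ℝ) * Real.log V ≤ V := by
    have : (0 : ℝ) ≤ X := Nat.cast_nonneg X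
    nlinarith
  have hup' : (∑ i ∈ range V, N5dc7309f.f (n - i)) / V ≤
      y n V + Real.log V * (P n V / V) + P n V / V + 2 * δ := by
    rw [div_le_iff₀ hV0]
    have e2 : (y n V + Real.log V * (P n V / V) + P n V / V + 2 * δ) * V =
        V * y n V + (1 + Real.log V) * P n V + δ * (V + V) := by
      field_simp
      ring
    rw [e2]
    have h20 : δ * (X * (1 + Real.log V) + V) ≤ δ * (V + V) :=
      mul_le_mul_of_nonneg_left (by linarith) hδ0
    linarith
  have hlo' : y n V + Real.log V * (P n V / V) - 2 * δ ≤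
      (∑ i ∈ range V, N5dc7309f.f (n - i)) / V := by
    rw [le_div_iff₀ hV0]
    have e2 : (y n V + Real.log V * (P n V / V) - 2 * δ) * V =
        V * y n V + Real.log V * P n V - δ * (V + V) := by
      field_simp
      ring
    rw [e2]
    have h20 : δ * (X * Real.log V + V) ≤ δ * (V + V) :=
      mul_le_mul_of_nonneg_left (by linarith) hδ0
    linarith
  unfold R
  rw [abs_le]
  constructor <;> linarith

end H63.WP
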